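import Mathlib
import Pool.Agent.Lib.MP_44a246_ntUV.UV05a
import Pool.Agent.Lib.MP_44a246_ntUV.UV10

/-!
# T5V: interfaces
-/

namespace Pool.Agent.Lib.MP_44a246_ntTV

open Pool.Agent.Lib.MP_e52354_nt
open Pool.Agent.Lib.MP_44a246_nt
open Pool.Agent.Lib.MP_44a246_ntL
open Pool.Agent.Lib.MP_44a246_ntS
open Pool.Agent.Lib.MP_44a246_ntSH
open Pool.Agent.Lib.MP_44a246_ntUV
open WithZero MvPolynomial Module

universe u v w x

/-- **Interface (V3)**: the points of degree at most `g` of the locus for which the inequality fails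
have small height, or there is a curve of bounded degree and height through the projected point. -/
def LevelV (κ : Type u) {K : Type v} {k : Type x} [Field κ] [Field K] [Field k] [Algebra κ K]
    [Algebra k K] {n r p : ℕ} {ι : Type*} (f : ι → MvPolynomial (Fin p ⊕ Fin (n + 1)) k)
    (d : Fin p → ℕ) (A : Finset (Fin p)) (η : Fin (r + 1) → Fin (n + 1) → ℤ)
    (H : Fin p → MvPolynomial (Fin (n + 1)) K) (q g : ℕ) (ε : ℝ) : Prop :=
  ∃ B C : ℕ, ∀ (L : Type w) [Field L] [Algebra K L] [FiniteDimensional K L] [Algebra κ L]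
    [IsScalarTower κ K L] [Algebra k L] [IsScalarTower k K L], finrank K L ≤ g →
    ∀ (x : Fin (n + 1) → L), x ≠ 0 →
    (∀ i, aeval (Sum.elim (fun j => aeval x (H j)) x : Fin p ⊕ Fin (n + 1) → L) (f i) = 0) →
    (∃ i : A → ι, (Matrix.of fun a b : A =>
      aeval (Sum.elim (fun j => aeval x (H j)) x : Fin p ⊕ Fin (n + 1) → L)
        (pderiv (Sum.inl (b : Fin p)) (f (i a)))).det ≠ 0) →
    ∀ T : Finset (Place κ L),
    (∀ w ∉ T, ∀ j ∉ A, aeval x (H j) ≠ 0 → w.1 (aeval x (H j)) = vmax w.1 x ^ d j) →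
    (ramDeg κ L K : ℤ) ≤ q * height κ x →
    (ramDeg κ L K : ℝ) + T.card + ε * height κ x ≤
      ((∑ j, d j : ℕ) - (r : ℝ) - 1) * height κ x →
    height κ x ≤ C ∨ CertV κ B 1 (C : ℤ) (prj η x)

end Pool.Agent.Lib.MP_44a246_ntTV
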