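import Mathlib
import Pool.Agent.Lib.MP_44a246_ntTM.TM05
import Pool.Agent.Lib.MP_44a246_ntMY.MC07

/-!
# T5V: no generic sequence of counterexamples on an arbitrary variety
-/

namespace Pool.Agent.Lib.MP_44a246_ntTV

open Pool.Agent.Lib.MP_e52354_nt
open Pool.Agent.Lib.MP_44a246_nt
open Pool.Agent.Lib.MP_44a246_ntL
open Pool.Agent.Lib.MP_44a246_ntS
open Pool.Agent.Lib.MP_44a246_ntSH
open Pool.Agent.Lib.MP_44a246_ntSP
open Pool.Agent.Lib.MP_44a246_ntUV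
open Pool.Agent.Lib.MP_44a246_ntTM
open Pool.Agent.Lib.MP_44a246_ntMY
open WithZero MvPolynomial Module

universe u v w

/-- **No generic sequence of counterexamples** on an arbitrary variety: the certificates are for the
projected points. -/
theorem seq_falseTV {κ : Type u} {K : Type v} {Ω : Type v} [Field κ] [IsAlgClosed κ]
    [CharZero κ] [Field K] [CharZero K] [Algebra κ K] [Field Ω] [Algebra K Ω] [Algebra κ Ω]
    [IsScalarTower κ K Ω] [IsAlgClosed Ω] [Algebra.IsAlgebraic K Ω] (hK : IsFF κ K)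
    (hMY : MYP.{u, v} κ) {n r p m₀ b C r₀ : ℕ} (hr : r ≤ n) {d : Fin p → ℕ}
    (hd1 : ∀ j, 1 ≤ d j) {k : Type*} [Field k] [CharZero k] [Algebra k K] {ι : Type*} {e : ι → ℕ}
    {f : ι → MvPolynomial (Fin p ⊕ Fin (n + 1)) k}
    (hf : ∀ i, (f i).IsWeightedHomogeneous (Sum.elim d fun _ => 1) (e i)) {A : Finset (Fin p)}
    (hfA : ∀ i, ∀ j ∉ A, Sum.inl j ∉ (f i).vars) {η : Fin (r + 1) → Fin (n + 1) → ℤ}
    (hη : ProjV hr ((Ideal.span (Set.range f)).comap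
      (rename (Sum.inr : Fin (n + 1) → Fin p ⊕ Fin (n + 1)))) η)
    {H : Fin p → MvPolynomial (Fin (n + 1)) K} (hH : ∀ j, (H j).IsHomogeneous (d j))
    (ha : AlgebraicIndependent k
      (fun I : {I : Fin p × (Fin (n + 1) →₀ ℕ) // I.2.degree = d I.1} => (H I.1.1).coeff I.1.2))
    {k₂ : Type*} [Field k₂] [CharZero k₂] [Algebra k₂ K] [Algebra k₂ Ω] [IsScalarTower k₂ K Ω]
    (hkk₂ : ∀ u : k, ∃ u' : k₂, algebraMap k₂ K u' = algebraMap k K u)
    (hcoef : ∀ j I, ∃ u : k₂, algebraMap k₂ K u = (H j).coeff I)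
    {E : ℕ → IntermediateField (⊥ : IntermediateField K Ω) Ω}
    (hEf : ∀ N, FiniteDimensional (⊥ : IntermediateField K Ω) (E N))
    (hEr : ∀ N, finrank (⊥ : IntermediateField K Ω) (E N) ≤ r₀)
    {x : ∀ N, Fin (n + 1) → E N} {l : Fin (n + 1)} (hxl : ∀ N, x N l = 1)
    (hfx : ∀ N i, evK H (x N) (map (algebraMap k K) (f i)) = 0)
    (hrk : ∀ N, ∃ i : A → ι, (Matrix.of fun a b : A =>
      evK H (x N) (pderiv (Sum.inl (b : Fin p)) (map (algebraMap k K) (f (i a))))).det ≠ 0)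
    (hA : ∀ N, ∀ j ∉ A, aeval (x N) (H j) ≠ 0)
    {j : Fin m₀ → Fin (n + 1)}
    (hgen : ∀ G : MvPolynomial (Fin m₀) k₂, G ≠ 0 →
      ∃ N₀, ∀ N ≥ N₀, aeval (fun i => (x N (j i) : Ω)) G ≠ 0)
    {S : ∀ N, Finset (Place κ (E N))}
    (hS : ∀ N, ∀ w : Place κ (E N), w ∉ S N → ∀ j, j ∉ A →
      w.1 (aeval (x N) (H j)) = vmax w.1 (x N) ^ d j)
    {θ ε : ℝ} (hε : 0 < ε)
    (hθ : θ + ε ≤ (A.card : ℝ) + (∑ j, d j : ℕ) + (max m₀ 1 : ℕ) - (2 * r + 1))
    (hcert : ∀ N, CertV κ b 1 (C : ℤ) (prj η (x N)))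
    (hlarge : ∀ N : ℕ, (N : ℝ) + ramDeg κ (E N) K + (S N).card < θ * height κ (x N)) :
    False := by
  classical
  -- the tower
  let T₀ : ℕ := finrank K (⊥ : IntermediateField K Ω) + ramDeg κ (⊥ : IntermediateField K Ω) K
  have hT1 : 1 ≤ T₀ := by
    have h1 : 0 < finrank K (⊥ : IntermediateField K Ω) := Module.finrank_pos
    exact Nat.le_add_right_of_le h1
  let W : Tow κ K Ω := {
    L := fun _ => ⊥
    T := fun _ => T₀
    ff := hK
    fin := fun _ => inferInstance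
    one_le := fun _ => hT1
    deg := fun _ => Nat.le_add_right _ _
    ram := fun _ => Nat.le_add_left _ _ }
  have hWT : ∀ N, W.T N = T₀ := fun _ => rfl
  have hCT : (C : ℤ) ≤ C * (T₀ : ℤ) := by
    have h1 : (1 : ℤ) ≤ T₀ := by exact_mod_cast hT1
    exact le_mul_of_one_le_right (Int.natCast_nonneg _) h1
  -- positivity
  have hff : ∀ N, IsFF κ (E N) := fun N => (W.ffL N).of_finite
  have hx0 : ∀ N, x N ≠ 0 := fun N h0 => by
    have h1 := hxl N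
    rw [h0] at h1
    simp at h1
  have hh0 : ∀ N, (0 : ℝ) ≤ height κ (x N) := fun N => by
    exact_mod_cast (hff N).height_nonneg (hx0 N)
  have hθ0 : 0 ≤ θ := by
    by_contra hcon
    push Not at hcon
    have h1 := hlarge 0
    have h2 : θ * (height κ (x 0) : ℝ) ≤ 0 := mul_nonpos_of_nonpos_of_nonneg hcon.le (hh0 0)
    have h3 : (0 : ℝ) ≤ ramDeg κ (E 0) K := Nat.cast_nonneg _
    have h4 : (0 : ℝ) ≤ (S 0).card := Nat.cast_nonneg _
    rw [Nat.cast_zero] at h1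
    linarith
  have hbig : ∀ C : ℕ, ¬ ∀ᶠ N in (Filter.hyperfilter ℕ : Filter ℕ),
      height κ (x N) ≤ C * (W.T N : ℤ) := by
    intro C' hC'
    obtain ⟨M, hM⟩ := exists_nat_gt (θ * (C' * T₀))
    obtain ⟨N, hN1, hN2⟩ := (hC'.and (Filter.Eventually.filter_mono
      Nat.hyperfilter_le_atTop (Filter.eventually_ge_atTop M))).exists
    have h1 := hlarge N
    have h3 : (height κ (x N) : ℝ) ≤ C' * T₀ := by
      rw [hWT] at hN1
      exact_mod_cast hN1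
    have h4 : θ * height κ (x N) ≤ θ * (C' * T₀) := mul_le_mul_of_nonneg_left h3 hθ0
    have h5 : (M : ℝ) ≤ N := by exact_mod_cast hN2
    have h6 : (0 : ℝ) ≤ ramDeg κ (E N) K := Nat.cast_nonneg _
    have h7 : (0 : ℝ) ≤ (S N).card := Nat.cast_nonneg _
    linarith
  obtain ⟨M, γ, i1, i2, i3, B, hM, hγ, hB, hγ0, hk, -⟩ :=
    limit_pairE W (E := E) hEr (m₀ := m₀) (b := b) (N₁ := 1) (C := C) hr hd1 hf hfA hη hH ha
      (k₂ := k₂) hkk₂ hcoef (x := x) hxl hfx hrk hA hgen hbig (fun N => by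
        rw [hWT]
        exact CertV.mono le_rfl hCT (hcert N))
  obtain ⟨a, ha'⟩ : ∃ a : ℝ, a = height W.F0 γ := ⟨_, rfl⟩
  have ha1 : 1 ≤ a := by
    rw [ha']
    exact_mod_cast hγ0
  obtain ⟨C', hC'⟩ := limit_MY hMY W (E := E) hEr hM hxl hγ hγ0 hA B
    (fun v hv => (hB v).1 hv) S (Filter.Eventually.of_forall fun N w hw j hj => hS N w hw j hj)
    (ε := a * ε / 2) (by positivity)
  obtain ⟨M', hM'⟩ := exists_nat_gt ((C' : ℝ) * T₀)
  obtain ⟨N, hN1, hN2⟩ := (hC'.and (Filter.Eventually.filter_mono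
    Nat.hyperfilter_le_atTop (Filter.eventually_ge_atTop M'))).exists
  have hl := hlarge N
  rw [hWT, ← ha'] at hN1
  have hkR : ((A.card : ℝ) + (∑ j, d j : ℕ) + (max m₀ 1 : ℕ) - (2 * r + 1)) * a ≤
      (ramDeg W.F0 M (RatFunc W.F0) : ℝ) - 2 * finrank (RatFunc W.F0) M + B.card := by
    rw [ha']
    have h1 := (Rat.cast_le (K := ℝ)).2 hk
    push_cast at h1 ⊢
    exact h1
  obtain ⟨Q, hQ⟩ : ∃ Q : ℝ, Q = (ramDeg W.F0 M (RatFunc W.F0) : ℝ) -
    2 * finrank (RatFunc W.F0) M + B.card := ⟨_, rfl⟩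
  rw [← hQ] at hkR hN1
  obtain ⟨h, hh⟩ : ∃ h : ℝ, h = height κ (x N) := ⟨_, rfl⟩
  have hh1 := hh0 N
  rw [← hh] at hN1 hl hh1
  have h1 : (θ + ε) * a ≤ Q := (mul_le_mul_of_nonneg_right hθ (by linarith)).trans hkR
  have h2 : (θ + ε) * a * h ≤ Q * h := mul_le_mul_of_nonneg_right h1 hh1
  have h3 : a * ((N : ℝ) + ramDeg κ (E N) K + (S N).card) ≤ a * (θ * h) :=
    mul_le_mul_of_nonneg_left hl.le (by linarith)
  have h4 : (0 : ℝ) ≤ a * ε * h := by positivity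
  have h5 : (M' : ℝ) ≤ N := by exact_mod_cast hN2
  have h6 : (N : ℝ) ≤ a * N := le_mul_of_one_le_left (Nat.cast_nonneg _) ha1
  nlinarith

end Pool.Agent.Lib.MP_44a246_ntTV
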