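import Mathlib
import Pool.Agent.Lib.MP_44a246_ntD.D10
import Pool.Agent.Lib.MP_44a246_ntUV.UV09
import Pool.Agent.Lib.MP_44a246_ntUV.UV11s
import Pool.Agent.Lib.MP_44a246_ntUV.UV05a
import Pool.Agent.Lib.MP_44a246_ntTV.TV40

/-!
# T5V: the exceptional forms, arbitrary varieties, points of bounded degree
-/

namespace Pool.Agent.Lib.MP_44a246_ntTV

open Pool.Agent.Lib.MP_e52354_nt
open Pool.Agent.Lib.MP_44a246_nt
open Pool.Agent.Lib.MP_44a246_ntL
open Pool.Agent.Lib.MP_44a246_ntS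
open Pool.Agent.Lib.MP_44a246_ntSH
open Pool.Agent.Lib.MP_44a246_ntSP
open Pool.Agent.Lib.MP_44a246_ntUV
open Pool.Agent.Lib.MP_44a246_ntTM
open Pool.Agent.Lib.MP_44a246_ntMY
open Pool.Agent.Lib.MP_44a246_ntD (countable_adjoin)
open WithZero MvPolynomial Module

universe u v w

/-- `x` (a point over `Ω`) is a counterexample with the constant `N`, up to scaling: the points of
degree at most `g` of the locus with a curve of bounded height through the projected point, and of
large height. -/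
def CexTV (κ : Type*) {k K Ω : Type*} [Field κ] [Field K] [Algebra κ K] [Field Ω] [Algebra K Ω]
    [Algebra κ Ω] [IsScalarTower κ K Ω] [Field k] [Algebra k K] {n r p : ℕ} {ι : Type*}
    (f : ι → MvPolynomial (Fin p ⊕ Fin (n + 1)) k) (d : Fin p → ℕ)
    (H : Fin p → MvPolynomial (Fin (n + 1)) K) (A : Finset (Fin p))
    (η : Fin (r + 1) → Fin (n + 1) → ℤ) (b C₂ g : ℕ) (θ : ℝ) (N : ℕ) :
    Set (Fin (n + 1) → Ω) :=
  {x | ∃ (E : IntermediateField (⊥ : IntermediateField K Ω) Ω)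
    (_ : FiniteDimensional (⊥ : IntermediateField K Ω) E) (y : Fin (n + 1) → E)
    (S : Finset (Place κ E)) (s : Ω), s ≠ 0 ∧ (∀ i, x i = s * (y i : Ω)) ∧
    finrank (⊥ : IntermediateField K Ω) E ≤ g ∧
    (∀ i, evK H y (map (algebraMap k K) (f i)) = 0) ∧
    (∃ i : A → ι, (Matrix.of fun a b : A =>
      evK H y (pderiv (Sum.inl (b : Fin p)) (map (algebraMap k K) (f (i a))))).det ≠ 0) ∧
    (∀ j ∉ A, aeval y (H j) ≠ 0) ∧
    (∀ w ∉ S, ∀ j ∉ A, w.1 (aeval y (H j)) = vmax w.1 y ^ d j) ∧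
    CertV κ b 1 (C₂ : ℤ) (prj η y) ∧
    (N : ℝ) + ramDeg κ E K + S.card < θ * height κ y}

/-- **The exceptional forms** for the points of bounded degree of the locus with a curve of bounded
height through the projected point. -/
theorem exc_TV {κ : Type u} {K : Type v} [Field κ] [IsAlgClosed κ] [CharZero κ] [Field K]
    [CharZero K] [Algebra κ K] (hK : IsFF κ K) (hMY : MYP.{u, v} κ) {n r p m₀ b g : ℕ}
    (hr : r ≤ n) {d : Fin p → ℕ} (hd1 : ∀ j, 1 ≤ d j) {k : Type*} [Field k] [CharZero k]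
    [Algebra k K] [Countable k] {ι : Type*} {e : ι → ℕ}
    {f : ι → MvPolynomial (Fin p ⊕ Fin (n + 1)) k}
    (hf : ∀ i, (f i).IsWeightedHomogeneous (Sum.elim d fun _ => 1) (e i)) {A : Finset (Fin p)}
    (hfA : ∀ i, ∀ j ∉ A, Sum.inl j ∉ (f i).vars) {η : Fin (r + 1) → Fin (n + 1) → ℤ}
    (hη : ProjV hr ((Ideal.span (Set.range f)).comap
      (rename (Sum.inr : Fin (n + 1) → Fin p ⊕ Fin (n + 1)))) η)
    {H : Fin p → MvPolynomial (Fin (n + 1)) K} (hH : ∀ j, (H j).IsHomogeneous (d j))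
    (ha : AlgebraicIndependent k
      (fun I : {I : Fin p × (Fin (n + 1) →₀ ℕ) // I.2.degree = d I.1} => (H I.1.1).coeff I.1.2))
    {θ ε : ℝ} (hε : 0 < ε)
    (hθ : θ + ε ≤ (A.card : ℝ) + (∑ j, d j : ℕ) + (max m₀ 1 : ℕ) - (2 * r + 1)) (C₂ : ℕ) :
    ∃ (C s : ℕ) (G : Fin s → MvPolynomial (Fin (n + 1)) K), (∀ i, ∃ E, (G i).IsHomogeneous E) ∧
      ringKrullDim (MvPolynomial (Fin (n + 1)) K ⧸ Ideal.span (Set.range G)) ≤
        (m₀ : WithBot ℕ∞) ∧
      ∀ (E : IntermediateField (⊥ : IntermediateField K (AlgebraicClosure K))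
          (AlgebraicClosure K))
        [FiniteDimensional (⊥ : IntermediateField K (AlgebraicClosure K)) E]
        (x : Fin (n + 1) → E) (S : Finset (Place κ E)),
        finrank (⊥ : IntermediateField K (AlgebraicClosure K)) E ≤ g →
        (∀ i, evK H x (map (algebraMap k K) (f i)) = 0) →
        (∃ i : A → ι, (Matrix.of fun a b : A =>
          evK H x (pderiv (Sum.inl (b : Fin p)) (map (algebraMap k K) (f (i a))))).det ≠ 0) →
        (∀ j ∉ A, aeval x (H j) ≠ 0) →
        (∀ w ∉ S, ∀ j ∉ A, w.1 (aeval x (H j)) = vmax w.1 x ^ d j) →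
        CertV κ b 1 (C₂ : ℤ) (prj η x) →
        θ * height κ x ≤ (C : ℝ) + ramDeg κ E K + S.card ∨ ∀ i, aeval x (G i) = 0 := by
  classical
  -- the field of the coefficients
  obtain ⟨k₂, hk₂⟩ : ∃ k₂ : IntermediateField ℚ K, k₂ = IntermediateField.adjoin ℚ
      (Set.range (algebraMap k K) ∪ ⋃ j, Set.range (fun I => (H j).coeff I)) := ⟨_, rfl⟩
  have hk₂c : Countable k₂ := by
    rw [hk₂]
    have h1 : Countable ↑(Set.range (algebraMap k K) ∪ ⋃ j, Set.range (fun I => (H j).coeff I)) :=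
      ((Set.countable_range _).union (Set.countable_iUnion fun j => Set.countable_range _)).to_subtype
    exact countable_adjoin _
  have hkk₂ : ∀ u : k, ∃ u' : k₂, algebraMap k₂ K u' = algebraMap k K u := by
    intro u
    have h1 : algebraMap k K u ∈ k₂ := by
      rw [hk₂]
      exact IntermediateField.subset_adjoin _ _ (Or.inl ⟨u, rfl⟩)
    exact ⟨⟨_, h1⟩, rfl⟩
  have hcoef : ∀ j I, ∃ u : k₂, algebraMap k₂ K u = (H j).coeff I := by
    intro j I
    have h1 : (H j).coeff I ∈ k₂ := by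
      rw [hk₂]
      exact IntermediateField.subset_adjoin _ _ (Or.inr (Set.mem_iUnion.2 ⟨j, I, rfl⟩))
    exact ⟨⟨_, h1⟩, rfl⟩
  have hfK : ∀ i, (map (algebraMap k K) (f i)).IsWeightedHomogeneous (Sum.elim d fun _ => 1)
      (e i) := by
    intro i I hI
    refine hf i ?_
    intro h0
    rw [coeff_map, h0, map_zero] at hI
    exact hI rfl
  have hmain := exists_formsV (k := k₂) (K := K) (Ω := AlgebraicClosure K) (m := m₀)
    (P := CexTV κ (Ω := AlgebraicClosure K) f d H A η b C₂ g θ) ?_ ?_ ?_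
  · obtain ⟨C, s, G, hG1, hG2, hG3⟩ := hmain
    refine ⟨C, s, G, hG1, hG2, ?_⟩
    intro E _ x S h1 h2 h3 h4 h5 h6
    by_contra hcon
    rw [not_or, not_le] at hcon
    apply hcon.2
    intro i
    have h6 := hG3 (fun i => (x i : AlgebraicClosure K)) ⟨E, inferInstance, x, S, 1,
      one_ne_zero, fun i => (one_mul _).symm, h1, h2, h3, h4, h5, h6, hcon.1⟩ i
    have h7 : aeval (fun i => (x i : AlgebraicClosure K)) (G i) =
        ((aeval x (G i) : E) : AlgebraicClosure K) :=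
      aeval_algebraMap_apply (B := AlgebraicClosure K) x (G i)
    rw [h7] at h6
    exact Subtype.ext h6
  · rintro N N' hN x ⟨E, hE, y, S, s, h1, h2, h3, h4, h5, h6, h7, h8, h9⟩
    refine ⟨E, hE, y, S, s, h1, h2, h3, h4, h5, h6, h7, h8, lt_of_le_of_lt ?_ h9⟩
    have : (N : ℝ) ≤ N' := by exact_mod_cast hN
    linarith
  · rintro N x ⟨E, hE, y, S, s, hs, hxs, h⟩ t ht
    refine ⟨E, hE, y, S, t * s, mul_ne_zero ht hs, fun i => ?_, h⟩
    show t * x i = _
    rw [hxs i, mul_assoc]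
  · intro l j x hx hxl hgen
    choose E hEfin y S s hs hxs hEr hfx hrk hA hS hcert hlarge using hx
    -- the normalised points
    have hy0 : ∀ N, y N l ≠ 0 := by
      intro N h0
      have h1 := hxs N l
      rw [hxl, h0] at h1
      simp at h1
    have hyx : ∀ N i, ((((y N l)⁻¹ * y N i : E N)) : AlgebraicClosure K) = x N i := by
      intro N i
      have h1 := hxs N l
      rw [hxl] at h1
      have h2 : s N = ((y N l : E N) : AlgebraicClosure K)⁻¹ :=
        eq_inv_of_mul_eq_one_left h1.symm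
      rw [hxs N i, h2]
      rfl
    have hx1 : ∀ N, (y N l)⁻¹ * y N l = 1 := fun N => inv_mul_cancel₀ (hy0 N)
    have hfx' : ∀ N i, evK H (fun i => (y N l)⁻¹ * y N i) (map (algebraMap k K) (f i)) = 0 := by
      intro N i
      rw [evK_smul hH (hfK i), hfx, mul_zero]
    have hrk' : ∀ N, ∃ i : A → ι, (Matrix.of fun a b : A =>
        evK H (fun i => (y N l)⁻¹ * y N i) (pderiv (Sum.inl (b : Fin p))
          (map (algebraMap k K) (f (i a))))).det ≠ 0 := fun N =>
      rk_smul hH hfK (inv_ne_zero (hy0 N)) (hrk N)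
    have hA' : ∀ N, ∀ j ∉ A, aeval (fun i => (y N l)⁻¹ * y N i) (H j) ≠ 0 := by
      intro N j hj
      rw [aeval_smul_hom (hH j)]
      exact mul_ne_zero (pow_ne_zero _ (inv_ne_zero (hy0 N))) (hA N j hj)
    have hSx : ∀ N, ∀ w : Place κ (E N), w ∉ S N → ∀ j, j ∉ A →
        w.1 (aeval (fun i => (y N l)⁻¹ * y N i) (H j)) =
          vmax w.1 (fun i => (y N l)⁻¹ * y N i) ^ d j := by
      intro N w hw j hj
      rw [aeval_smul_hom (hH j), map_mul, map_pow, hS N w hw j hj, vmax_smul, mul_pow]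
    have hKb : IsFF κ (⊥ : IntermediateField K (AlgebraicClosure K)) := hK.of_finite
    have hlx : ∀ N : ℕ, (N : ℝ) + ramDeg κ (E N) K + (S N).card <
        θ * height κ (fun i => (y N l)⁻¹ * y N i) := by
      intro N
      have := hEfin N
      have hff : IsFF κ (E N) := hKb.of_finite
      rw [hff.height_smul (inv_ne_zero (hy0 N))]
      exact hlarge N
    have hcx : ∀ N, CertV κ b 1 (C₂ : ℤ) (prj η fun i => (y N l)⁻¹ * y N i) := by
      intro N
      refine CertV.of_smul (r := y N l) (hy0 N) ?_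
      have h3 : (fun i => y N l * prj η (fun i => (y N l)⁻¹ * y N i) i) = prj η (y N) := by
        have h4 : prj η (fun i => (y N l)⁻¹ * y N i) = fun i => (y N l)⁻¹ * prj η (y N) i :=
          prj_smul η (y N) _
        rw [h4]
        funext i
        rw [mul_inv_cancel_left₀ (hy0 N)]
      rw [h3]
      exact hcert N
    refine seq_falseTV hK hMY (C := C₂) (b := b) (r₀ := g) hr hd1 hf hfA hη hH ha (k₂ := k₂)
      hkk₂ hcoef (E := E) hEfin hEr (x := fun N i => (y N l)⁻¹ * y N i) hx1 hfx' hrk' hA' (j := j)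
      (fun G hG => ?_) (S := S) hSx hε hθ hcx hlx
    obtain ⟨N₀, hN₀⟩ := hgen G hG
    refine ⟨N₀, fun N hN => ?_⟩
    have h3 := hN₀ N hN
    have h4 : (fun i => (((y N l)⁻¹ * y N (j i) : E N) : AlgebraicClosure K)) =
        fun i => x N (j i) := funext fun i => hyx N (j i)
    rw [h4]
    exact h3

end Pool.Agent.Lib.MP_44a246_ntTV
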