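import Mathlib
import Pool.Agent.Lib.MP_44a246_ntMY.MV01
import Pool.Agent.Lib.MP_44a246_ntTA.TA15
import Pool.Agent.Lib.MP_44a246_ntTV.TV41

/-!
# T5V: the exceptional forms, for the points over arbitrary extensions
-/

namespace Pool.Agent.Lib.MP_44a246_ntTV

open Pool.Agent.Lib.MP_e52354_nt
open Pool.Agent.Lib.MP_44a246_nt
open Pool.Agent.Lib.MP_44a246_ntL
open Pool.Agent.Lib.MP_44a246_ntS
open Pool.Agent.Lib.MP_44a246_ntSH
open Pool.Agent.Lib.MP_44a246_ntSP
open Pool.Agent.Lib.MP_44a246_ntUV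
open Pool.Agent.Lib.MP_44a246_ntMY
open Pool.Agent.Lib.MP_44a246_ntTA (exists_embedB)
open WithZero MvPolynomial Module

universe u v w

/-- **The exceptional forms** for the points of bounded degree of the locus with a curve of bounded
height through the projected point. -/
theorem exc_LV {κ : Type u} {K : Type v} [Field κ] [IsAlgClosed κ] [CharZero κ] [Field K]
    [CharZero K] [Algebra κ K] (hK : IsFF κ K) (hMY : MYP.{u, v} κ) {n r p m₀ b g : ℕ}
    (hr : r ≤ n) {d : Fin p → ℕ} (hd1 : ∀ j, 1 ≤ d j) {k : Type*} [Field k] [CharZero k]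
    [Algebra k K] [Countable k] {ι : Type*} {e : ι → ℕ}
    {f : ι → MvPolynomial (Fin p ⊕ Fin (n + 1)) k}
    (hf : ∀ i, (f i).IsWeightedHomogeneous (Sum.elim d fun _ => 1) (e i)) {A : Finset (Fin p)}
    (hfA : ∀ i, ∀ j ∉ A, Sum.inl j ∉ (f i).vars) {η : Fin (r + 1) → Fin (n + 1) → ℤ}
    (hη : ProjV hr ((Ideal.span (Set.range f)).comap
      (rename (Sum.inr : Fin (n + 1) → Fin p ⊕ Fin (n + 1)))) η)
    {H : Fin p → MvPolynomial (Fin (n + 1)) K} (hH : ∀ j, (H j).IsHomogeneous (d j))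
    (ha : AlgebraicIndependent k
      (fun I : {I : Fin p × (Fin (n + 1) →₀ ℕ) // I.2.degree = d I.1} => (H I.1.1).coeff I.1.2))
    {θ ε : ℝ} (hε : 0 < ε)
    (hθ : θ + ε ≤ (A.card : ℝ) + (∑ j, d j : ℕ) + (max m₀ 1 : ℕ) - (2 * r + 1)) (C₂ : ℕ) :
    ∃ (C s : ℕ) (G : Fin s → MvPolynomial (Fin (n + 1)) K), (∀ i, ∃ E, (G i).IsHomogeneous E) ∧
      ringKrullDim (MvPolynomial (Fin (n + 1)) K ⧸ Ideal.span (Set.range G)) ≤
        (m₀ : WithBot ℕ∞) ∧
      ∀ (L : Type w) [Field L] [Algebra K L] [FiniteDimensional K L] [Algebra κ L]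
        [IsScalarTower κ K L] (x : Fin (n + 1) → L) (S : Finset (Place κ L)),
        finrank K L ≤ g →
        (∀ i, evK H x (map (algebraMap k K) (f i)) = 0) →
        (∃ i : A → ι, (Matrix.of fun a b : A =>
          evK H x (pderiv (Sum.inl (b : Fin p)) (map (algebraMap k K) (f (i a))))).det ≠ 0) →
        (∀ j ∉ A, aeval x (H j) ≠ 0) →
        (∀ w ∉ S, ∀ j ∉ A, w.1 (aeval x (H j)) = vmax w.1 x ^ d j) →
        CertV κ b 1 (C₂ : ℤ) (prj η x) →
        θ * height κ x ≤ (C : ℝ) + ramDeg κ L K + S.card ∨ ∀ i, aeval x (G i) = 0 := by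
  classical
  obtain ⟨C, s, G, hG1, hG2, hG3⟩ := exc_TV hK hMY (m₀ := m₀) (b := b) (g := g) hr hd1 hf hfA hη
    hH ha hε hθ C₂
  refine ⟨C, s, G, hG1, hG2, ?_⟩
  intro L _ _ _ _ _ x S hg hfx hrk hA' hS hcert
  obtain ⟨E, hE, e, heκ, hfr⟩ := exists_embedB κ K L
  have heK : ∀ c : K, (e : L ≃+* E) (algebraMap K L c) = algebraMap K E c := fun c =>
    e.commutes c
  have heκ' : ∀ c : κ, (e : L ≃+* E) (algebraMap κ L c) = algebraMap κ E c := heκ
  have hev : ∀ F : MvPolynomial (Fin (n + 1)) K,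
      aeval (fun i => e (x i)) F = e (aeval x F) := fun F =>
    (MvPolynomial.comp_aeval_apply x (e : L →ₐ[K] E) F).symm
  have hevK : ∀ F : MvPolynomial (Fin p ⊕ Fin (n + 1)) K,
      evK H (fun i => e (x i)) F = e (evK H x F) := by
    intro F
    unfold evK
    have h1 := (MvPolynomial.comp_aeval_apply
      (Sum.elim (fun j => aeval x (H j)) x : Fin p ⊕ Fin (n + 1) → L) (e : L →ₐ[K] E) F).symm
    refine Eq.trans ?_ h1
    congr 2
    funext c
    rcases c with c | c
    · exact hev (H c)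
    · rfl
  have hheight : height κ (fun i => e (x i)) = height κ x :=
    height_placeEquiv (e : L ≃+* E) heκ' x
  have hram : ramDeg κ E K = ramDeg κ L K := ramDeg_placeEquiv (e : L ≃+* E) heκ' heK
  have hprj : (fun j => e (prj η x j)) = prj η (fun i => e (x i)) := by
    funext j
    unfold prj
    rw [map_sum]
    refine Finset.sum_congr rfl fun l _ => ?_
    rw [map_mul, map_intCast]
  have hcert' : CertV κ b 1 (C₂ : ℤ) (prj η fun i => e (x i)) := by
    rw [← hprj]
    refine CertV.map_equiv (e : L ≃+* E) heκ' (fun y => ?_) hcert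
    have h1 := height_placeEquiv (e : L ≃+* E) heκ' (![1, y])
    rw [← h1]
    congr 1
    funext i
    fin_cases i
    · exact (map_one e).symm
    · rfl
  have h := hG3 E (fun i => e (x i)) (S.map (placeEquiv (e : L ≃+* E) heκ').toEmbedding)
    (by rw [hfr]; exact hg)
    (fun i => by rw [hevK, hfx i, map_zero]) (by
      obtain ⟨i, hi⟩ := hrk
      refine ⟨i, ?_⟩
      have h1 : (Matrix.of fun a b : A => evK H (fun i => e (x i)) (pderiv (Sum.inl (b : Fin p))
          (map (algebraMap k K) (f (i a))))) =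
          (e : L →+* E).mapMatrix (Matrix.of fun a b : A =>
            evK H x (pderiv (Sum.inl (b : Fin p)) (map (algebraMap k K) (f (i a))))) := by
        refine Matrix.ext fun a b => ?_
        rw [RingHom.mapMatrix_apply, Matrix.map_apply, Matrix.of_apply, Matrix.of_apply]
        exact hevK _
      rw [h1, ← RingHom.map_det]
      intro h2
      apply hi
      exact (map_eq_zero (e : L →+* E)).1 h2)
    (fun j hj h0 => hA' j hj (by
      rw [hev] at h0
      exact (map_eq_zero e).1 h0))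
    (fun w hw j hj => by
      obtain ⟨w', rfl⟩ := (placeEquiv (e : L ≃+* E) heκ').surjective w
      have hw' : w' ∉ S := fun h => hw (Finset.mem_map.2 ⟨w', h, rfl⟩)
      have h1 := vmax_placeEquiv (e : L ≃+* E) heκ' w' x
      have h2 := placeEquiv_apply (e : L ≃+* E) heκ' w' (aeval x (H j))
      rw [hev]
      refine (h2.trans (hS w' hw' j hj)).trans ?_
      rw [← h1]
      rfl)
    hcert'
  rw [hheight, hram, Finset.card_map] at h
  refine h.imp id fun h1 i => ?_
  have h2 := h1 i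
  rw [hev] at h2
  exact (map_eq_zero e).1 h2

end Pool.Agent.Lib.MP_44a246_ntTV
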