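import Mathlib
import Pool.Agent.Lib.MP_44a246_ntTA.TA14
import Pool.Agent.Lib.MP_44a246_ntUV.UV11
import Pool.Agent.Lib.MP_44a246_ntYT.DG01

/-!
# T5V: from the points which generate the field to all points of bounded degree
-/

namespace Pool.Agent.Lib.MP_44a246_ntTV

open Pool.Agent.Lib.MP_e52354_nt
open Pool.Agent.Lib.MP_44a246_nt
open Pool.Agent.Lib.MP_44a246_ntL
open Pool.Agent.Lib.MP_44a246_ntSP
open Pool.Agent.Lib.MP_44a246_ntUV
open Pool.Agent.Lib.MP_44a246_ntTA (exists_model ramDeg_trans_eq aeval_model trunc_model)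
open WithZero MvPolynomial Module

universe u v w x

/-- the conclusion for the points of degree at most `g`, with coefficient one at the
ramification -/
def QD (g : ℕ) (θ : ℝ) (C : ℕ) (h : ℤ) (F : ℕ) (R : ℤ) (N : ℕ) : Prop :=
  F ≤ g → θ * h ≤ (C : ℝ) + R + N

/-- the forms off `A` -/
noncomputable def offA {K : Type*} [Field K] {n p : ℕ} (A : Finset (Fin p))
    (H : Fin p → MvPolynomial (Fin (n + 1)) K) : Fin p → MvPolynomial (Fin (n + 1)) K :=
  open Classical in fun j => if j ∈ A then 0 else H j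

theorem offA_hom {K : Type*} [Field K] {n p : ℕ} {d : Fin p → ℕ} (A : Finset (Fin p))
    {H : Fin p → MvPolynomial (Fin (n + 1)) K} (hH : ∀ j, (H j).IsHomogeneous (d j)) (j : Fin p) :
    (offA A H j).IsHomogeneous (d j) := by
  unfold offA
  split_ifs
  · exact isHomogeneous_zero _ _ _
  · exact hH j

theorem offA_mem {K : Type*} [Field K] {n p : ℕ} {A : Finset (Fin p)}
    (H : Fin p → MvPolynomial (Fin (n + 1)) K) {j : Fin p} (hj : j ∈ A) : offA A H j = 0 := by
  unfold offA
  rw [if_pos hj]

theorem offA_notMem {K : Type*} [Field K] {n p : ℕ} {A : Finset (Fin p)}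
    (H : Fin p → MvPolynomial (Fin (n + 1)) K) {j : Fin p} (hj : j ∉ A) : offA A H j = H j := by
  unfold offA
  rw [if_neg hj]

/-- the truncated counting function of the forms off `A` -/
theorem truncCount_offA {κ K L : Type*} [Field κ] [Field K] [Algebra κ K] [Field L] [Algebra κ L]
    [Algebra K L] [IsScalarTower κ K L] {n p : ℕ} {d : Fin p → ℕ} {A : Finset (Fin p)}
    {H : Fin p → MvPolynomial (Fin (n + 1)) K} (S : Set (Place κ K)) {x : Fin (n + 1) → L}
    (hne : ∀ j ∉ A, aeval x (H j) ≠ 0) :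
    truncCount κ (offA A H) d S x =
      Set.ncard {w : Place κ L | (∀ v ∈ S, ¬ (w.1.comap (algebraMap K L)).IsEquiv v.1) ∧
        ∃ j, j ∉ A ∧ w.1 (aeval x (H j)) < vmax w.1 x ^ d j} := by
  unfold truncCount
  congr 1
  ext w
  simp only [Set.mem_ofPred_eq]
  refine and_congr Iff.rfl ⟨?_, ?_⟩
  · rintro ⟨j, h0, h⟩
    by_cases hj : j ∈ A
    · rw [offA_mem H hj, map_zero] at h0
      exact absurd rfl h0
    · rw [offA_notMem H hj] at h
      exact ⟨j, hj, h⟩
  · rintro ⟨j, hj, h⟩
    refine ⟨j, ?_, ?_⟩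
    · rw [offA_notMem H hj]
      exact hne j hj
    · rw [offA_notMem H hj]
      exact h

/-- the conclusion for the points which generate the field -/
def HtTop (κ : Type u) {K : Type v} {k : Type x} [Field κ] [Field K] [Field k] [Algebra κ K]
    [Algebra k K] {n p : ℕ} {ι : Type} (f : ι → MvPolynomial (Fin p ⊕ Fin (n + 1)) k)
    (d : Fin p → ℕ) (A : Finset (Fin p)) (H : Fin p → MvPolynomial (Fin (n + 1)) K)
    (S : Set (Place κ K)) (m g : ℕ) (θ : ℝ) : Prop :=
  ∃ (t : ℕ) (G : Fin t → MvPolynomial (Fin (n + 1)) K), (∀ i, ∃ e, (G i).IsHomogeneous e) ∧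
    ringKrullDim (MvPolynomial (Fin (n + 1)) K ⧸ Ideal.span (Set.range G)) ≤
      (m : WithBot ℕ∞) ∧
    ∃ C : ℕ, ∀ (L : Type w) [Field L] [Algebra K L] [FiniteDimensional K L] [Algebra κ L]
      [IsScalarTower κ K L] (x : Fin (n + 1) → L), x ≠ 0 → finrank K L ≤ g →
      pointField K x = ⊤ →
      (∀ i, evK H x (map (algebraMap k K) (f i)) = 0) →
      (∃ i : A → ι, (Matrix.of fun a b : A =>
        evK H x (pderiv (Sum.inl (b : Fin p)) (map (algebraMap k K) (f (i a))))).det ≠ 0) →
      (∀ j ∉ A, aeval x (H j) ≠ 0) →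
      θ * height κ x ≤ (C : ℝ) + ramDeg κ L K + truncCount κ (offA A H) d S x ∨
        ∀ i, aeval x (G i) = 0

/-- the values over a larger field -/
theorem evK_ext {K M L : Type*} [Field K] [Field M] [Field L] [Algebra K M] [Algebra K L]
    [Algebra M L] [IsScalarTower K M L] {n p : ℕ} (H : Fin p → MvPolynomial (Fin (n + 1)) K)
    (y : Fin (n + 1) → M) (F : MvPolynomial (Fin p ⊕ Fin (n + 1)) K) :
    evK H (fun i => algebraMap M L (y i)) F = algebraMap M L (evK H y F) := by
  unfold evK
  have h1 : (Sum.elim (fun j => aeval (fun i => algebraMap M L (y i)) (H j))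
      (fun i => algebraMap M L (y i)) : Fin p ⊕ Fin (n + 1) → L) =
      fun s => algebraMap M L ((Sum.elim (fun j => aeval y (H j)) y :
        Fin p ⊕ Fin (n + 1) → M) s) := by
    funext s
    rcases s with j | i
    · exact aeval_algebraMap_apply L y (H j)
    · rfl
  rw [h1]
  exact aeval_algebraMap_apply L _ F

/-- **From the points which generate the field to all points.** -/
theorem HtTop.htQ {κ : Type u} {K : Type v} {k : Type x} [Field κ] [IsAlgClosed κ] [CharZero κ]
    [Field K] [Algebra κ K] (hK : IsFF κ K) [Field k] [Algebra k K] {n p : ℕ} {ι : Type}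
    {e : ι → ℕ} {f : ι → MvPolynomial (Fin p ⊕ Fin (n + 1)) k} {d : Fin p → ℕ}
    (hf : ∀ i, (f i).IsWeightedHomogeneous (Sum.elim d fun _ => 1) (e i)) {A : Finset (Fin p)}
    {H : Fin p → MvPolynomial (Fin (n + 1)) K} (hH : ∀ j, (H j).IsHomogeneous (d j))
    {S : Set (Place κ K)} {m g : ℕ} {θ : ℝ} (h : HtTop.{u, v, w, x} κ f d A H S m g θ) :
    HtQ.{u, v, w, x} κ f d A H S m (QD g θ) := by
  classical
  obtain ⟨t, G, hG, hdim, C, hC⟩ := h
  refine ⟨t, G, hG, hdim, g * C, ?_⟩
  intro L _ _ _ _ _ _ _ x hx hfx hrk hne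
  by_cases hr : finrank K L ≤ g
  swap
  · exact Or.inl fun h => absurd h hr
  rw [← truncCount_offA S hne]
  have hfx' : ∀ i, evK H x (map (algebraMap k K) (f i)) = 0 := fun i => by
    rw [evK_map_algebraMap]
    exact hfx i
  have hf' : ∀ i, (map (algebraMap k K) (f i)).IsWeightedHomogeneous (Sum.elim d fun _ => 1)
      (e i) := by
    intro i I hI
    refine hf i fun h0 => hI ?_
    rw [coeff_map, h0, map_zero]
  have hrk' : ∃ i : A → ι, (Matrix.of fun a b : A =>
        evK H x (pderiv (Sum.inl (b : Fin p)) (map (algebraMap k K) (f (i a))))).det ≠ 0 := by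
    obtain ⟨i, hi⟩ := hrk
    refine ⟨i, ?_⟩
    have h1 : (Matrix.of fun a b : A =>
        aeval (Sum.elim (fun j => aeval x (H j)) x : Fin p ⊕ Fin (n + 1) → L)
          (pderiv (Sum.inl (b : Fin p)) (f (i a)))) =
        (Matrix.of fun a b : A =>
          evK H x (pderiv (Sum.inl (b : Fin p)) (map (algebraMap k K) (f (i a))))) := by
      refine Matrix.ext fun a b => ?_
      rw [Matrix.of_apply, Matrix.of_apply, ← evK_map_algebraMap, pderiv_map]
    rw [← h1]
    exact hi
  obtain ⟨y, c, hc, hxy, hy, hytop⟩ := exists_model (K := K) hx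
  obtain ⟨M, hM⟩ : ∃ M : IntermediateField K L, M = pointField K x := ⟨_, rfl⟩
  revert y
  rw [← hM]
  intro y hxy hy hytop
  have hxy' : ∀ i, x i = c * algebraMap M L (y i) := hxy
  have hL : IsFF κ L := hK.of_finite
  have hκM : IsScalarTower κ M L := IsScalarTower.of_algebraMap_eq fun c => by
    rw [IsScalarTower.algebraMap_apply κ K L, IsScalarTower.algebraMap_apply κ K M,
      ← IsScalarTower.algebraMap_apply K M L]
  have hMr : finrank K M * finrank M L = finrank K L := finrank_mul_finrank K M L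
  have hMpos : 0 < finrank M L := finrank_pos
  have hMK : finrank K M ≤ g := by
    refine le_trans ?_ hr
    rw [← hMr]
    exact Nat.le_mul_of_pos_right _ hMpos
  have hML : finrank M L ≤ g := by
    refine le_trans ?_ hr
    rw [← hMr]
    exact Nat.le_mul_of_pos_left _ finrank_pos
  have hx' : x = fun i => c * algebraMap M L (y i) := funext hxy'
  have hfy : ∀ i, evK H y (map (algebraMap k K) (f i)) = 0 := by
    intro i
    have h1 := hfx' i
    rw [hx', evK_smul hH (hf' i), evK_ext, mul_eq_zero] at h1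
    rcases h1 with h1 | h1
    · exact absurd h1 (pow_ne_zero _ hc)
    · exact (map_eq_zero _).1 h1
  have hyx : (fun i => c⁻¹ * x i) = fun i => algebraMap M L (y i) := by
    funext i
    rw [hxy' i, ← mul_assoc, inv_mul_cancel₀ hc, one_mul]
  have hrky : ∃ i : A → ι, (Matrix.of fun a b : A =>
        evK H y (pderiv (Sum.inl (b : Fin p)) (map (algebraMap k K) (f (i a))))).det ≠ 0 := by
    obtain ⟨i, hi⟩ := rk_smul hH hf' (inv_ne_zero hc) hrk'
    refine ⟨i, fun h0 => hi ?_⟩
    have h1 : (Matrix.of fun a b : A =>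
        evK H (fun i => c⁻¹ * x i) (pderiv (Sum.inl (b : Fin p))
          (map (algebraMap k K) (f (i a))))) =
        (algebraMap M L).mapMatrix (Matrix.of fun a b : A =>
          evK H y (pderiv (Sum.inl (b : Fin p)) (map (algebraMap k K) (f (i a))))) := by
      refine Matrix.ext fun a b => ?_
      rw [RingHom.mapMatrix_apply, Matrix.map_apply, Matrix.of_apply, Matrix.of_apply, hyx]
      exact evK_ext H y _
    rw [h1, ← RingHom.map_det, h0, map_zero]
  have hney : ∀ j ∉ A, aeval y (H j) ≠ 0 := by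
    intro j hj h0
    apply hne j hj
    rw [aeval_model (M := M) (hH j) hxy', h0, map_zero, mul_zero]
  have hht : height κ x = finrank M L * height κ y := by
    rw [hx', hL.height_smul hc, hL.height_ext hy]
  rcases hC M y hy hMK hytop hfy hrky hney with h1 | h1
  · left
    intro _
    have h2 := trunc_model (κ := κ) (M := M) hK (offA_hom A hH) S hc hxy' hy
    have h3 := ramDeg_trans_eq (κ := κ) (K := K) (L := M) (M := L) hK
    have h2R : (finrank M L : ℝ) * truncCount κ (offA A H) d S y ≤
        truncCount κ (offA A H) d S x + ramDeg κ L M := by exact_mod_cast h2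
    have h3R : (ramDeg κ L K : ℝ) = ramDeg κ L M + finrank M L * ramDeg κ M K := by
      exact_mod_cast h3
    have hMpos' : (0 : ℝ) ≤ finrank M L := Nat.cast_nonneg _
    have h4 := mul_le_mul_of_nonneg_left h1 hMpos'
    have h5 : (finrank M L : ℝ) * C ≤ g * C := by
      have : (finrank M L : ℝ) ≤ g := by exact_mod_cast hML
      exact mul_le_mul_of_nonneg_right this (Nat.cast_nonneg _)
    rw [hht]
    push_cast at h4 h5 ⊢
    nlinarith
  · right
    intro i
    obtain ⟨e', he'⟩ := hG i
    rw [aeval_model (M := M) he' hxy', h1 i, map_zero, mul_zero]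

end Pool.Agent.Lib.MP_44a246_ntTV
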