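import Mathlib
import Pool.Agent.Lib.MP_44a246_ntTV.TV00
import Pool.Agent.Lib.MP_44a246_ntTV.TV42
import Pool.Agent.Lib.MP_44a246_ntTV.TV43

/-!
# T5V: the inequality for the points of bounded degree, from the curves of bounded height
-/

namespace Pool.Agent.Lib.MP_44a246_ntTV

open Pool.Agent.Lib.MP_e52354_nt
open Pool.Agent.Lib.MP_44a246_nt
open Pool.Agent.Lib.MP_44a246_ntL
open Pool.Agent.Lib.MP_44a246_ntS
open Pool.Agent.Lib.MP_44a246_ntSH
open Pool.Agent.Lib.MP_44a246_ntSP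
open Pool.Agent.Lib.MP_44a246_ntUV
open Pool.Agent.Lib.MP_44a246_ntMY
open WithZero MvPolynomial Module

universe u v w x

/-- **The inequality for the points of degree at most `g`** of the locus which generate the field,
from the curves of bounded height. -/
theorem htTop_of_level {κ : Type u} {K : Type v} {k : Type x} [Field κ] [IsAlgClosed κ]
    [CharZero κ] [Field K] [CharZero K] [Algebra κ K] (hK : IsFF κ K) (hMY : MYP.{u, v} κ)
    {n r p m g : ℕ} (hr : r ≤ n) {d : Fin p → ℕ} (hd1 : ∀ j, 1 ≤ d j) [Field k] [CharZero k]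
    [Algebra k K] [Countable k] {ι : Type} {e : ι → ℕ}
    {f : ι → MvPolynomial (Fin p ⊕ Fin (n + 1)) k}
    (hf : ∀ i, (f i).IsWeightedHomogeneous (Sum.elim d fun _ => 1) (e i)) {A : Finset (Fin p)}
    (hfA : ∀ i, ∀ j ∉ A, Sum.inl j ∉ (f i).vars) {η : Fin (r + 1) → Fin (n + 1) → ℤ}
    (hη : ProjV hr ((Ideal.span (Set.range f)).comap
      (rename (Sum.inr : Fin (n + 1) → Fin p ⊕ Fin (n + 1)))) η)
    {H : Fin p → MvPolynomial (Fin (n + 1)) K} (hH : ∀ j, (H j).IsHomogeneous (d j))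
    (ha : AlgebraicIndependent k
      (fun I : {I : Fin p × (Fin (n + 1) →₀ ℕ) // I.2.degree = d I.1} => (H I.1.1).coeff I.1.2))
    {S : Set (Place κ K)} (hS : S.Finite) {θ ε : ℝ} (hε : 0 < ε)
    (hθ1 : θ + ε ≤ ((∑ j, d j : ℕ) : ℝ) - r - 1)
    (hθ2 : θ < (A.card : ℝ) + (∑ j, d j : ℕ) + (max m 1 : ℕ) - (2 * r + 1))
    (hlev : LevelV.{u, v, w, x} κ f d A η H (2 * g) g ε) :
    HtTop.{u, v, w, x} κ f d A H S m g θ := by
  classical
  obtain ⟨B, C₁, hlev⟩ := hlev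
  obtain ⟨C', hC'⟩ := exists_places.{u, v, w} hK d (fun j I => (offA A H j).coeff I) hS
  obtain ⟨ε', hε'⟩ : ∃ ε' : ℝ, ε' = (A.card : ℝ) + (∑ j, d j : ℕ) + (max m 1 : ℕ) -
      (2 * r + 1) - θ := ⟨_, rfl⟩
  obtain ⟨C₂, s, G, hG1, hG2, hG3⟩ := exc_LV.{u, v, w} hK hMY (m₀ := m) (b := B) (g := g) hr hd1
    hf hfA hη hH ha (ε := ε') (θ := θ) (by linarith) (by linarith) C₁
  obtain ⟨C, hC⟩ : ∃ C : ℕ, C = C' * g + (∑ j, d j) * C₁ + C₂ := ⟨_, rfl⟩
  refine ⟨s, G, hG1, hG2, C, ?_⟩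
  intro L _ _ _ _ _ x hx hg htop hfx hrk hne
  have hL : IsFF κ L := hK.of_finite
  have hh0' : 0 ≤ height κ x := hL.height_nonneg hx
  have hh0 : (0 : ℝ) ≤ height κ x := by exact_mod_cast hh0'
  obtain ⟨T, hT1, hT2⟩ := hC' L x hx
  have hT3 : ∀ w ∉ T, ∀ j ∉ A, aeval x (H j) ≠ 0 → w.1 (aeval x (H j)) = vmax w.1 x ^ d j := by
    intro w hw j hjA hj
    have h1 := hT2 w hw j
    rw [← aeval_eq_Fval (offA A H j) (offA_hom A hH j) x, offA_notMem H hjA] at h1
    exact h1 hj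
  have hTc : (T.card : ℝ) ≤ C' * g + truncCount κ (offA A H) d S x := by
    rw [truncCount_eq_meetSet d (offA A H) (offA_hom A hH) S x]
    have h1 : C' * finrank K L ≤ C' * g := Nat.mul_le_mul_left _ hg
    have h2 : T.card ≤ C' * g +
        (meetSet (κ := κ) d (fun i I => (offA A H i).coeff I) S x).ncard := by
      omega
    exact_mod_cast h2
  have hCR : (C : ℝ) = C' * g + (∑ j, d j : ℕ) * C₁ + C₂ := by
    rw [hC]
    push_cast
    ring
  have hC₂0 : (0 : ℝ) ≤ C₂ := Nat.cast_nonneg _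
  have hC'0 : (0 : ℝ) ≤ (C' : ℝ) * g := by positivity
  have hdC0 : (0 : ℝ) ≤ ((∑ j, d j : ℕ) : ℝ) * C₁ := by positivity
  have hR0 : (0 : ℝ) ≤ ramDeg κ L K := Nat.cast_nonneg _
  have hN0 : (0 : ℝ) ≤ truncCount κ (offA A H) d S x := Nat.cast_nonneg _
  have hr0 : (0 : ℝ) ≤ r := Nat.cast_nonneg _
  by_cases hcase : θ * height κ x ≤ (C : ℝ) + ramDeg κ L K + truncCount κ (offA A H) d S x
  · exact Or.inl hcase
  push Not at hcase
  have hram : (ramDeg κ L K : ℤ) ≤ (2 * g : ℕ) * height κ x := by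
    refine (hK.ram_point x hx htop).trans ?_
    refine mul_le_mul_of_nonneg_right ?_ hh0'
    push_cast
    have : (finrank K L : ℤ) ≤ g := by exact_mod_cast hg
    linarith
  let _ : Algebra k L := ((algebraMap K L).comp (algebraMap k K)).toAlgebra
  have : IsScalarTower k K L := IsScalarTower.of_algebraMap_eq fun _ => rfl
  have hθh : (θ + ε) * height κ x ≤ (((∑ j, d j : ℕ) : ℝ) - r - 1) * height κ x :=
    mul_le_mul_of_nonneg_right hθ1 hh0
  have h1 := hlev L hg x hx (fun i => by rw [← evK_map_algebraMap]; exact hfx i) (by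
    obtain ⟨i, hi⟩ := hrk
    refine ⟨i, ?_⟩
    have h1 : (Matrix.of fun a b : A =>
        aeval (Sum.elim (fun j => aeval x (H j)) x : Fin p ⊕ Fin (n + 1) → L)
          (pderiv (Sum.inl (b : Fin p)) (f (i a)))) =
        (Matrix.of fun a b : A =>
          evK H x (pderiv (Sum.inl (b : Fin p)) (map (algebraMap k K) (f (i a))))) := by
      refine Matrix.ext fun a b => ?_
      rw [Matrix.of_apply, Matrix.of_apply, ← evK_map_algebraMap, pderiv_map]
    rw [h1]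
    exact hi) T hT3 hram (by linarith)
  rcases h1 with h1 | h1
  · left
    have h2 : (height κ x : ℝ) ≤ C₁ := by exact_mod_cast h1
    have h3 : θ * height κ x ≤ ((∑ j, d j : ℕ) : ℝ) * height κ x :=
      mul_le_mul_of_nonneg_right (by linarith) hh0
    have h4 : ((∑ j, d j : ℕ) : ℝ) * height κ x ≤ ((∑ j, d j : ℕ) : ℝ) * C₁ :=
      mul_le_mul_of_nonneg_left h2 (Nat.cast_nonneg _)
    linarith
  · rcases hG3 L x T hg hfx hrk hne (fun w hw j hj => hT3 w hw j hj (hne j hj)) h1 with h2 | h2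
    · left
      linarith
    · exact Or.inr h2

end Pool.Agent.Lib.MP_44a246_ntTV
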