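import Mathlib
import Pool.Agent.Lib.MP_44a246_ntTK.OverK
import Pool.Agent.Lib.MP_44a246_ntUV.UV06c

/-!
# Arbitrary varieties, points of bounded degree: the data over `K`

The data at the points of the locus (`exists_datV`), with the derivations of `K` of which the
derivations of the data are extensions.
-/

namespace Pool.Agent.Lib.MP_44a246_ntTV

open Pool.Agent.Lib.MP_44a246_nt
open Pool.Agent.Lib.MP_44a246_ntL
open Pool.Agent.Lib.MP_44a246_ntS hiding lin
open Pool.Agent.Lib.MP_44a246_ntX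
open Pool.Agent.Lib.MP_44a246_ntG
open Pool.Agent.Lib.MP_44a246_ntK hiding prj
open Pool.Agent.Lib.MP_44a246_ntF
open Pool.Agent.Lib.MP_44a246_ntO
open Pool.Agent.Lib.MP_44a246_ntR (genus)
open Pool.Agent.Lib.MP_44a246_ntSH
open Pool.Agent.Lib.MP_44a246_ntTK
open Pool.Agent.Lib.MP_44a246_ntUV
open Pool.Agent.Lib.MP_e52354_nt
open WithZero Module

universe u v w

/-- **The data `DatSC` at a point**, with the derivations dual to some of the coefficients and the
derivations of `K` which they extend. -/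
theorem datSC_of_base_K {κ : Type u} {K : Type v} [Field κ] [IsAlgClosed κ] [CharZero κ] [Field K]
    [CharZero K] [Algebra κ K] (hK : IsFF κ K) {n r p : ℕ} {d : Fin p → ℕ}
    (X : BaseS κ K (jexpo n d))
    (hXκ : ∀ b (u : κ), ∃ u' : κ, X.E b (algebraMap κ K u) = algebraMap κ K u')
    {emb : Fin (r + 1) → Fin (n + 1)} (hemb : Function.Injective emb)
    {L : Type w} [Field L] [Algebra K L] [FiniteDimensional K L]
    [Algebra κ L] [IsScalarTower κ K L]
    {D' : Fin p × (Fin (n + 1) →₀ ℕ) → Derivation ℤ L L}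
    (hD' : ∀ I y, D' I (algebraMap K L y) = algebraMap K L (X.D I y))
    {y : Fin (r + 1) → L} (hy : y ≠ 0) :
    ∃ (Y : DatSC κ (L := L) r d) (O : OverK κ K Y) (s : L), s ≠ 0 ∧ Y.x = (fun i => s⁻¹ * y i) ∧
      (∀ s', Y.D s' = D' (s'.1, s'.2.mapDomain emb)) ∧
      Y.a = (fun j I => algebraMap K L (X.a (j, I.mapDomain emb))) ∧
      O.Δ = ((∑ᶠ v, X.B v : ℕ) : ℤ) ∧ (∀ w : Place κ L, Y.δ w = ramIdx K w.1 * O.δ (below K w)) ∧
      Y.toDatC.Δ = ((∑ᶠ v, X.B v : ℕ) : ℤ) * finrank K L ∧ Y.toDatC.R = ramDeg κ L K := by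
  classical
  have hL : IsFF κ L := hK.of_finite
  have hchar : CharZero L := charZero_of_injective_algebraMap (algebraMap K L).injective
  have := X.hinf
  obtain ⟨ξ₀, ξ₁, h0, h1⟩ := exists_forms hL hy
  choose E' hE' using fun b => exists_extension (L := L) (X.E b)
  set s : L := ∑ j, (ξ₀ j : L) * y j with hs
  have hfin0 : (⋃ j : Fin (r + 1), {b | E' b (s⁻¹ * y j) ≠ 0}).Finite :=
    Set.finite_iUnion fun j => finite_movingS X E' hE' (s⁻¹ * y j)
  have hfin := hfin0.union (finite_poleS X hK hE')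
  let g : ℕ ↪ ↥((⋃ j : Fin (r + 1), {b | E' b (s⁻¹ * y j) ≠ 0}) ∪
    {b | ¬ PoleBound κ (E' b) (fun w : Place κ L => ramIdx K w.1 * X.B (below K w))})ᶜ :=
    hfin.infinite_compl.natEmbedding
  have hker : ∀ (m : ℕ) (j : Fin (r + 1)), E' (g m).1 (s⁻¹ * y j) = 0 := by
    intro m j
    have h2 := (g m).2
    rw [Set.mem_compl_iff, Set.mem_union, not_or, Set.mem_iUnion, not_exists] at h2
    have h3 := h2.1 j
    exact not_not.mp h3
  have hpole : ∀ m : ℕ, PoleBound κ (E' (g m).1)
      (fun w : Place κ L => ramIdx K w.1 * X.B (below K w)) := by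
    intro m
    have h2 := (g m).2
    rw [Set.mem_compl_iff, Set.mem_union, not_or] at h2
    exact not_not.mp h2.2
  have hext : ∀ i j : ℕ, (g i).1 = (g j).1 → i = j := fun i j h2 => g.injective (Subtype.ext h2)
  have hEE : ∀ i j : ℕ, E' (g i).1 (algebraMap κ L (X.z (g j).1)) = if i = j then 1 else 0 := by
    intro i j
    rw [IsScalarTower.algebraMap_apply κ K L, hE']
    by_cases hij : i = j
    · rw [if_pos hij, hij, (X.hEz _ _).1 rfl, map_one]
    · rw [if_neg hij, (X.hEz _ _).2 (fun h2 => hij (hext _ _ h2)), map_zero]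
  have hsum : ∀ ξ : Fin (r + 1) → ℕ, ∑ j, (ξ j : L) * (s⁻¹ * y j) =
      s⁻¹ * ∑ j, (ξ j : L) * y j := by
    intro ξ
    rw [Finset.mul_sum]
    exact Finset.sum_congr rfl fun j _ => by ring
  obtain ⟨hB1, hB2⟩ := mason_sum_over (L := L) hL X.hB
  have hfs1 : (Function.support fun w : Place κ L => ramIdx K w.1 * X.B (below K w)).Finite := by
    refine hB1.subset ?_
    intro w hw
    rw [Function.mem_support] at hw ⊢
    exact_mod_cast hw
  have hfs2 : (Function.support fun w : Place κ L => ramIdx K w.1 - 1).Finite := by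
    refine (mason_sum_ram (K := K) hL).1.subset ?_
    intro w hw
    rw [Function.mem_support] at hw ⊢
    exact_mod_cast hw
  have hmax' : ∀ w : Place κ L, vmax w.1 (fun j => s⁻¹ * y j) ≤
      max 1 (w.1 (∑ j, (ξ₁ j : L) * (s⁻¹ * y j))) := by
    intro w
    rw [hsum]
    have h2 : w.1 s ≠ 0 := (Valuation.ne_zero_iff _).mpr h0
    have h3 : vmax w.1 (fun j => s⁻¹ * y j) ≤ w.1 s⁻¹ * vmax w.1 y := by
      refine vmax_le w.1 fun j => ?_
      rw [map_mul]
      exact mul_le_mul' le_rfl (le_vmax w.1 y j)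
    refine h3.trans ?_
    rw [map_mul, map_inv₀]
    calc (w.1 s)⁻¹ * vmax w.1 y ≤
          (w.1 s)⁻¹ * max (w.1 s) (w.1 (∑ j, (ξ₁ j : L) * y j)) :=
          mul_le_mul' le_rfl (h1 w)
      _ = max 1 ((w.1 s)⁻¹ * w.1 (∑ j, (ξ₁ j : L) * y j)) := by
          rw [mul_max, inv_mul_cancel₀ h2]
  have hmd : ∀ {m : ℕ} (I : Fin (r + 1) →₀ ℕ), I ∈ expo (Fin (r + 1)) m →
      I.mapDomain emb ∈ expo (Fin (n + 1)) m := by
    intro m I hI
    rw [mem_expo] at hI ⊢
    rw [Finsupp.degree_mapDomain, hI]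
  let Y : DatSC κ (L := L) r d :=
    { a := fun j I => algebraMap K L (X.a (j, I.mapDomain emb))
      D := fun s => D' (s.1, s.2.mapDomain emb)
      δ := fun w => ramIdx K w.1 * X.B (below K w)
      ρ := fun w => ramIdx K w.1 - 1
      x := fun j => s⁻¹ * y j
      z := fun j => X.z (g j).1
      E := fun j => E' (g j).1
      ξ₀ := ξ₀
      ξ₁ := ξ₁
      hDa := by
        intro s1 hs1 s2 hs2
        have h4 := X.hDa (s1.1, s1.2.mapDomain emb) (mem_jexpo.2 (hmd _ hs1))
          (s2.1, s2.2.mapDomain emb) (mem_jexpo.2 (hmd _ hs2))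
        rw [hD', h4]
        by_cases h5 : s1 = s2
        · subst h5
          rw [if_pos rfl, if_pos rfl, map_one]
        · have h6 : ¬ ((s1.1, s1.2.mapDomain emb) = (s2.1, s2.2.mapDomain emb)) := by
            intro h6
            rw [Prod.mk.injEq] at h6
            exact h5 (Prod.ext h6.1 (Finsupp.mapDomain_injective hemb h6.2))
          rw [if_neg h5, if_neg h6, map_zero]
      hδ := hfs1
      hρ := hfs2
      hD := by
        intro w m I c hI hc
        exact minor_over hK (fun I hI => X.hD I (mem_jexpo.2 hI)) hD' w m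
          (fun i => ((I i).1, (I i).2.mapDomain emb)) c (fun i => hmd _ (hI i)) hc
      hE := fun j => hpole j
      hEz := by
        intro i j
        rw [hEE]
        exact if_congr ⟨fun h => Fin.ext h, fun h => congrArg Fin.val h⟩ rfl rfl
      hEx := fun i j => hker i j
      h0 := by rw [hsum, ← hs, inv_mul_cancel₀ h0]
      hmax := hmax'
      z' := fun j => X.z (g (r + 1 + j)).1
      E' := fun j => E' (g (r + 1 + j)).1
      hE' := fun j => hpole _
      hEz' := by
        intro i j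
        rw [hEE]
        refine if_congr ⟨fun h => Fin.ext (by omega), fun h => by rw [h]⟩ rfl rfl
      hE'z := by
        intro i j
        rw [hEE, if_neg]
        omega
      hEz0 := by
        intro i j
        rw [hEE, if_neg]
        omega
      hE'x := fun i j => hker _ j
      hEκ := by
        intro j u
        obtain ⟨u', hu'⟩ := hXκ (g j).1 u
        exact ⟨u', by rw [IsScalarTower.algebraMap_apply κ K L, hE', hu',
          ← IsScalarTower.algebraMap_apply κ K L]⟩ }
  let O : OverK κ K Y :=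
    { D := fun s' => X.D (s'.1, s'.2.mapDomain emb)
      E := fun j => X.E (g j).1
      δ := X.B
      hδ := X.hB
      hD := fun s' y => hD' _ y
      hE := fun j y => hE' _ y
      hDδ := fun s' hs' => X.hD _ (mem_jexpo.2 (hmd _ hs')) }
  have hOΔ : O.Δ = ((∑ᶠ v, X.B v : ℕ) : ℤ) := by
    unfold OverK.Δ
    exact ((Nat.castAddMonoidHom ℤ).map_finsum X.hB).symm
  refine ⟨Y, O, s, h0, rfl, fun _ => rfl, rfl, hOΔ, fun _ => rfl, ?_, ?_⟩
  · unfold DatC.Δ
    rw [← hB2]
  · unfold DatC.R
    exact (mason_sum_ram (K := K) hL).2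

/-- **The data over the base field**, at the points of the locus `f_i (H (x), x) = 0` of rank
`|A|`, with the projection `η`, and the derivations of `K` which the derivations of the data
extend. The coefficients of the data are the coefficients of the forms in the new coordinates. -/
theorem exists_datV_K {κ : Type u} {K : Type v} [Field κ] [IsAlgClosed κ] [CharZero κ] [Field K]
    [CharZero K] [Algebra κ K] (hK : IsFF κ K) (htr : Cardinal.aleph0 ≤ Algebra.trdeg ℚ κ)
    {k : Type*} [Field k] [CharZero k] [Algebra k K]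
    (hk : Algebra.trdeg ℚ k < Cardinal.aleph0)
    {n r p : ℕ} (hr : r ≤ n) {d : Fin p → ℕ} {ι : Type*} {e : ι → ℕ}
    {f : ι → MvPolynomial (Fin p ⊕ Fin (n + 1)) k}
    (hf : ∀ i, (f i).IsWeightedHomogeneous (Sum.elim d fun _ => 1) (e i)) {A : Finset (Fin p)}
    (hfA : ∀ i, ∀ j ∉ A, Sum.inl j ∉ (f i).vars) {η : Fin (r + 1) → Fin (n + 1) → ℤ}
    (hη : ProjV hr ((Ideal.span (Set.range f)).comap
      (MvPolynomial.rename (Sum.inr : Fin (n + 1) → Fin p ⊕ Fin (n + 1)))) η)
    {H : Fin p → MvPolynomial (Fin (n + 1)) K} (hH : ∀ j, (H j).IsHomogeneous (d j))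
    (ha : AlgebraicIndependent k
      (fun I : {I : Fin p × (Fin (n + 1) →₀ ℕ) // I.2.degree = d I.1} =>
        (H I.1.1).coeff I.1.2)) :
    ∃ (a₀ : Fin p → (Fin (r + 1) →₀ ℕ) → K) (C : ℕ), ∀ (L : Type w) [Field L] [Algebra K L] [FiniteDimensional K L]
      [Algebra κ L] [IsScalarTower κ K L] [Algebra k L] [IsScalarTower k K L]
      (x : Fin (n + 1) → L), x ≠ 0 →
      (∀ i, MvPolynomial.aeval (Sum.elim (fun j => MvPolynomial.aeval x (H j)) x :
        Fin p ⊕ Fin (n + 1) → L) (f i) = 0) →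
      (∃ i : A → ι, (Matrix.of fun a b : A =>
        MvPolynomial.aeval (Sum.elim (fun j => MvPolynomial.aeval x (H j)) x :
          Fin p ⊕ Fin (n + 1) → L)
          (MvPolynomial.pderiv (Sum.inl (b : Fin p)) (f (i a)))).det ≠ 0) →
      prj η x ≠ 0 ∧ height κ (prj η x) ≤ height κ x ∧
      height κ x ≤ height κ (prj η x) + C * finrank K L ∧
      (∃ T : Finset (Place κ L), (T.card : ℤ) ≤ C * finrank K L ∧
        ∀ w ∉ T, vmax w.1 (prj η x) = vmax w.1 x ∧
          ∀ j, w.1 (MvPolynomial.aeval x (H j)) ≤ vmax w.1 x ^ d j) ∧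
      ∃ (X : DatSC κ (L := L) r d) (O : OverK κ K X) (vl : Fin p → L)
        (g : Fin p → Fin (r + 1) → L) (c : L),
        X.a = (fun j I => algebraMap K L (a₀ j I)) ∧ O.Δ ≤ C ∧
        (∀ w : Place κ L, X.δ w = ramIdx K w.1 * O.δ (below K w)) ∧
        X.toDatC.Δ = finrank K L * O.Δ ∧
        c ≠ 0 ∧ X.x = (fun i => c * prj η x i) ∧ ColC X.toDatC vl g ∧
        (∀ j, vl j = if j ∈ A then 0 else c ^ d j * MvPolynomial.aeval x (H j)) ∧
        height κ X.x = height κ (prj η x) ∧
        X.toDatC.Δ ≤ C * finrank K L ∧ X.toDatC.R = ramDeg κ L K ∧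
        (genus κ L : ℤ) ≤ C * (finrank K L + ramDeg κ L K) := by
  classical
  have hle : r + 1 ≤ n + 1 := by omega
  have hembi : Function.Injective (Fin.castLE hle) := Fin.castLE_injective hle
  obtain ⟨A', B', hAB, hBA, hB⟩ := exists_matrices hr hη.1
  have hprj : ∀ {L : Type w} [Field L] (x : Fin (n + 1) → L) (i : Fin (r + 1)),
      MP_44a246_ntUV.lin B' x (Fin.castLE hle i) = prj η x i := by
    intro L _ x i
    unfold MP_44a246_ntUV.lin prj
    exact Finset.sum_congr rfl fun l _ => by rw [hB]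
  -- the coefficients in the new coordinates
  have hb := algebraicIndependent_sub hAB hH ha
  obtain ⟨X, hXa, hXk, hXκ⟩ := exists_baseS' (k := k) hK htr hk (S := jexpo n d)
    (a := fun s => (sub A' (H s.1)).coeff s.2) (by
      have h1 := hb.comp (fun s : ↥(jexpo n d) =>
        (⟨s.1, mem_expo.1 (mem_jexpo.1 s.2)⟩ :
          {I : Fin p × (Fin (n + 1) →₀ ℕ) // I.2.degree = d I.1})) (by
          intro s s' h2
          have h3 := congrArg Subtype.val h2
          exact Subtype.ext h3)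
      exact h1)
  choose e' P hP hPI using hη.2
  obtain ⟨Ap, hAs, hA⟩ := Pool.Agent.Lib.MP_44a246_ntV.exists_polesA hK
    (Sum.elim (fun s : {s : Fin p × (Fin (n + 1) →₀ ℕ) // s ∈ jexpo n d} => (H s.1.1).coeff s.1.2)
      (fun t : (Σ l : Fin (n + 1), {I // I ∈ (P l).support}) =>
        algebraMap k K ((P t.1).coeff t.2.1)))
  obtain ⟨Cg, hCg⟩ := exists_genus_le.{u, v, w} (κ := κ) (K := K) hK
  have := X.hinf
  refine ⟨fun j I => X.a (j, I.mapDomain (Fin.castLE hle)),
    (∑ᶠ v, X.B v) + (∑ᶠ v, Ap v) + Cg, ?_⟩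
  intro L _ _ _ _ _ _ _ x hx hxf hrk
  have hL : IsFF κ L := hK.of_finite
  have hchar : CharZero L := charZero_of_injective_algebraMap (algebraMap K L).injective
  -- the equations of the coordinates
  have hOn : ∀ l, MvPolynomial.aeval (fun o : Option (Fin (r + 1)) => o.elim (x l) (prj η x))
      (P l) = 0 := by
    intro l
    have h2 := aeval_comap_eq_zero hxf (hPI l)
    have h3 : MvPolynomial.aeval x (MvPolynomial.aeval (fun o : Option (Fin (r + 1)) =>
        (o.elim (MvPolynomial.X l) fun i => ∑ l', MvPolynomial.C (η i l' : k) *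
          MvPolynomial.X l' : MvPolynomial (Fin (n + 1)) k)) (P l)) =
        MvPolynomial.aeval (fun o : Option (Fin (r + 1)) => o.elim (x l) (prj η x)) (P l) := by
      rw [MvPolynomial.comp_aeval_apply]
      congr 2
      funext o
      rcases o with _ | i
      · simp
      · simp [prj, map_sum, map_mul]
    rw [← h3]
    exact h2
  have hx' : prj η x ≠ 0 := by
    intro h0
    apply hx
    funext l
    exact (hP l).eq_zero (hOn l) fun i => congrFun h0 i
  obtain ⟨hA1, hA2⟩ := mason_sum_over (L := L) hL hAs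
  obtain ⟨hB1, hB2⟩ := mason_sum_over (L := L) hL X.hB
  have hval : ∀ (w : Place κ L) l, w.1 (x l) ≤
      exp ((ramIdx K w.1 * Ap (below K w) : ℕ) : ℤ) * vmax w.1 (prj η x) := by
    intro w l
    refine (hP l).val_le (hOn l) w.1 fun I => ?_
    by_cases hI : I ∈ (P l).support
    · have h2 := coef_le (L := L) Ap (fun v => hA (Sum.inr ⟨l, ⟨I, hI⟩⟩) v) w
      rwa [Sum.elim_inr, ← IsScalarTower.algebraMap_apply k K L] at h2
    · rw [MvPolynomial.notMem_support_iff.1 hI, map_zero, map_zero]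
      exact zero_le
  have hfr : (0 : ℤ) ≤ Module.finrank K L := Int.natCast_nonneg _
  have hB0 : (0 : ℤ) ≤ ((∑ᶠ v, X.B v : ℕ) : ℤ) := Int.natCast_nonneg _
  have hA0 : (0 : ℤ) ≤ ((∑ᶠ v, Ap v : ℕ) : ℤ) := Int.natCast_nonneg _
  have hC0 : (0 : ℤ) ≤ (Cg : ℤ) := Int.natCast_nonneg _
  refine ⟨hx', ?_, ?_, ?_, ?_⟩
  · unfold height
    refine finsum_mono (hL.vmax_support hx') (hL.vmax_support hx) fun w => ?_
    exact (log_le_log (vmax_ne_zero w.1 hx') (vmax_ne_zero w.1 hx)).2 (vmax_prj_le η x w)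
  · have h1 := height_le_add hL hx hx' hA1 fun w => vmax_le w.1 fun l => hval w l
    rw [hA2] at h1
    refine h1.trans ?_
    push_cast
    nlinarith [mul_nonneg hA0 hfr, mul_nonneg hC0 hfr, mul_nonneg hB0 hfr]
  · have hTf : (Function.support fun w : Place κ L =>
        ((ramIdx K w.1 * Ap (below K w) : ℕ) : ℤ)).Finite := hA1
    refine ⟨hTf.toFinset, ?_, ?_⟩
    · have h1 : (hTf.toFinset.card : ℤ) ≤ ∑ w ∈ hTf.toFinset,
          ((ramIdx K w.1 * Ap (below K w) : ℕ) : ℤ) := by
        have h2 : (hTf.toFinset.card : ℤ) = ∑ _w ∈ hTf.toFinset, (1 : ℤ) := by simp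
        rw [h2]
        refine Finset.sum_le_sum fun w hw => ?_
        rw [Set.Finite.mem_toFinset, Function.mem_support] at hw
        have h3 : 0 < ramIdx K w.1 * Ap (below K w) := by
          rcases Nat.eq_zero_or_pos (ramIdx K w.1 * Ap (below K w)) with h4 | h4
          · exfalso
            apply hw
            rw [h4, Nat.cast_zero]
          · exact h4
        exact_mod_cast h3
      rw [← finsum_eq_sum_of_support_subset _ (by
        intro w hw
        rw [Set.Finite.coe_toFinset]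
        exact hw), hA2] at h1
      refine h1.trans ?_
      push_cast
      nlinarith [mul_nonneg hA0 hfr, mul_nonneg hC0 hfr, mul_nonneg hB0 hfr]
    · intro w hw
      rw [Set.Finite.mem_toFinset, Function.mem_support, not_not] at hw
      constructor
      · refine le_antisymm (vmax_prj_le η x w) (vmax_le w.1 fun l => ?_)
        have h1 := hval w l
        rwa [hw, exp_zero, one_mul] at h1
      · intro j
        have h1 : MvPolynomial.aeval x (H j) =
            Fval (d j) (fun I => algebraMap K L ((H j).coeff I)) x :=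
          Pool.Agent.Lib.MP_44a246_ntU.aeval_eq_Fval (hH j) x
        rw [h1]
        unfold Fval
        refine w.1.map_sum_le fun I hI => ?_
        rw [map_mul]
        have h2 := coef_le (L := L) Ap (fun v => hA (Sum.inl ⟨(j, I), mem_jexpo.2 hI⟩) v) w
        rw [hw, exp_zero, Sum.elim_inl] at h2
        have h3 : w.1 (mon x I) ≤ vmax w.1 x ^ d j := by
          unfold mon
          rw [map_prod]
          have h4 : ∑ j, I j = d j := by
            rw [← Finsupp.degree_eq_sum]
            exact mem_expo.1 hI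
          rw [← h4, ← Finset.prod_pow_eq_pow_sum]
          refine Finset.prod_le_prod' fun i _ => ?_
          rw [map_pow]
          exact pow_le_pow_left' (le_vmax w.1 x i) _
        calc w.1 (algebraMap K L ((H j).coeff I)) * w.1 (mon x I) ≤ 1 * vmax w.1 x ^ d j :=
              mul_le_mul' h2 h3
          _ = vmax w.1 x ^ d j := one_mul _
  -- the columns of the unscaled point
  have hHL : ∀ j, (MvPolynomial.map (algebraMap K L) (H j)).IsHomogeneous (d j) := fun j =>
    (hH j).map _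
  have hHx : ∀ j, MvPolynomial.aeval x (MvPolynomial.map (algebraMap K L) (H j)) =
      MvPolynomial.aeval x (H j) := fun j => MvPolynomial.aeval_map_algebraMap L x (H j)
  obtain ⟨v₀, g₀, hv₀, heu₀, hcol₀⟩ := exists_cols hr hf hfA hη (M := L)
    (H := fun j => MvPolynomial.map (algebraMap K L) (H j)) hHL (x := x)
    (by simpa only [hHx] using hxf) (by simpa only [hHx] using hrk)
  choose D' hD' using fun I => exists_extension (L := L) (X.D I)
  obtain ⟨Y, O, s, h0, hYx, hYD, hYa, hOΔ, hYδ, h2, h3⟩ :=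
    datSC_of_base_K hK X hXκ hembi hD' hx'
  have hc : s⁻¹ ≠ 0 := inv_ne_zero h0
  have hDk : ∀ I ∈ jexpo n d, ∀ c : k, D' I (algebraMap k L c) = 0 := by
    intro I hI c
    rw [IsScalarTower.algebraMap_apply k K L, hD', hXk I hI, map_zero]
  have hDA : ∀ s ∈ jexpo n d, ∀ s' ∈ jexpo n d,
      D' s (algebraMap K L ((sub A' (H s'.1)).coeff s'.2)) = if s = s' then 1 else 0 := by
    intro I hI J hJ
    rw [hD']
    have h2 := X.hDa I hI J hJ
    rw [hXa] at h2
    rw [h2]
    split_ifs <;> simp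
  have hmd : ∀ {m : ℕ} (I : Fin (r + 1) →₀ ℕ), I ∈ expo (Fin (r + 1)) m →
      I.mapDomain (Fin.castLE hle) ∈ expo (Fin (n + 1)) m := by
    intro m I hI
    rw [mem_expo] at hI ⊢
    rw [Finsupp.degree_mapDomain, hI]
  -- the point in the new coordinates
  have hxz : x = lin A' (lin B' x) := by rw [lin_lin, hAB, lin_one]
  have hcolD : ∀ s' : Fin p × (Fin (r + 1) →₀ ℕ), s'.2 ∈ expo (Fin (r + 1)) (d s'.1) → ∀ j,
      D' (s'.1, s'.2.mapDomain (Fin.castLE hle)) (v₀ j) =
        (if s'.1 = j then mon (prj η x) s'.2 else 0) +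
          ∑ i, g₀ j i * D' (s'.1, s'.2.mapDomain (Fin.castLE hle)) (prj η x i) := by
    intro s' hs' j
    have hmem : (s'.1, s'.2.mapDomain (Fin.castLE hle)) ∈ jexpo n d := mem_jexpo.2 (hmd _ hs')
    rw [hcol₀ _ (hDk _ hmem)]
    congr 1
    have h5 := sum_D_coeff_sub A' (hHL j) (D' (s'.1, s'.2.mapDomain (Fin.castLE hle))) (lin B' x)
    rw [← hxz] at h5
    rw [h5]
    have h6 : ∀ J, (sub A' (MvPolynomial.map (algebraMap K L) (H j))).coeff J =
        algebraMap K L ((sub A' (H j)).coeff J) := by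
      intro J
      rw [← map_sub_eq, MvPolynomial.coeff_map]
    simp only [h6]
    by_cases hj : s'.1 = j
    · subst hj
      rw [if_pos rfl, Finset.sum_eq_single (s'.2.mapDomain (Fin.castLE hle))]
      · rw [hDA _ hmem (s'.1, s'.2.mapDomain (Fin.castLE hle)) hmem, if_pos rfl, one_mul,
          mon_mapDomain]
        congr 1
        funext i
        exact hprj x i
      · intro J hJ hne
        rw [hDA _ hmem (s'.1, J) (mem_jexpo.2 hJ), if_neg, zero_mul]
        intro h5
        exact hne (congrArg Prod.snd h5).symm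
      · intro h5
        exact absurd (hmd _ hs') h5
    · rw [if_neg hj]
      refine Finset.sum_eq_zero fun J hJ => ?_
      rw [hDA _ hmem (j, J) (mem_jexpo.2 hJ), if_neg, zero_mul]
      intro h5
      exact hj (congrArg Prod.fst h5)
  refine ⟨Y, O, fun j => s⁻¹ ^ d j * v₀ j, fun j i => s⁻¹ ^ d j * s * g₀ j i, s⁻¹, hYa, ?_, hYδ,
    ?_, hc, hYx, ⟨?_, ?_⟩, ?_, by rw [hYx]; exact hL.height_smul hc, ?_, h3, ?_⟩
  · rw [hOΔ]
    push_cast
    linarith
  · rw [h2, hOΔ]
    ring
  · intro j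
    have h5 : ∀ i, s⁻¹ ^ d j * s * g₀ j i * (s⁻¹ * prj η x i) =
        s⁻¹ ^ d j * (g₀ j i * prj η x i) := by
      intro i
      field_simp
    rw [hYx]
    beta_reduce
    rw [Finset.sum_congr rfl fun i _ => h5 i, ← Finset.mul_sum, heu₀]
    ring
  · intro s' hs' j
    have h5 := hcolD s' hs' j
    obtain ⟨D, hD⟩ : ∃ D : Derivation ℤ L L, D = D' (s'.1, s'.2.mapDomain (Fin.castLE hle)) :=
      ⟨_, rfl⟩
    rw [← hD] at h5
    rw [hYx, hYD, ← hD]
    beta_reduce
    have h6 : (if s'.1 = j then mon (fun i => s⁻¹ * prj η x i) s'.2 else 0) =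
        s⁻¹ ^ d j * (if s'.1 = j then mon (prj η x) s'.2 else 0) := by
      split_ifs with hj
      · subst hj
        rw [mon_scale _ _ hs']
      · rw [mul_zero]
    have h7 : ∑ i, s⁻¹ ^ d j * s * g₀ j i * D (s⁻¹ * prj η x i) =
        s⁻¹ ^ d j * ∑ i, g₀ j i * D (prj η x i) + s⁻¹ ^ d j * s * D s⁻¹ * (d j * v₀ j) := by
      rw [← heu₀ j, Finset.mul_sum, Finset.mul_sum, ← Finset.sum_add_distrib]
      refine Finset.sum_congr rfl fun i _ => ?_
      rw [D.leibniz, smul_eq_mul, smul_eq_mul]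
      field_simp
    have h8 : D (s⁻¹ ^ d j) = s⁻¹ ^ d j * s * D s⁻¹ * d j := by
      rw [D.leibniz_pow, nsmul_eq_mul, smul_eq_mul]
      rcases Nat.eq_zero_or_pos (d j) with hd0 | hd0
      · rw [hd0]
        simp
      · have h9 : s⁻¹ ^ d j = s⁻¹ ^ (d j - 1) * s⁻¹ := by
          rw [← pow_succ, Nat.sub_add_cancel hd0]
        rw [h9]
        field_simp
    rw [D.leibniz, smul_eq_mul, smul_eq_mul, h5, h8, h6, h7]
    ring
  · intro j
    beta_reduce
    rw [hv₀, hHx]
    split_ifs with hj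
    · rw [mul_zero]
    · rfl
  · rw [h2]
    push_cast
    nlinarith [mul_nonneg hA0 hfr, mul_nonneg hC0 hfr, mul_nonneg hB0 hfr]
  · have h4 := hCg L
    have h5 : (genus κ L : ℤ) ≤ (Cg : ℤ) * (finrank K L + ramDeg κ L K) := by
      exact_mod_cast h4
    have h6 : (0 : ℤ) ≤ (finrank K L : ℤ) + (ramDeg κ L K : ℤ) := by positivity
    refine h5.trans (mul_le_mul_of_nonneg_right ?_ h6)
    push_cast
    linarith

end Pool.Agent.Lib.MP_44a246_ntTV
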