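import Mathlib
import Pool.Agent.Lib.MP_44a246_ntUV.U301
import Pool.Agent.Lib.MP_44a246_ntVQ.VQ07
import Pool.Agent.Lib.MP_44a246_ntVT.VC5

/-!
# Rows with additional indices, with the ramification

The space of the rows may live over a larger index set; the rows are then projected. As `ntUV/U101`
and `ntUV/U301`, for the rows `RowT`.
-/

namespace Pool.Agent.Lib.MP_44a246_ntTV

open Pool.Agent.Lib.MP_44a246_nt
open Pool.Agent.Lib.MP_44a246_ntL
open Pool.Agent.Lib.MP_44a246_ntS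
open Pool.Agent.Lib.MP_44a246_ntF
open Pool.Agent.Lib.MP_44a246_ntO
open Pool.Agent.Lib.MP_44a246_ntA
open Pool.Agent.Lib.MP_44a246_ntSH
open Pool.Agent.Lib.MP_44a246_ntVT
open Pool.Agent.Lib.MP_44a246_ntVQ
open Pool.Agent.Lib.MP_44a246_ntUV (prl ht_map_prl_le ht_map_prl_quot)
open Pool.Agent.Lib.MP_44a246_ntK (piece mem_piece ht_piece)
open Pool.Agent.Lib.MP_e52354_nt
open WithZero Module

universe u

/-- **Rows for `p` blocks with the ramification, from rows with additional indices.** -/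
theorem rowsG_of_sum {κ : Type*} {K : Type u} [Field κ] [IsAlgClosed κ] [CharZero κ]
    [Field K] [CharZero K] [Algebra κ K] (h : IsFF κ K) {n c p : ℕ} {d : Fin p → ℕ}
    {τ : Type*} [Fintype τ]
    (X : RowT κ (L := K) n c ((Σ j : Fin p, EX (n + 1) (d j)) ⊕ τ))
    (hxm : ∀ j, xmj d X.x j ∈ X.U.map (prl K _ τ)) :
    RowsG κ X.x d c (((∑ j, d j : ℕ) - (n : ℝ) - 1) * height κ X.x - X.R)
      ((n + c + Fintype.card ((Σ j : Fin p, EX (n + 1) (d j)) ⊕ τ)) * X.Δ') := by
  intro Λ Λ' t t' ht0 hlt hΛ hle hΛ'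
  have hUW : X.U ≤ X.W Λ Λ' := le_sup_left
  have h0 : finrank K X.U ≤ finrank K (X.W Λ Λ') := Submodule.finrank_mono hUW
  have hΔ : 0 ≤ X.Δ' := X.Δ'_nonneg
  obtain ⟨ν, hν⟩ := Nat.exists_eq_add_of_le h0
  have h1 := X.hU
  have h3 := X.ht_W_le_T h hΛ hle hΛ'
  obtain ⟨W', hW'⟩ : ∃ W' : Submodule K ((Σ j : Fin p, EX (n + 1) (d j)) → K),
      W' = (X.W Λ Λ').map (prl K _ τ) := ⟨_, rfl⟩
  have hW1 : ht κ W' ≤ ht κ (X.W Λ Λ') := by
    rw [hW']
    exact ht_map_prl_le h _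
  have hW2 : finrank K W' ≤ finrank K (X.W Λ Λ') := by
    rw [hW']
    exact Submodule.finrank_map_le _ _
  have hW3 : ∀ j, xmj d X.x j ∈ W' := by
    intro j
    rw [hW']
    exact Submodule.map_mono hUW (hxm j)
  obtain ⟨hp1, hp2⟩ := ht_piece h W'
  have hνc : ν ≤ Fintype.card ((Σ j : Fin p, EX (n + 1) (d j)) ⊕ τ) := by
    have h4 := Submodule.finrank_le (X.W Λ Λ')
    rw [Module.finrank_fintype_fun_eq_card] at h4
    omega
  refine ⟨ν, piece κ W', fun j => xm_mem_piece κ (hW3 j), by omega, ?_, ?_⟩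
  · have e1 : (finrank K (X.W Λ Λ') : ℝ) - finrank K X.U = ν := by
      rw [hν]; push_cast; ring
    rw [e1] at h3
    have h5 : (ν : ℝ) * X.Δ' ≤
        Fintype.card ((Σ j : Fin p, EX (n + 1) (d j)) ⊕ τ) * X.Δ' :=
      mul_le_mul_of_nonneg_right (by exact_mod_cast hνc) (by exact_mod_cast hΔ)
    have h6 : ∑ j, ((d j : ℝ) * (height κ X.x : ℝ) - (ht κ (piece κ W' j) : ℝ)) =
        (∑ j, (d j : ℝ)) * height κ X.x - ∑ j, (ht κ (piece κ W' j) : ℝ) := by
      rw [Finset.sum_sub_distrib, Finset.sum_mul]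
    have h7 : (∑ j, (ht κ (piece κ W' j) : ℝ)) ≤ ht κ (X.W Λ Λ') := by
      have h8 := hp1.trans hW1
      exact_mod_cast h8
    rw [h6]
    push_cast at h5 ⊢
    linarith
  · intro q hq
    have h4 := X.finrank_glm_le (Λ := Λ) (Λ' := Λ') hq
    have h5 := two_rank_le q
    have h6 : finrank K (LinearMap.range (glm q)) ≤ ν + finrank K Λ' + n + c := by
      have key : ∀ a b w f : ℕ, w = b + ν → b ≤ n + c → a ≤ w + f → a ≤ ν + f + n + c := by
        intro a b w f h1 h2 h3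
        omega
      exact key _ _ _ _ hν h1 h4
    rw [finrank_lam_one q]
    have h7 : 2 * ((n : ℝ) + 1) * finrank K (spn (K ∙ q)) ≤
        2 * finrank K (LinearMap.range (glm q)) +
          (finrank K (spn (K ∙ q)) : ℝ) * ((finrank K (spn (K ∙ q)) : ℝ) - 1) := by
      rcases Nat.eq_zero_or_pos (finrank K (spn (K ∙ q))) with h8 | h8
      · rw [h8]
        push_cast
        have : (0 : ℝ) ≤ finrank K (LinearMap.range (glm q)) := Nat.cast_nonneg _
        linarith
      · have h9 : ((finrank K (spn (K ∙ q)) - 1 : ℕ) : ℝ) = (finrank K (spn (K ∙ q)) : ℝ) - 1 := by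
          rw [Nat.cast_sub h8, Nat.cast_one]
        rw [← h9]
        exact_mod_cast h5
    have h6R : (finrank K (LinearMap.range (glm q)) : ℝ) ≤ ν + finrank K Λ' + n + c := by
      exact_mod_cast h6
    linarith

/-- **The rows of the point, graded pieces, with the ramification, from rows with additional
indices.** -/
theorem rows0G_of_sum {κ : Type*} {K : Type u} [Field κ] [IsAlgClosed κ] [CharZero κ]
    [Field K] [CharZero K] [Algebra κ K] (h : IsFF κ K) {n c p : ℕ} {d : Fin p → ℕ}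
    {τ : Type*} [Fintype τ]
    (X : RowT κ (L := K) n c ((Σ j : Fin p, EX (n + 1) (d j)) ⊕ τ))
    (hxm : ∀ j, xmj d X.x j ∈ X.U.map (prl K _ τ)) :
    Rows0G κ X.x d c (((∑ j, d j : ℕ) - (n : ℝ) - 1) * height κ X.x - X.R)
      ((n + c) * X.Δ') := by
  refine rows0G_of_space h X.hx ((Submodule.finrank_map_le _ _).trans X.hU) hxm ?_
    fun K' hK' => ?_
  · have h1 := ht_U_T X h
    have h2 : (ht κ (X.U.map (prl K _ τ)) : ℝ) ≤ ht κ X.U := by
      exact_mod_cast ht_map_prl_le h X.U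
    linarith
  · obtain ⟨K₁, hK₁, h3, h4⟩ := ht_map_prl_quot h X.U hK'
    have h1 := ht_quot_T X h hK₁
    have h7 : (ht κ (X.U.map (prl K _ τ)) : ℝ) + ht κ K₁ ≤ ht κ X.U + ht κ K' := by
      exact_mod_cast h3
    have h8 : (finrank K X.U : ℝ) - finrank K K₁ =
        (finrank K ↥(X.U.map (prl K _ τ)) : ℝ) - finrank K K' := by
      have h9 : (finrank K X.U : ℝ) + finrank K K' =
          finrank K K₁ + finrank K ↥(X.U.map (prl K _ τ)) := by exact_mod_cast h4
      linarith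
    rw [h8] at h1
    linarith

end Pool.Agent.Lib.MP_44a246_ntTV
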