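import Mathlib
import Pool.Agent.Lib.MP_44a246_ntUV.U103
import Pool.Agent.Lib.MP_44a246_ntUV.UV04
import Pool.Agent.Lib.MP_44a246_ntTK.OverK
import Pool.Agent.Lib.MP_44a246_ntVT.VD2

/-!
# The data for the rows with the ramification, on an arbitrary variety

As `ntVT/VD2`, with additional indices for the entries of a matrix (as in `ntUV/U103`): only the
relations between the point, the values and the columns are used.
-/

namespace Pool.Agent.Lib.MP_44a246_ntTV

open Pool.Agent.Lib.MP_44a246_nt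
open Pool.Agent.Lib.MP_44a246_ntL
open Pool.Agent.Lib.MP_44a246_ntS
open Pool.Agent.Lib.MP_44a246_ntX
open Pool.Agent.Lib.MP_44a246_ntG
open Pool.Agent.Lib.MP_44a246_ntK
open Pool.Agent.Lib.MP_44a246_ntF
open Pool.Agent.Lib.MP_44a246_ntO
open Pool.Agent.Lib.MP_44a246_ntA
open Pool.Agent.Lib.MP_44a246_ntSH
open Pool.Agent.Lib.MP_44a246_ntVT
open Pool.Agent.Lib.MP_44a246_ntUV (prl prl_apply SG AG MG AG_inl AG_inr MG_inl MG_inr sum_MG_A DatV
  ColC)
open Pool.Agent.Lib.MP_44a246_ntTK (OverK)
open Pool.Agent.Lib.MP_e52354_nt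
open WithZero Module

section

variable {L : Type*} [Field L] {n : ℕ} {σ : Type*}

/-- the additional row of the value `v` at a place with the largest coordinate `i₀` -/
theorem row_eqS {x : Fin (n + 1) → L} (D : σ → Derivation ℤ L L)
    (A : σ → Matrix (Fin (n + 1)) (Fin (n + 1)) L)
    {ξ : Fin (n + 1) → L} (hξ : ∑ i, ξ i * x i = 1) {i₀ : Fin (n + 1)} (hi0 : x i₀ ≠ 0) (m : ℕ)
    {v : L} (hv : v ≠ 0) : ∃ u ∈ U1 x D A, ∀ s,
      (m : L) * r1L x D A ξ s - D s v / v - u s =
        - (D s (v / x i₀ ^ m) / (v / x i₀ ^ m)) -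
          m * (A s).mulVec (fun i => x i / x i₀) i₀ := by
  obtain ⟨y, hy⟩ : ∃ y : Fin (n + 1) → L, y = (m : L) •
      (ξ - (x i₀)⁻¹ • Pi.single i₀ 1) := ⟨_, rfl⟩
  have hyx : ∑ i, y i * x i = 0 := by
    have h3 : ∑ i, y i * x i = (m : L) * ((∑ i, ξ i * x i) -
        (x i₀)⁻¹ * ∑ i, (Pi.single i₀ 1 : Fin (n + 1) → L) i * x i) := by
      rw [Finset.mul_sum, ← Finset.sum_sub_distrib, Finset.mul_sum]
      refine Finset.sum_congr rfl fun i _ => ?_
      rw [hy, Pi.smul_apply, Pi.sub_apply, Pi.smul_apply, smul_eq_mul, smul_eq_mul]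
      ring
    rw [h3, hξ, Finset.sum_eq_single i₀]
    · rw [Pi.single_eq_same, one_mul, inv_mul_cancel₀ hi0, sub_self, mul_zero]
    · intro i _ hi
      rw [Pi.single_eq_of_ne hi, zero_mul]
    · intro h
      exact absurd (Finset.mem_univ _) h
  refine ⟨_, ⟨y, mem_orth_single.2 hyx, rfl⟩, fun s => ?_⟩
  have h1 : r1L x D A (Pi.single i₀ 1) s = dv (D s) (A s) x i₀ := by
    rw [r1L_apply, Finset.sum_eq_single i₀]
    · rw [Pi.single_eq_same, one_mul]
    · intro i _ hi
      rw [Pi.single_eq_of_ne hi, zero_mul]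
    · intro h
      exact absurd (Finset.mem_univ _) h
  obtain ⟨z, hz⟩ : ∃ z : L, z = v / x i₀ ^ m := ⟨_, rfl⟩
  have hz0 : z ≠ 0 := by
    rw [hz]
    exact div_ne_zero hv (pow_ne_zero _ hi0)
  have h2 : D s z / z = D s v / v - m * (D s (x i₀) / x i₀) := by
    have h3 : v = z * x i₀ ^ m := by
      rw [hz, div_mul_cancel₀ _ (pow_ne_zero _ hi0)]
    rw [h3, Derivation.leibniz, Derivation.leibniz_pow]
    simp only [smul_eq_mul, nsmul_eq_mul]
    rcases Nat.eq_zero_or_pos m with hd | hd
    · rw [hd]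
      simp
    · obtain ⟨e, he⟩ : ∃ e, m = e + 1 := ⟨m - 1, by omega⟩
      rw [he, Nat.add_sub_cancel]
      field_simp
      ring
  have h4 : (A s).mulVec x i₀ = x i₀ * (A s).mulVec (fun i => x i / x i₀) i₀ := by
    have h5 : x = x i₀ • (fun i => x i / x i₀) := by
      funext i
      rw [Pi.smul_apply, smul_eq_mul, mul_div_cancel₀ _ hi0]
    conv_lhs => rw [h5]
    rw [Matrix.mulVec_smul, Pi.smul_apply, smul_eq_mul]
  rw [← hz, h2, hy, map_smul, map_sub, map_smul, Pi.smul_apply, Pi.sub_apply, Pi.smul_apply, h1]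
  simp only [smul_eq_mul]
  unfold dv
  rw [h4]
  field_simp
  ring

end

/-- the derivations of the rows -/
noncomputable def DGT {L : Type*} [Field L] {n p : ℕ} {d : Fin p → ℕ}
    (D : (Σ j : Fin p, EX (n + 1) (d j)) → Derivation ℤ L L) : SG n p d → Derivation ℤ L L :=
  Sum.elim D (fun _ => 0)

section

variable {L : Type*} [Field L] {n p : ℕ} {d : Fin p → ℕ}
  (D : (Σ j : Fin p, EX (n + 1) (d j)) → Derivation ℤ L L)

@[simp] theorem DGT_inl (s : Σ j : Fin p, EX (n + 1) (d j)) : DGT D (Sum.inl s) = D s := rfl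
@[simp] theorem DGT_inr (kl : Fin (n + 1) × Fin (n + 1)) : DGT D (Sum.inr kl) = 0 := rfl

theorem sum_MG_DT (B : Matrix (Fin (n + 1)) (Fin (n + 1)) L) :
    ∑ s, MG L n p d B s • DGT D s = 0 := by
  rw [Fintype.sum_sum_type]
  simp

end

variable {κ K L : Type*} [Field κ] [IsAlgClosed κ] [CharZero κ] [Field K]
  [Algebra κ K] [Field L] [Algebra K L] [FiniteDimensional K L] [Algebra κ L] [IsScalarTower κ K L]
  {n p : ℕ} {d : Fin p → ℕ}

/-- **The data for the rows with the ramification**, on an arbitrary variety. `T` contains the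
places of contact with the hypersurfaces which do not contain the point. The derivations `D' s` of
`L` extend derivations `D₀ s` of `K` with poles of order at most `B`. -/
theorem exists_rowTV (hK : IsFF κ K)
    {D₀ : (Σ j : Fin p, EX (n + 1) (d j)) → Derivation ℤ K K} {B : Place κ K → ℕ}
    (hB : (Function.support B).Finite) (hD₀ : ∀ s, PoleBound κ (D₀ s) B)
    {D' : (Σ j : Fin p, EX (n + 1) (d j)) → Derivation ℤ L L}
    (hD' : ∀ s y, D' s (algebraMap K L y) = algebraMap K L (D₀ s y))
    {x : Fin (n + 1) → L} (hx : x ≠ 0) {v : Fin p → L} {g : Fin p → Fin (n + 1) → L}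
    (hcol : ∀ s j, D' s (v j) = xmj d x j s + ∑ i, g j i * D' s (x i))
    (heul : ∀ j, ∑ i, g j i * x i = d j * v j) (T : Finset (Place κ L))
    (hT : ∀ w ∉ T, ∀ j, v j ≠ 0 → w.1 (v j) = vmax w.1 x ^ d j) :
    ∃ R : RowT κ (L := L) n p (SG n p d), R.x = x ∧
      R.Δ' ≤ 2 * (∑ᶠ v, (B v : ℤ)) * finrank K L ∧ R.R ≤ ramDeg κ L K + T.card ∧
      (∀ j, xmj d R.x j ∈ R.U.map (prl L _ _)) := by
  classical
  have hL : IsFF κ L := hK.of_finite
  have hchar : CharZero K := charZero_of_injective_algebraMap (algebraMap κ K).injective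
  obtain ⟨cc₀, dw, hpol⟩ := exists_polar (L := L) hK hD₀ hD'
  obtain ⟨hB1, hB2⟩ := mason_sum_over (L := L) hL hB
  obtain ⟨hR1, hR2⟩ := mason_sum_ram (κ := κ) (K := K) (L := L) hL
  obtain ⟨δ', hδ'd⟩ : ∃ δ' : Place κ L → ℕ,
      δ' = fun w => 2 * (ramIdx K w.1 * B (below K w)) := ⟨_, rfl⟩
  obtain ⟨ρ, hρd⟩ : ∃ ρ : Place κ L → ℕ,
      ρ = fun w => (ramIdx K w.1 - 1) + if w ∈ T then 1 else 0 := ⟨_, rfl⟩
  obtain ⟨S, hSd⟩ : ∃ S : Finset (Place κ L),
      S = (hR1.toFinset ∪ T).filter (fun w => B (below K w) = 0) := ⟨_, rfl⟩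
  have hSmem : ∀ w, w ∈ S ↔ ((ramIdx K w.1 - 1 ≠ 0 ∨ w ∈ T) ∧ B (below K w) = 0) := by
    intro w
    rw [hSd, Finset.mem_filter, Finset.mem_union, Set.Finite.mem_toFinset, Function.mem_support]
    norm_cast
  have hfs1 : (Function.support fun w : Place κ L => ramIdx K w.1 * B (below K w)).Finite := by
    refine hB1.subset ?_
    intro w hw
    rw [Function.mem_support] at hw ⊢
    exact_mod_cast hw
  have hδ' : (Function.support δ').Finite := by
    refine hfs1.subset fun w hw => ?_
    rw [Function.mem_support] at hw ⊢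
    intro h0
    apply hw
    rw [hδ'd]
    simp only [h0, mul_zero]
  have hρ : (Function.support fun w : Place κ L => ramIdx K w.1 - 1).Finite := by
    refine hR1.subset ?_
    intro w hw
    rw [Function.mem_support] at hw ⊢
    exact_mod_cast hw
  have hδ : (Function.support fun w => δ' w + (ramIdx K w.1 - 1)).Finite :=
    (hδ'.union hρ).subset (Function.support_add _ _)
  -- the poles of the derivations
  have hpole : ∀ s (w : Place κ L) y, w.1 y ≤ 1 →
      w.1 (DGT D' s y) ≤ exp ((ramIdx K w.1 * B (below K w) + (ramIdx K w.1 - 1) : ℕ) : ℤ) := by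
    rintro (s | kl) w y hy
    · rw [DGT_inl]
      exact polar_over (K := K) hL (hD' s) (hD₀ s) w hy
    · rw [DGT_inr, Derivation.zero_apply, map_zero]
      exact zero_le
  have hD : ∀ s, PoleBound κ (DGT D' s) (fun w => δ' w + (ramIdx K w.1 - 1)) := by
    intro s w y hy
    refine (hpole s w y hy).trans ?_
    rw [exp_le_exp, Nat.cast_le, hδ'd]
    dsimp only
    omega
  have hA' : ∀ (w : Place κ L) s i l, w.1 (AG L n p d s i l) ≤ exp (δ' w : ℤ) := by
    have h1 : ∀ w : Place κ L, (1 : ℤᵐ⁰) ≤ exp (δ' w : ℤ) := by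
      intro w
      rw [← exp_zero, exp_le_exp]
      exact Int.natCast_nonneg _
    rintro w (s | kl) i l
    · rw [AG_inl, Matrix.zero_apply, map_zero]
      exact zero_le
    · rw [AG_inr, Matrix.single_apply]
      split_ifs
      · rw [map_one]
        exact h1 w
      · rw [map_zero]
        exact zero_le
  -- bad places, and good places outside `S`
  have hout : ∀ w : Place κ L, w ∉ S →
      (B (below K w) ≠ 0 ∧ ramIdx K w.1 * B (below K w) + (ramIdx K w.1 - 1) + 1 ≤ δ' w) ∨
        (ramIdx K w.1 = 1 ∧ w ∉ T ∧ B (below K w) = 0) := by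
    intro w hw
    have he := one_le_ramIdx (K := K) w.1 w.2.1
    by_cases hb : B (below K w) = 0
    · right
      rw [hSmem, not_and_or, not_or] at hw
      rcases hw with ⟨h1, h2⟩ | h1
      · exact ⟨by omega, h2, hb⟩
      · exact absurd hb h1
    · left
      refine ⟨hb, ?_⟩
      have h3 : ramIdx K w.1 * 1 ≤ ramIdx K w.1 * B (below K w) :=
        Nat.mul_le_mul le_rfl (Nat.one_le_iff_ne_zero.2 hb)
      rw [hδ'd]
      dsimp only
      omega
  -- the polar parts at the places of `S`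
  obtain ⟨cc, hcc⟩ : ∃ cc : Place κ L → SG n p d → κ,
      cc = fun w => if w ∈ S then Sum.elim (cc₀ w) (fun _ => 0) else 0 := ⟨_, rfl⟩
  have hpolS : ∀ w ∈ S, (∀ s y, w.1 y ≤ 1 →
        w.1 (DGT D' s y - algebraMap κ L (cc w s) * dw w y) ≤ 1) ∧
      (∀ s z, z ≠ 0 → w.1 ((DGT D' s z - algebraMap κ L (cc w s) * dw w z) / z) ≤ 1) ∧
      (∀ y, w.1 y ≤ 1 → w.1 (dw w y) ≤ exp ((ramIdx K w.1 - 1 : ℕ) : ℤ)) := by
    intro w hw
    obtain ⟨h1, h2, h3⟩ := (hpol w).2 ((hSmem w).1 hw).2
    have hccw : cc w = Sum.elim (cc₀ w) (fun _ => 0) := by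
      rw [hcc]
      exact if_pos hw
    refine ⟨?_, ?_, h3⟩
    · rintro (s | kl) y hy
      · rw [hccw, DGT_inl]
        exact h1 s y hy
      · rw [hccw, DGT_inr, Derivation.zero_apply, Sum.elim_inr, map_zero, zero_mul, sub_zero,
          map_zero]
        exact zero_le
    · rintro (s | kl) z hz
      · rw [hccw, DGT_inl]
        exact h2 s z hz
      · rw [hccw, DGT_inr, Derivation.zero_apply, Sum.elim_inr, map_zero, zero_mul, sub_zero,
          zero_div, map_zero]
        exact zero_le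
  have hccS : ∀ w ∉ S, cc w = 0 := by
    intro w hw
    rw [hcc]
    exact if_neg hw
  -- the additional rows
  obtain ⟨l, hl⟩ : ∃ l, x l ≠ 0 := by
    by_contra hcon
    push Not at hcon
    exact hx (funext hcon)
  obtain ⟨ξ, hξd⟩ : ∃ ξ : Fin (n + 1) → L, ξ = Pi.single l (x l)⁻¹ := ⟨_, rfl⟩
  have hξ : ∑ i, ξ i * x i = 1 := by
    rw [hξd, Finset.sum_eq_single l]
    · rw [Pi.single_eq_same, inv_mul_cancel₀ hl]
    · intro i _ hi
      rw [Pi.single_eq_of_ne hi, zero_mul]
    · intro h
      exact absurd (Finset.mem_univ _) h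
  obtain ⟨r, hr⟩ : ∃ r : Fin p → SG n p d → L,
      r = fun j s => if v j = 0 then 0 else
        (d j : L) * r1L x (DGT D') (AG L n p d) ξ s - DGT D' s (v j) / v j := ⟨_, rfl⟩
  obtain ⟨U, hU⟩ : ∃ U : Submodule L (SG n p d → L),
      U = U1 x (DGT D') (AG L n p d) ⊔ Submodule.span L (Set.range r) := ⟨_, rfl⟩
  have hUU : U1 x (DGT D') (AG L n p d) ≤ U := by rw [hU]; exact le_sup_left
  have hmem1 : ∀ y, ∑ i, y i * x i = 0 →
      r1L x (DGT D') (AG L n p d) y ∈ U1 x (DGT D') (AG L n p d) :=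
    fun y hy => ⟨y, mem_orth_single.2 hy, rfl⟩
  have hxm : ∀ j, xmj d x j ∈ U.map (prl L _ _) := by
    intro j
    have h1 : ∀ s, r1L x (DGT D') (AG L n p d) (g j) (Sum.inl s) =
        D' s (v j) - xmj d x j s := by
      intro s
      rw [r1L_apply, hcol s j, add_sub_cancel_left]
      unfold dv
      rw [DGT_inl, AG_inl]
      simp only [Matrix.zero_mulVec, Pi.zero_apply, sub_zero]
    have h2 : ∑ i, g j i * x i = d j * v j := heul j
    by_cases hv : v j = 0
    · refine ⟨- r1L x (DGT D') (AG L n p d) (g j), Submodule.neg_mem _ (hUU (hmem1 _ ?_)), ?_⟩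
      · rw [h2, hv, mul_zero]
      · funext s
        rw [prl_apply, Pi.neg_apply, h1, hv, map_zero]
        ring
    · obtain ⟨y, hy⟩ : ∃ y : Fin (n + 1) → L, y = g j - ((d j : L) * v j) • ξ := ⟨_, rfl⟩
      have hyx : ∑ i, y i * x i = 0 := by
        have h3 : ∑ i, y i * x i = (∑ i, g j i * x i) -
            ((d j : L) * v j) * ∑ i, ξ i * x i := by
          rw [Finset.mul_sum, ← Finset.sum_sub_distrib]
          refine Finset.sum_congr rfl fun i _ => ?_
          rw [hy, Pi.sub_apply, Pi.smul_apply, smul_eq_mul]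
          ring
        rw [h3, h2, hξ, mul_one, sub_self]
      refine ⟨- r1L x (DGT D') (AG L n p d) y - v j • r j,
        Submodule.sub_mem _ (Submodule.neg_mem _ (hUU (hmem1 _ hyx)))
          (Submodule.smul_mem _ _ ?_), ?_⟩
      · rw [hU]
        exact Submodule.mem_sup_right (Submodule.subset_span ⟨j, rfl⟩)
      · funext s
        rw [prl_apply, Pi.sub_apply, Pi.neg_apply, Pi.smul_apply, smul_eq_mul, hr, hy, map_sub,
          map_smul, Pi.sub_apply, Pi.smul_apply, smul_eq_mul, h1]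
        simp only [if_neg hv, DGT_inl]
        field_simp
        ring
  have hfU : finrank L U ≤ n + p := by
    rw [hU]
    refine (Submodule.finrank_add_le_finrank_add_finrank _ _).trans (add_le_add ?_ ?_)
    · exact finrank_U1_le hx _ _
    · refine (finrank_range_le_card r).trans ?_
      rw [Fintype.card_fin]
  refine ⟨{ x := x
            D := DGT D'
            A := AG L n p d
            M := MG L n p d
            δ := fun w => δ' w + (ramIdx K w.1 - 1)
            hδ := hδ
            hD := hD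
            hA := ?_
            hx := hx
            U := U
            hU := hfU
            hr := fun y hy => hUU ⟨y, hy, rfl⟩
            hMD := fun B _ => sum_MG_DT D' B
            hMA := fun B _ => sum_MG_A B
            δ' := δ'
            hδ' := hδ'
            S := S
            ρ := ρ
            cc := cc
            dw := dw
            hcc := hccS
            hDc := ?_
            hdw := ?_
            hA' := hA'
            r := r
            hU1 := hU
            hrow := ?_ }, rfl, ?_, ?_, hxm⟩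
  · intro w s i l
    refine (hA' w s i l).trans ?_
    rw [exp_le_exp]
    push_cast
    omega
  · intro w s y hy
    by_cases hw : w ∈ S
    · refine ((hpolS w hw).1 s y hy).trans ?_
      rw [← exp_zero, exp_le_exp]
      exact Int.natCast_nonneg _
    · rw [hccS w hw, Pi.zero_apply, map_zero, zero_mul, sub_zero]
      refine (hpole s w y hy).trans ?_
      rw [exp_le_exp, Nat.cast_le]
      rcases hout w hw with ⟨-, h1⟩ | ⟨h1, -, h3⟩
      · omega
      · rw [h1, h3]
        omega
  · intro w hw y hy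
    refine ((hpolS w hw).2.2 y hy).trans ?_
    rw [exp_le_exp, hρd]
    push_cast
    split_ifs <;> omega
  · intro w k
    by_cases hv : v k = 0
    · refine ⟨0, Submodule.zero_mem _, 0, fun s => ?_, fun _ => ?_⟩
      · rw [hr]
        simp only [if_pos hv, Pi.zero_apply, sub_zero, mul_zero, map_zero]
        exact zero_le
      · rw [map_zero]
        exact zero_le
    obtain ⟨i₀, hi0, hiv, him⟩ := exists_vmax w.1 hx
    obtain ⟨u, hu, hus⟩ := row_eqS (DGT D') (AG L n p d) hξ hi0 (d k) hv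
    obtain ⟨z, hz⟩ : ∃ z : L, z = v k / x i₀ ^ d k := ⟨_, rfl⟩
    have hz0 : z ≠ 0 := by
      rw [hz]
      exact div_ne_zero hv (pow_ne_zero _ hi0)
    have hz1 : w ∉ T → w.1 z = 1 := by
      intro hwT
      rw [hz, map_div₀, map_pow, hT w hwT k hv, hiv]
      refine div_self (pow_ne_zero _ ?_)
      exact (Valuation.ne_zero_iff _).2 hi0
    have hAz : ∀ s, w.1 (((d k : ℕ) : L) * (AG L n p d s).mulVec (fun i => x i / x i₀) i₀) ≤
        exp (δ' w : ℤ) := fun s => val_row_le w.1 (AG L n p d s) (hA' w s) him (d k)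
    have hrs : ∀ s, r k s - u s = - (DGT D' s z / z) -
        (d k : L) * (AG L n p d s).mulVec (fun i => x i / x i₀) i₀ := by
      intro s
      rw [hz, ← hus s, hr]
      simp only [if_neg hv]
    by_cases hw : w ∈ S
    · obtain ⟨-, h2, h3⟩ := hpolS w hw
      refine ⟨u, hu, - (dw w z / z), fun s => ?_, fun _ => ?_⟩
      · have h4 : r k s - u s - algebraMap κ L (cc w s) *
            (- (dw w z / z)) = - ((DGT D' s z - algebraMap κ L (cc w s) * dw w z) / z) -
              (d k : L) * (AG L n p d s).mulVec (fun i => x i / x i₀) i₀ := by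
          rw [hrs]
          ring
        rw [h4]
        refine (Valuation.map_sub _ _ _).trans (max_le ?_ (hAz s))
        rw [Valuation.map_neg]
        refine (h2 s z hz0).trans ?_
        rw [← exp_zero, exp_le_exp]
        exact Int.natCast_nonneg _
      · rw [Valuation.map_neg]
        obtain ⟨h6, h7⟩ := log_der_bound w (dw w) h3 hz0
        rw [hρd]
        dsimp only
        by_cases hwT : w ∈ T
        · refine h6.trans ?_
          rw [exp_le_exp, if_pos hwT]
          push_cast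
          omega
        · refine (h7 (hz1 hwT)).trans ?_
          rw [exp_le_exp, if_neg hwT]
          push_cast
          omega
    · refine ⟨u, hu, 0, fun s => ?_, fun h => absurd h hw⟩
      rw [mul_zero, sub_zero, hrs]
      refine (Valuation.map_sub _ _ _).trans (max_le ?_ (hAz s))
      rw [Valuation.map_neg]
      obtain ⟨h6, h7⟩ := log_der_bound w (DGT D' s) (fun y hy => hpole s w y hy) hz0
      rcases hout w hw with ⟨-, h1⟩ | ⟨h1, h2, h3⟩
      · refine h6.trans ?_
        rw [exp_le_exp]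
        exact_mod_cast h1
      · refine (h7 (hz1 h2)).trans ?_
        rw [exp_le_exp, Nat.cast_le, h1, h3]
        omega
  · show ∑ᶠ w, (δ' w : ℤ) ≤ 2 * (∑ᶠ v, (B v : ℤ)) * finrank K L
    have h5 : ∑ᶠ w, (δ' w : ℤ) =
        2 * ∑ᶠ w : Place κ L, ((ramIdx K w.1 * B (below K w) : ℕ) : ℤ) := by
      rw [mul_finsum _ 2]
      refine finsum_congr fun w => ?_
      rw [hδ'd]
      push_cast
      ring
    have h6 : ((∑ᶠ v, B v : ℕ) : ℤ) = ∑ᶠ v, (B v : ℤ) := by
      rw [finsum_eq_sum _ hB, finsum_eq_sum_of_support_subset (s := hB.toFinset)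
        (fun v => (B v : ℤ)) (by
          intro v hv
          rw [Function.mem_support] at hv
          rw [Set.Finite.coe_toFinset, Function.mem_support]
          exact_mod_cast hv)]
      push_cast
      rfl
    rw [h5, hB2, ← h6]
    push_cast
    exact le_of_eq (by ring)
  · show ∑ w ∈ S, (ρ w : ℤ) ≤ _
    have h1 : ∑ w ∈ S, ((ramIdx K w.1 - 1 : ℕ) : ℤ) ≤ (ramDeg κ L K : ℤ) := by
      rw [← hR2, finsum_eq_sum_of_support_subset _ (s := hR1.toFinset ∪ T)
        (by rw [Finset.coe_union, Set.Finite.coe_toFinset]; exact Set.subset_union_left), hSd]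
      exact Finset.sum_le_sum_of_subset_of_nonneg (Finset.filter_subset _ _)
        (fun w _ _ => Int.natCast_nonneg _)
    have h2 : ∑ w ∈ S, (if w ∈ T then (1 : ℤ) else 0) ≤ (T.card : ℤ) := by
      rw [← Finset.sum_filter, Finset.sum_const, nsmul_eq_mul, mul_one, Nat.cast_le]
      refine Finset.card_le_card fun w hw => (Finset.mem_filter.1 hw).2
    have h3 : ∑ w ∈ S, (ρ w : ℤ) =
        ∑ w ∈ S, ((ramIdx K w.1 - 1 : ℕ) : ℤ) + ∑ w ∈ S, (if w ∈ T then (1 : ℤ) else 0) := by
      rw [← Finset.sum_add_distrib]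
      refine Finset.sum_congr rfl fun w _ => ?_
      rw [hρd]
      push_cast
      rfl
    rw [h3]
    exact add_le_add h1 h2

/-- **The data for the rows with the ramification**, from the data of the point with derivations
over the base field. -/
theorem exists_rowT_datV (hK : IsFF κ K) (X : DatV κ (L := L) n d) (O : OverK κ K X.toDatSC)
    (T : Finset (Place κ L))
    (hT : ∀ w ∉ T, ∀ j, X.val j ≠ 0 → w.1 (X.val j) = vmax w.1 X.x ^ d j) :
    ∃ R : RowT κ (L := L) n p (SG n p d), R.x = X.x ∧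
      R.Δ' ≤ 2 * O.Δ * finrank K L ∧ R.R ≤ ramDeg κ L K + T.card ∧
      (∀ j, xmj d R.x j ∈ R.U.map (prl L _ _)) := by
  refine exists_rowTV (D₀ := fun s => O.D (s.1, s.2.1)) (D' := fun s => X.D (s.1, s.2.1)) hK O.hδ
    (fun s => O.hDδ (s.1, s.2.1) s.2.2) (fun s y => O.hD (s.1, s.2.1) y) X.x_ne_zero
    (v := X.val) (g := X.col) (fun s j => ?_) X.heul T hT
  rw [X.hcol (s.1, s.2.1) s.2.2 j]
  rfl

end Pool.Agent.Lib.MP_44a246_ntTV
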