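import Mathlib
import Pool.Agent.Lib.MP_44a246_ntTK.TK07c

/-!
Section 4 over the base field `K`, for points which need not generate the field `L`: arithmetic
Bezout for the forms over `K` which vanish at the point.
-/

namespace Pool.Agent.Lib.MP_44a246_ntTV

open Pool.Agent.Lib.MP_e52354_nt
open Pool.Agent.Lib.MP_44a246_nt
open Pool.Agent.Lib.MP_44a246_ntL
open Pool.Agent.Lib.MP_44a246_ntS
open Pool.Agent.Lib.MP_44a246_ntA
open Pool.Agent.Lib.MP_44a246_ntF
open Pool.Agent.Lib.MP_44a246_ntW
open Pool.Agent.Lib.MP_44a246_ntE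
open Pool.Agent.Lib.MP_44a246_ntG
open Pool.Agent.Lib.MP_44a246_ntO
open Pool.Agent.Lib.MP_44a246_ntSH
open Pool.Agent.Lib.MP_44a246_ntSP
open Pool.Agent.Lib.MP_44a246_ntTK
open Pool.Agent.Lib.MP_44a246_ntR (genus)
open WithZero Polynomial Module

section root

variable {κ K L : Type*} [Field κ] [IsAlgClosed κ] [CharZero κ] [Field K] [Field L]
  [Algebra κ K] [Algebra K L] [Algebra κ L] [IsScalarTower κ K L] [FiniteDimensional K L]

omit [IsAlgClosed κ] [CharZero κ] in
theorem gv_map (w : Place κ L) (N : K[X]) :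
    gv w.1 (N.map (algebraMap K L)) = gv (below K w).1 N ^ ramIdx K w.1 := by
  rw [gv_apply, gv_apply]
  refine le_antisymm (gn_le w.1 fun i => ?_) ?_
  · rw [coeff_map, below_pow]
    exact pow_le_pow_left₀ zero_le (le_gn (below K w).1 N i) _
  · by_cases hN : N = 0
    · have h1 : ramIdx K w.1 ≠ 0 := by
        have := one_le_ramIdx (K := K) w.1 w.2.1
        omega
      rw [hN, gn_zero, zero_pow h1]
      exact zero_le
    obtain ⟨i, -, hi⟩ := Finset.exists_mem_eq_sup N.support
      (Polynomial.support_nonempty.2 hN) fun i => (below K w).1 (N.coeff i)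
    have hi' : gn (below K w).1 N = (below K w).1 (N.coeff i) := hi
    rw [hi', ← below_pow, ← coeff_map]
    exact le_gn w.1 _ i

/-- the height of a root of a polynomial over `K` -/
theorem root_gv_K (hK : IsFF κ K) {y : L} {N : K[X]} (hN : N ≠ 0) (h0 : aeval y N = 0) :
    height κ ![1, y] ≤ finrank K L * ∑ᶠ v : Place κ K, log (gv v.1 N) := by
  have hL : IsFF κ L := IsFF.of_finite (K := K) hK
  have hN' : N.map (algebraMap K L) ≠ 0 := by
    rw [Ne, Polynomial.map_eq_zero_iff (algebraMap K L).injective]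
    exact hN
  have h1 := root_gv hL hN' (y := y) (by
    rw [eval_map, ← aeval_def]
    exact h0)
  refine h1.trans (le_of_eq ?_)
  rw [← (finsum_below (L := L) hK (gv_support hK hN)).2]
  refine finsum_congr fun w => ?_
  rw [gv_map, log_pow, nsmul_eq_mul]

end root

variable {κ K L : Type*} [Field κ] [IsAlgClosed κ] [CharZero κ] [Field K] [CharZero K] [Field L]
  [CharZero L] [Algebra κ K] [Algebra K L] [Algebra κ L] [IsScalarTower κ K L]
  [FiniteDimensional K L] {n d₀ b : ℕ} {X : DatG κ (L := L) n d₀} {A : L[X][X]}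
  (hA : CrvE X b A) {E : Fin (n + 1) → Derivation ℤ K K} {P : K[X][X]} (hP : CrvK X A E P)
  (hK : IsFF κ K) (hpos : 0 < height κ X.x)

include hA hP hK hpos

/-- Arithmetic Bezout over `K`, for a form which vanishes at the point. -/
theorem bezout_F_zero {r : ℕ} (hr : finrank K L ≤ r) {e : ℕ}
    {f : EX (n + 1) e → K} (hf : f ∉ VI P (BK E P) e) (hz : Fval e (ex (am L f)) X.x = 0)
    {g : Place κ K → ℤ} (hg : DistLE κ (VI P (BK E P) e) f g) :
    height κ X.x - (e : ℤ) * (r * gh κ P) ≤ ((r * P.natDegree : ℕ) : ℤ) * ∑ᶠ v, g v := by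
  obtain ⟨N, hN, hN', h1⟩ := exists_norm_K hA hP hK hpos hf hg
  have h2 := root_gv_K hK hN (hN' hz)
  have h3 := gv_nonneg hK hN
  rw [X.height_y₁] at h2
  have h4 : (finrank K L : ℤ) ≤ r := by exact_mod_cast hr
  have h5 := mul_le_mul_of_nonneg_right h4 h3
  have h6 := mul_le_mul_of_nonneg_left h1 (Int.natCast_nonneg r)
  push_cast
  linarith

/-- **Bezout for forms in constant linear forms** which vanish at the point -/
theorem bezout4_F_zero {r : ℕ} (hr : finrank K L ≤ r) {k e : ℕ}
    (c : Fin k → Fin (n + 1) → κ) {f : MvPolynomial (Fin k) K} (hf : f.IsHomogeneous e)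
    (hf0 : f ≠ 0)
    (hnd : ¬ P ∣ MvPolynomial.aeval
      (fun i => ∑ j, C (C (algebraMap κ K (c i j))) * BK E P j) f)
    (hz : MvPolynomial.eval (fun i => ∑ j, algebraMap κ L (c i j) * X.x j)
      (MvPolynomial.map (algebraMap K L) f) = 0) :
    height κ X.x - (e : ℤ) * (r * gh κ P) ≤ ((r * P.natDegree : ℕ) : ℤ) * polyHeight κ f := by
  classical
  obtain ⟨F, hF⟩ : ∃ F : MvPolynomial (Fin (n + 1)) K,
    F = MvPolynomial.aeval (fun i => clin (L := K) (c i)) f := ⟨_, rfl⟩
  have hFh : F.IsHomogeneous e := by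
    have h1 := hf.aeval (fun i => clin (L := K) (c i)) (n := 1) fun i => clin_hom (c i)
    rwa [one_mul, ← hF] at h1
  obtain ⟨F', hF'⟩ : ∃ F' : EX (n + 1) e → K, F' = fun I => F.coeff I.1 := ⟨_, rfl⟩
  have hpf : pf F' = F := by rw [hF']; exact pf_coeff hFh
  have hnot : F' ∉ VI P (BK E P) e := by
    rw [mem_VI, hpf, hF, MvPolynomial.comp_aeval_apply]
    intro h1
    apply hnd
    have h2 : (fun i => MvPolynomial.aeval (BK E P) (clin (L := K) (c i))) =
        fun i => ∑ j, C (C (algebraMap κ K (c i j))) * BK E P j := by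
      funext i
      unfold clin
      rw [map_sum]
      refine Finset.sum_congr rfl fun j _ => ?_
      rw [map_mul, MvPolynomial.aeval_X, MvPolynomial.aeval_C]
      rfl
    rw [h2] at h1
    exact h1
  have hzero : Fval e (ex (am L F')) X.x = 0 := by
    have h1 : Fval e (ex (am L F')) X.x =
        Fval e (fun I => (MvPolynomial.map (algebraMap K L) F).coeff I) X.x := by
      unfold Fval
      refine Finset.sum_congr rfl fun I hI => ?_
      rw [ex_of_mem _ hI]
      congr 1
      show algebraMap K L (F' ⟨I, hI⟩) = (MvPolynomial.map (algebraMap K L) F).coeff I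
      rw [MvPolynomial.coeff_map, hF']
    have hFhL : (MvPolynomial.map (algebraMap K L) F).IsHomogeneous e := hFh.map _
    rw [h1, ← eval_eq_Fval' hFhL]
    have h2 : MvPolynomial.map (algebraMap K L) F =
        MvPolynomial.aeval (fun i => clin (L := L) (c i)) (MvPolynomial.map (algebraMap K L) f) := by
      rw [hF]
      have h3 : (MvPolynomial.map (algebraMap K L)).comp
          (MvPolynomial.aeval (R := K) (fun i => clin (n := n + 1) (L := K) (c i))).toRingHom =
          ((MvPolynomial.aeval (R := L) (fun i => clin (n := n + 1) (L := L) (c i))).toRingHom).comp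
            (MvPolynomial.map (algebraMap K L)) := by
        apply MvPolynomial.ringHom_ext
        · intro u
          simp
        · intro i
          simp only [RingHom.comp_apply, AlgHom.toRingHom_eq_coe, RingHom.coe_coe,
            MvPolynomial.aeval_X, MvPolynomial.map_X]
          unfold clin
          rw [map_sum]
          refine Finset.sum_congr rfl fun j _ => ?_
          rw [map_mul, MvPolynomial.map_C, MvPolynomial.map_X, ← IsScalarTower.algebraMap_apply]
      exact congrArg (fun F : MvPolynomial (Fin k) K →+* MvPolynomial (Fin (n + 1)) L => F f) h3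
    rw [h2, ← MvPolynomial.coe_aeval_eq_eval]
    change MvPolynomial.aeval X.x _ = 0
    rw [MvPolynomial.comp_aeval_apply, ← hz, ← MvPolynomial.coe_aeval_eq_eval]
    change _ = MvPolynomial.aeval _ (MvPolynomial.map (algebraMap K L) f)
    congr 2
    funext i
    unfold clin
    rw [map_sum]
    refine Finset.sum_congr rfl fun j _ => ?_
    rw [map_mul, MvPolynomial.aeval_X, MvPolynomial.aeval_C]
    rfl
  rw [polyHeight_eq]
  refine bezout_F_zero hA hP hK hpos hr hnot hzero
    ⟨nrm_support hK hf0, fun v => ⟨F', ?_, fun I => ?_⟩⟩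
  · rw [sub_self]
    exact Submodule.zero_mem _
  · have h1 : v.1 (F' I) ≤ nrm v.1 F := by
      rw [hF']
      exact le_nrm v.1 F I.1
    rw [exp_log (nrm_ne_zero v.1 hf0)]
    refine h1.trans ?_
    rw [hF]
    exact nrm_aeval_clin_le v c f

end Pool.Agent.Lib.MP_44a246_ntTV
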