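import Mathlib
import Pool.Agent.Lib.MP_44a246_ntTK.TK09d
import Pool.Agent.Lib.MP_44a246_ntTK.TK11
import Pool.Agent.Lib.MP_44a246_ntTV.TV21

/-!
Section 4 over the base field `K`, for points which need not generate the field `L`: section 3 in
one block and the main inequality.
-/

namespace Pool.Agent.Lib.MP_44a246_ntTV

open Pool.Agent.Lib.MP_e52354_nt
open Pool.Agent.Lib.MP_44a246_nt
open Pool.Agent.Lib.MP_44a246_ntL
open Pool.Agent.Lib.MP_44a246_ntS
open Pool.Agent.Lib.MP_44a246_ntA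
open Pool.Agent.Lib.MP_44a246_ntF
open Pool.Agent.Lib.MP_44a246_ntO
open Pool.Agent.Lib.MP_44a246_ntW
open Pool.Agent.Lib.MP_44a246_ntE
open Pool.Agent.Lib.MP_44a246_ntG
open Pool.Agent.Lib.MP_44a246_ntSH
open Pool.Agent.Lib.MP_44a246_ntSP
open Pool.Agent.Lib.MP_44a246_ntUV
open Pool.Agent.Lib.MP_44a246_ntTK
open Pool.Agent.Lib.MP_44a246_ntR (genus)
open WithZero Polynomial Module

variable {κ K L : Type*} [Field κ] [IsAlgClosed κ] [CharZero κ] [Field K] [CharZero K] [Field L]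
  [CharZero L] [Algebra κ K] [Algebra K L] [Algebra κ L] [IsScalarTower κ K L]
  [FiniteDimensional K L]

/-- **Section 3 in one block** over the base field `K`. -/
theorem r2_leU_F (hK : IsFF κ K) {n d₀ b t r : ℕ} {X : DatG κ (L := L) n d₀} {A : L[X][X]}
    (hA : CrvE X b A) {E : Fin (n + 1) → Derivation ℤ K K} {P : K[X][X]} (hP : CrvK X A E P)
    {D : (Σ _ : Fin 1, EX (n + 1) t) → Derivation ℤ K K}
    {D' : (Σ _ : Fin 1, EX (n + 1) t) → Derivation ℤ L L}
    (hD : ∀ s (y : K), D' s (algebraMap K L y) = algebraMap K L (D s y))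
    {δ : Place κ L → ℕ} (hδ : (Function.support δ).Finite) (hDδ : ∀ s, PoleBound κ (D' s) δ)
    {τ : Place κ L → ℤ} (hτ : (Function.support τ).Finite)
    (hl : ∀ (w : Place κ L) (F : (Σ _ : Fin 1, EX (n + 1) t) → L),
      (∀ i, dF D' F (X.x i) = 0) → (∀ s, w.1 (F s) ≤ 1) →
      w.1 (bval (d := fun _ => t) X.x 0 F) ≤ exp (τ w)) {T : ℤ} (hT0 : 0 ≤ T)
    (hT : ∑ᶠ w, τ w ≤ T)
    (hpos : 0 < height κ X.x) (hr : finrank K L ≤ r) :
    ∃ r₂ : ℕ, finrank K (ZF P (BK E P) D) ≤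
        finrank K (ZF P (BK E P) D ⊓ IId P (BK E P) (fun _ : Fin 1 => t) : Submodule K _) +
          (2 * finrank K L + r₂) ∧
      (r₂ : ℤ) * (height κ X.x - t * (r * gh κ P) -
        ((r * P.natDegree : ℕ) : ℤ) * (genus κ K + 1)) ≤
      ((r * P.natDegree : ℕ) : ℤ) * (ht κ (ZF P (BK E P) D) + (∑ᶠ w, (δ w : ℤ)) +
        2 * height κ X.x + T + 2 * (finrank K L * (genus κ K + 1))) := by
  classical
  have h : IsFF κ L := IsFF.of_finite (K := K) hK
  obtain ⟨B, hB⟩ : ∃ B, B = BK E P := ⟨_, rfl⟩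
  obtain ⟨Z, hZ⟩ : ∃ Z, Z = ZF P B D := ⟨_, rfl⟩
  rw [← hB, ← hZ]
  have hZmem : ∀ F, F ∈ Z → am L F ∈ ZF A (X.B A) D' := by
    intro F hF
    rw [hZ, hB] at hF
    exact (hP.mem_ZF hA.irr.prime hD).1 hF
  -- the deformations which kill the point
  let φ₀ : ((Σ _ : Fin 1, EX (n + 1) t) → L) →ₗ[L] L := ∑ s, D' s X.y₁ •
    (LinearMap.proj (R := L) (φ := fun _ : (Σ _ : Fin 1, EX (n + 1) t) => L) s)
  have hφ₀ : ∀ G, φ₀ G = dF D' G X.y₁ := by
    intro G
    rw [LinearMap.sum_apply, dF_apply]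
    refine Finset.sum_congr rfl fun s _ => ?_
    rw [LinearMap.smul_apply, LinearMap.proj_apply, smul_eq_mul, mul_comm]
  let Z2 : Submodule K ((Σ _ : Fin 1, EX (n + 1) t) → K) := Z ⊓ LinearMap.ker (resK K φ₀)
  have hZ2 : ∀ F, F ∈ Z2 ↔ F ∈ Z ∧ dF D' (am L F) X.y₁ = 0 := by
    intro F
    rw [Submodule.mem_inf, LinearMap.mem_ker, resK_apply, hφ₀]
  have hpt : ∀ F ∈ Z2, ∀ i, dF D' (am L F) (X.x i) = 0 := by
    intro F hF i
    obtain ⟨h1, h2⟩ := (hZ2 F).1 hF
    have h3 := hZmem F h1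
    rw [MP_44a246_ntSH.mem_ZF] at h3
    exact der_point hA.zero hA.der h2 (X.B_eval hA.toCrvG i) (h3 i)
  -- the functional
  let l : ((Σ _ : Fin 1, EX (n + 1) t) → K) →ₗ[K] L := resK K (bval (d := fun _ => t) X.x 0)
  have hlF : ∀ F, l F = bval (d := fun _ => t) X.x 0 (am L F) := fun F => rfl
  let Z3 : Submodule K ((Σ _ : Fin 1, EX (n + 1) t) → K) := Z2 ⊓ LinearMap.ker l
  have hZ3 : ∀ F, F ∈ Z3 ↔ F ∈ Z2 ∧ bval (d := fun _ => t) X.x 0 (am L F) = 0 := by
    intro F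
    rw [Submodule.mem_inf, LinearMap.mem_ker, hlF]
  let Z30 : Submodule K ((Σ _ : Fin 1, EX (n + 1) t) → K) := Z3 ⊓ IId P B (fun _ : Fin 1 => t)
  have hZ30le : Z30 ≤ Z3 := inf_le_left
  have hZ3le : Z3 ≤ Z2 := inf_le_left
  have hZ2le : Z2 ≤ Z := inf_le_left
  refine ⟨finrank K Z3 - finrank K Z30, ?_, ?_⟩
  · -- dimensions
    have h1 : finrank K Z ≤ finrank K Z2 + finrank K L := finrank_le_inf_ker_K Z (resK K φ₀)
    have h2 : finrank K Z2 ≤ finrank K Z3 + finrank K L := finrank_le_inf_ker_K Z2 l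
    have h3 : Z30 ≤ Z ⊓ IId P B (fun _ : Fin 1 => t) := inf_le_inf_right _ (hZ3le.trans hZ2le)
    have h4 := Submodule.finrank_mono h3
    have h5 := Submodule.finrank_mono hZ30le
    omega
  · -- heights
    have hgP : 0 ≤ gh κ P := gh_nonneg hK hP.irr.ne_zero
    have key : ∀ F ∈ Z3, F ∉ Z30 → ∀ g : Place κ K → ℤ, DistLE κ Z30 F g →
        height κ X.x - t * (r * gh κ P) ≤ ((r * P.natDegree : ℕ) : ℤ) * ∑ᶠ w, g w := by
      intro F hF hF0 g hg
      have hj : bk (d := fun _ : Fin 1 => t) F 0 ∉ VI P B t := by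
        intro hcon
        refine hF0 ⟨hF, mem_IId.2 fun j => ?_⟩
        rw [Subsingleton.elim j 0]
        exact hcon
      have hz : Fval t (ex (am L (bk (d := fun _ : Fin 1 => t) F 0))) X.x = 0 := by
        have h1 := ((hZ3 F).1 hF).2
        rw [bval_apply] at h1
        exact h1
      have hg' : DistLE κ (VI P B t) (bk (d := fun _ : Fin 1 => t) F 0) g := by
        refine ⟨hg.1, fun w => ?_⟩
        obtain ⟨u, hu, hub⟩ := hg.2 w
        exact ⟨bk (d := fun _ : Fin 1 => t) u 0, mem_IId.1 hu.2 0, fun K => hub ⟨0, K⟩⟩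
      exact bezout_F_zero hA hP hK hpos hr (f := bk (d := fun _ : Fin 1 => t) F 0)
        (by rwa [← hB]) hz (by rwa [← hB])
    have h1 := ht_ge_of_dist hK hZ30le key
    have h2 : ((finrank K Z3 - finrank K Z30 : ℕ) : ℤ) = (finrank K Z3 : ℤ) - finrank K Z30 :=
      Nat.cast_sub (Submodule.finrank_mono hZ30le)
    rw [← h2] at h1
    have hs1 : (Function.support fun w : Place κ L => (δ w : ℤ)).Finite := by
      refine hδ.subset fun w hw h0 => hw ?_
      simp only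
      rw [h0, Nat.cast_zero]
    have hx0 : X.x ≠ 0 := by
      intro h0
      have := X.h0
      rw [h0] at this
      simp at this
    have hx1 : ∀ w : Place κ L, 1 ≤ vmax w.1 X.x := fun w => by
      rw [X.vmax_x]
      exact le_max_left _ _
    have h3 : ht κ Z2 ≤ ht κ Z + ((∑ᶠ w, (δ w : ℤ)) + 2 * height κ X.x) +
        finrank K L * (genus κ K + 1) := by
      have hs2 : (Function.support fun w : Place κ L => 2 * log (vmax w.1 X.x)).Finite := by
        refine (h.vmax_support hx0).subset fun w hw h0 => hw ?_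
        have h0' : log (vmax w.1 X.x) = 0 := h0
        simp only
        rw [h0', mul_zero]
      have h5 : ∑ᶠ w : Place κ L, ((δ w : ℤ) + 2 * log (vmax w.1 X.x)) =
          (∑ᶠ w, (δ w : ℤ)) + 2 * height κ X.x := by
        rw [finsum_add_distrib hs1 hs2, ← mul_finsum]
        rfl
      rw [← h5]
      refine ht_inf_ker_K hK (resK K φ₀) ((hs1.union hs2).subset (Function.support_add _ _))
        (fun w => ?_) (fun w u hu hub => ?_)
      · have h8 : vmax w.1 X.x ≠ 0 := by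
          intro h0
          have := hx1 w
          rw [h0] at this
          exact absurd this (by simp)
        have h9 : 0 ≤ log (vmax w.1 X.x) := by
          rw [← log_one]
          exact (log_le_log one_ne_zero h8).2 (hx1 w)
        positivity
      · have h8 : vmax w.1 X.x ≠ 0 := by
          intro h0
          have := hx1 w
          rw [h0] at this
          exact absurd this (by simp)
        rw [resK_apply, hφ₀, dF_apply]
        refine Valuation.map_sum_le _ fun s _ => ?_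
        rw [map_mul]
        have h7 := der_le (hDδ s) w (hx1 w) (y := X.y₁) (by
          rw [X.vmax_x]; exact le_max_right _ _)
        calc w.1 (am L u s) * w.1 (D' s X.y₁) ≤ 1 * _ := mul_le_mul' (hub s) h7
          _ = exp ((δ w : ℤ) + 2 * log (vmax w.1 X.x)) := by
            rw [one_mul]
            conv_lhs => rw [← exp_log h8]
            rw [← exp_nsmul, ← exp_add, nsmul_eq_mul, add_comm]
            norm_num
    have h4 : ht κ Z3 ≤ ht κ Z2 + T + finrank K L * (genus κ K + 1) :=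
      ht_inf_ker_K' hK (Z := Z2) l hτ (fun w u hu hub => hl w (am L u) (hpt u hu) hub) hT0 hT
    have h5 := ht_nonneg hK Z30
    have h6 : ((r * P.natDegree : ℕ) : ℤ) * (ht κ Z3 - ht κ Z30) ≤
        ((r * P.natDegree : ℕ) : ℤ) * (ht κ Z + (∑ᶠ w, (δ w : ℤ)) + 2 * height κ X.x + T +
          2 * (finrank K L * (genus κ K + 1))) :=
      mul_le_mul_of_nonneg_left (by linarith) (Int.natCast_nonneg _)
    nlinarith

/-- **Section 4 over `K`**: the height of the plane curve is bounded by the errors over `K`, for a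
constant form `y` as in Lemma G. -/
theorem gh_le_errorsF (hK : IsFF κ K) {n p d₀ b r' : ℕ} {X : DatG κ (L := L) n d₀} {A : L[X][X]}
    (hA : CrvE X b A) {E : Fin (n + 1) → Derivation ℤ K K} {P : K[X][X]} (hP : CrvK X A E P)
    (hpos : 0 < height κ X.x) (hr' : finrank K L ≤ r') {d : Fin p → ℕ}
    {D : (Σ j, EX (n + 1) (d j)) → Derivation ℤ K K}
    {δ : Place κ K → ℕ} (hδ : (Function.support δ).Finite) (hD : ∀ s, PoleBound κ (D s) δ)
    -- the block and the form `y`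
    (j₁ : Fin p) {e₁ a : ℕ} (he₁ : 1 ≤ e₁) (y : EX (n + 1) a → κ)
    (hy : ∀ u : EX (n + 1) e₁ → K, my (d j₁) (fun I => algebraMap κ K (y I)) u ∈
      Sj (ZF P (BK E P) D) P (BK E P) j₁ → u ∈ VI P (BK E P) e₁)
    -- the coordinates of the space
    (W' : DatP κ (L := L) n) (hPx : W'.x = X.x) (hPz : W'.z = X.z) (hP0 : W'.ξ₀ = X.ξ₀)
    (hP1 : W'.ξ₁ = X.ξ₁) {c : Fin 4 → Fin (n + 1) → κ} (hc0 : c 0 = W'.z')
    (hc1 : ∀ j, c 1 j = (W'.ξ₀ j : κ)) (hc2 : ∀ j, c 2 j = (W'.ξ₁ j : κ)) (hc3 : c 3 = W'.z)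
    -- the conormal lemma
    {e : ℕ} (hcon : ∀ F : (Σ j, EX (n + 1) (d j)) → K, F ∉ ZF P (BK E P) D →
      ∃ f ∈ VI P (BK E P) e, (fun I => dF D F (f I)) ∉ VI P (BK E P) e)
    -- the codimensions
    {ρ₀ w v' W : ℕ} (hρ : ρ₀ + finrank K (dvS P (BK E P)) ≤ n + 1) (hρ0 : 0 < ρ₀)
    (hw : Fintype.card (Σ j, EX (n + 1) (d j)) ≤ finrank K (ZF P (BK E P) D) + w)
    (hv' : Fintype.card (EX (n + 1) (e + 1)) ≤ finrank K (VI P (BK E P) (e + 1)) + v')
    (hwW : w ≤ W * ρ₀) (hv'm : v' ≤ 2 * (e + 1) * P.natDegree)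
    -- no form of small degree vanishes on the curve
    {N bs : ℕ} {C₀ : ℝ} (hN : Fintype.card (EX 4 bs) ≤ N) (hC₀ : 0 ≤ C₀)
    (hsl : ∀ Q : Submodule L (Fin (n + 1) → L), X.x ∈ Q →
      n * ((height κ X.x : ℝ) - ht κ Q) ≤ C₀ * height κ X.x * ((finrank L Q : ℝ) - 1))
    (hn : 2 * C₀ * N < n) {β : ℤ}
    (hβ : β = N * (bs * gh κ P + genus κ K + 1) + genus κ K + 1)
    (hβ1 : r' * (bs * gh κ P + P.natDegree * β) < height κ X.x)
    (hβ2 : 2 * (N * (2 * (finrank K L * β) + W'.Δ)) ≤ height κ X.x)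
    -- the numbers
    (hc1' : 12 * w ≤ (bs + 1) * e₁ ^ 2) (hc2' : 42 * w ≤ e₁ ^ 3)
    (hbig : 48 * (4 * W * (e + 1) ^ 2) ≤ e₁ ^ 2) :
    ((e₁ : ℕ) : ℤ) ^ 2 * gh κ P ≤
      48 * (4 * W * (e + 1) * P.natDegree + w + Fintype.card (EX 4 e₁)) *
        ((∑ᶠ v, (δ v : ℤ)) + (genus κ K + 1)) := by
  have hm : 0 < P.natDegree := Nat.pos_of_ne_zero hP.deg
  have hg : 0 ≤ gh κ P := gh_nonneg hK hP.irr.ne_zero
  have hZle := ht_ZF_K_num hK hA hP hpos hδ hD hcon hρ hρ0 hw hv' hwW hv'm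
  obtain ⟨γ, hγ⟩ : ∃ γ : ℤ, γ = (genus κ K : ℤ) + 1 := ⟨_, rfl⟩
  have hγ0 : 0 ≤ γ := by rw [hγ]; positivity
  obtain ⟨Δ, hΔ⟩ : ∃ Δ : ℤ, Δ = ∑ᶠ v, (δ v : ℤ) := ⟨_, rfl⟩
  have hΔ0 : 0 ≤ Δ := by rw [hΔ]; exact finsum_nonneg fun w => Int.natCast_nonneg _
  rw [← hγ, ← hΔ] at hZle
  -- the height of `K`
  have hKle : ht κ (KY c j₁ e₁ y P (BK E P) D) ≤ ht κ (ZF P (BK E P) D) :=
    ht_KY_le hK _ _ _ _ _ _
  -- elimination
  obtain ⟨q, hq⟩ : ∃ q : Fin 4 → K[X][X], q =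
      ![B4 (fun i j => algebraMap κ K (c i j)) (BK E P) 0, derivative P,
        C Polynomial.X * derivative P, Polynomial.X * derivative P] := ⟨_, rfl⟩
  have hnat : ∀ (ξ : Fin (n + 1) → ℕ), ∑ j, C (C (algebraMap κ K ((ξ j : ℕ) : κ))) * BK E P j =
      ∑ j, C (C ((ξ j : ℕ) : K)) * BK E P j := by
    intro ξ
    exact Finset.sum_congr rfl fun j _ => by rw [map_natCast]
  have hVI : ∀ e' : ℕ, VI P (B4 (fun i j => algebraMap κ K (c i j)) (BK E P)) e' =
      VI P q e' := by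
    have q0 : q 0 = B4 (fun i j => algebraMap κ K (c i j)) (BK E P) 0 := by rw [hq]; rfl
    have q1 : q 1 = derivative P := by rw [hq]; rfl
    have q2 : q 2 = C Polynomial.X * derivative P := by rw [hq]; rfl
    have q3 : q 3 = Polynomial.X * derivative P := by rw [hq]; rfl
    refine VI_congr fun j => ?_
    match j with
    | 0 => rw [q0, sub_self]; exact dvd_zero _
    | 1 =>
      rw [q1]
      have h1 := hP.r0
      rw [← hP0] at h1
      have h2 : B4 (fun i j => algebraMap κ K (c i j)) (BK E P) 1 =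
          ∑ j, C (C ((W'.ξ₀ j : ℕ) : K)) * BK E P j := by
        rw [← hnat]
        unfold B4
        exact Finset.sum_congr rfl fun j _ => by simp only [hc1]
      rw [h2]
      exact h1
    | 2 =>
      rw [q2]
      have h1 := hP.r1
      rw [← hP1] at h1
      have h2 : B4 (fun i j => algebraMap κ K (c i j)) (BK E P) 2 =
          ∑ j, C (C ((W'.ξ₁ j : ℕ) : K)) * BK E P j := by
        rw [← hnat]
        unfold B4
        exact Finset.sum_congr rfl fun j _ => by simp only [hc2]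
      rw [h2]
      exact h1
    | 3 =>
      rw [q3]
      have h1 := hP.r2
      rw [← hPz] at h1
      have h2 : B4 (fun i j => algebraMap κ K (c i j)) (BK E P) 3 =
          ∑ j, C (C (algebraMap κ K (W'.z j))) * BK E P j := by
        unfold B4
        exact Finset.sum_congr rfl fun j _ => by simp only [hc3]
      rw [h2]
      exact h1
  have hbs := no_small_form_F hK hA hP hpos hr' W' hPx hc0 hc1 hc2 hc3 hN hC₀ hsl hn hβ hβ1 hβ2
  have hfin := elim4 hK hP.irr hP.sep (q := q) (by rw [hq]; rfl) (by rw [hq]; rfl)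
    (by rw [hq]; rfl) he₁ (K := KY c j₁ e₁ y P (BK E P) D) ((KY_le c j₁ hy).trans (hVI _).le)
    (KY_codim c j₁ y P (BK E P) D hw) (fun e' he' => by rw [← hVI]; exact hbs e' he') hc1' hc2'
  rw [← hγ] at hfin
  rw [← hγ, ← hΔ]
  -- the numbers
  have hbig' : (48 : ℤ) * (4 * W * (e + 1) ^ 2) ≤ (e₁ : ℤ) ^ 2 := by
    exact_mod_cast hbig
  have h5 := mul_le_mul_of_nonneg_right hbig' hg
  have h6 : (0 : ℤ) ≤ (4 * W * (e + 1) * P.natDegree +
      Fintype.card (EX 4 e₁)) * Δ := by positivity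
  nlinarith [hfin, hKle, hZle, h5, h6]

end Pool.Agent.Lib.MP_44a246_ntTV
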