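import Mathlib
import Pool.Agent.Lib.MP_44a246_ntHU.HA02
import Pool.Agent.Lib.MP_44a246_ntUV.UV05
import Pool.Agent.Lib.MP_44a246_ntUV.UV10
import Pool.Agent.Lib.MP_44a246_ntTK.TK15
import Pool.Agent.Lib.MP_44a246_ntTK.TK14b
import Pool.Agent.Lib.MP_44a246_ntTV.TV12
import Pool.Agent.Lib.MP_44a246_ntTV.TV23

/-!
# The output over the field of the point, on an arbitrary variety, for points of bounded degree and
any number of places of contact

The ramification and the contact places are counted once; the errors are constants which depend on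
the base field `K` only. There is no condition on the field generated by the coordinates.
-/

namespace Pool.Agent.Lib.MP_44a246_ntTV

open Pool.Agent.Lib.MP_44a246_nt
open Pool.Agent.Lib.MP_44a246_ntL
open Pool.Agent.Lib.MP_44a246_ntS
open Pool.Agent.Lib.MP_44a246_ntX
open Pool.Agent.Lib.MP_44a246_ntG
open Pool.Agent.Lib.MP_44a246_ntK
open Pool.Agent.Lib.MP_44a246_ntF
open Pool.Agent.Lib.MP_44a246_ntO
open Pool.Agent.Lib.MP_44a246_ntSH
open Pool.Agent.Lib.MP_44a246_ntSP
open Pool.Agent.Lib.MP_44a246_ntUV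
open Pool.Agent.Lib.MP_44a246_ntVT
open Pool.Agent.Lib.MP_44a246_ntHU
open Pool.Agent.Lib.MP_44a246_ntTK
open Pool.Agent.Lib.MP_44a246_ntR (genus)
open Pool.Agent.Lib.MP_e52354_nt
open WithZero Module Polynomial

universe u v w

/-- **The output over the field of the point**, on an arbitrary variety, for points of degree at
most `r` over `K` and any number of contact places, the ramification and the contact places counted
once. Either the height is bounded, or there is a certificate whose height is bounded: for `n` large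
it comes either from a curve of degree at most `n / (400 q)`, or from a curve of degree at most
`Cb n` which spans a space of dimension at least `n / (4000 q)`. -/
theorem level_colK' (p k q r : ℕ) (ε : ℝ) (hp : 1 ≤ p) (hr : 1 ≤ r)
    (hq : q = p * (4 * p + 1) * (k + 3)) (hε : 0 < ε) (hε1 : ε ≤ 1) : ∃ n₀ Cb : ℕ,
    ∀ (n : ℕ) (d : Fin p → ℕ), n₀ ≤ n → (∀ j, 1 ≤ d j) → n + 2 ≤ ∑ j, d j →
    ∀ (κ : Type u) (K : Type v) [Field κ] [IsAlgClosed κ] [CharZero κ] [Field K] [CharZero K]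
      [Algebra κ K] (_ : IsFF κ K) (Cd : ℕ) (a : Fin p → (Fin (n + 1) →₀ ℕ) → K),
    ∃ C : ℕ, ∀ (L : Type w) [Field L] [Algebra K L] [FiniteDimensional K L]
      [Algebra κ L] [IsScalarTower κ K L], finrank K L ≤ r →
      ∀ (X : DatSC κ (L := L) n d) (O : OverK κ K X),
      X.a = (fun j I => algebraMap K L (a j I)) → O.Δ ≤ Cd →
      (∀ w : Place κ L, X.δ w = ramIdx K w.1 * O.δ (below K w)) →
      X.toDatC.Δ = finrank K L * O.Δ → X.toDatC.R = ramDeg κ L K →
      ∀ (vl : Fin p → L) (g : Fin p → Fin (n + 1) → L), ColC X.toDatC vl g →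
      ∀ T : Finset (Place κ L),
      (∀ w ∉ T, ∀ j, vl j ≠ 0 → w.1 (vl j) = vmax w.1 X.x ^ d j) →
      (ramDeg κ L K : ℤ) ≤ k * height κ X.x →
      (ramDeg κ L K : ℝ) + T.card + ε * height κ X.x ≤
        ((∑ j, d j : ℕ) - (n : ℝ) - 1) * height κ X.x →
      height κ X.x ≤ C ∨ CertV κ (n / (400 * q)) 1 C X.x ∨
      CertV κ (Cb * n) (n / (4000 * q) + 1) C X.x := by
  have hq1 : 1 ≤ q := by
    rw [hq]
    exact Nat.mul_pos (Nat.mul_pos hp (by omega)) (by omega)
  have hq5 : 15 * p ≤ q := by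
    rw [hq]
    have h2 : 5 * p ≤ p * (4 * p + 1) := by
      rw [mul_comm]
      exact Nat.mul_le_mul_left _ (by omega)
    have h3 : p * (4 * p + 1) * (k + 3) = p * (4 * p + 1) * k + p * (4 * p + 1) * 3 := by ring
    omega
  obtain ⟨C₀, hC₀⟩ : ∃ C₀ : ℕ, C₀ = 2000 * q := ⟨_, rfl⟩
  obtain ⟨nh, C₈, Cb, hH⟩ := half_hatUV.{w, u} p C₀ k ε (by omega) (by omega) hε hε1
  obtain ⟨ng, hG⟩ := gh_le_sec4F.{w, u, v} p C₀ C₈ Cb k r (by omega) (by omega) (by omega)
  refine ⟨nh + ng + 20000 * q + C₀ + k + 3 + 3 * p + p * (46 * r), Cb, fun n d hn hd1 hd => ?_⟩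
  intro κ K _ _ _ _ _ _ hK Cd a
  obtain ⟨b, hb⟩ : ∃ b : ℕ, b = n / (400 * q) := ⟨_, rfl⟩
  have hb1 : 400 * q * b ≤ n := by
    rw [hb]
    exact Nat.mul_div_le n (400 * q)
  have hb2 : n < 400 * q * (b + 1) := by
    rw [hb, mul_add, mul_one]
    have := Nat.div_add_mod n (400 * q)
    have h2 := Nat.mod_lt n (show 0 < 400 * q by omega)
    omega
  have hb6 : 6 ≤ b := by
    rw [hb, Nat.le_div_iff_mul_le (by omega)]
    omega
  have hbn : 400 * p * (b * (4 * p + 1)) * (k + 3) ≤ n := by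
    refine le_trans (le_of_eq ?_) hb1
    rw [hq]
    ring
  have hbC : 42 * (20 * n + 9 * C₀) ≤ 180 * (C₀ * b) := by
    have h1 : C₀ * b = 5 * (400 * q * b) := by
      rw [hC₀]
      ring
    have h2 : 400 * q * (b + 1) = 400 * q * b + 400 * q := by ring
    rw [h2] at hb2
    rw [h1]
    omega
  obtain ⟨ch, hch⟩ := hH n b d (by omega) hd1 hd hb6 hbn hbC
  obtain ⟨t, htd⟩ : ∃ t : ℕ, t = n / p := ⟨_, rfl⟩
  have ht1 : p * t ≤ n := by
    rw [htd]
    exact Nat.mul_div_le n p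
  have ht2 : n < p * (t + 1) := by
    rw [htd, mul_add, mul_one]
    have := Nat.div_add_mod n p
    have h2 := Nat.mod_lt n (show 0 < p by omega)
    omega
  have htn : t ≤ n := by
    refine le_trans ?_ ht1
    exact Nat.le_mul_of_pos_left _ (by omega)
  have ht46 : 46 * r ≤ t := by
    rw [htd, Nat.le_div_iff_mul_le (by omega), mul_comm]
    omega
  obtain ⟨cg, hcg⟩ := hG n t (by omega) ht1 ht2
  -- the parts of the constant
  obtain ⟨D₀, hD₀⟩ : ∃ D₀ : ℕ, D₀ = Cd + genus κ K + 1 := ⟨_, rfl⟩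
  obtain ⟨G, hG'⟩ : ∃ G : ℕ, G = cg * D₀ := ⟨_, rfl⟩
  obtain ⟨c₁, hc₁⟩ : ∃ c₁ : ℕ, c₁ = ch * (r * Cd + 2 * Cd * r) := ⟨_, rfl⟩
  obtain ⟨c₄, hc₄⟩ : ∃ c₄ : ℕ, c₄ = (9 * (Cb * n) + 6 * (n + 1)) * (G + r * Cd) := ⟨_, rfl⟩
  obtain ⟨c₅, hc₅⟩ : ∃ c₅ : ℕ, c₅ = (27 * t ^ 2 + 2 * (9 * b + 6 * (n + 1))) * (r * Cd) :=
    ⟨_, rfl⟩
  refine ⟨c₁ + c₄ + c₅ + G + Cd + 2 * G + 3 * (r * Cd), ?_⟩
  intro L _ _ _ _ _ hrL X O hXa hOΔ hXδ hXΔ hXR vl g hc T hT' hTq hTε
  classical
  have hL : IsFF κ L := hK.of_finite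
  have : CharZero L := charZero_of_injective_algebraMap (algebraMap K L).injective
  rcases le_or_gt (height κ X.x) ((c₁ + c₄ + c₅ + G + Cd + 2 * G + 3 * (r * Cd) : ℕ) : ℤ) with
    hle | hgt
  · exact Or.inl hle
  right
  have hO0 : 0 ≤ O.Δ := O.Δ_nonneg
  have hrL' : (finrank K L : ℤ) ≤ r := by exact_mod_cast hrL
  have hΔr : X.toDatC.Δ ≤ r * O.Δ := by
    rw [hXΔ]
    exact mul_le_mul_of_nonneg_right hrL' hO0
  have hΔC : X.toDatC.Δ ≤ ((r * Cd : ℕ) : ℤ) := by
    refine hΔr.trans ?_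
    push_cast
    exact mul_le_mul_of_nonneg_left hOΔ (Int.natCast_nonneg _)
  have hc50 : (0 : ℤ) ≤ (c₅ : ℤ) := Int.natCast_nonneg _
  have hpgt : (c₁ : ℤ) + c₄ + c₅ + G + Cd + 2 * G + 3 * (r * Cd) < height κ X.x := by
    have h1 := hgt
    push_cast at h1
    linarith
  have hg0 : (0 : ℤ) ≤ (G : ℤ) := Int.natCast_nonneg _
  have hcd0 : (0 : ℤ) ≤ (Cd : ℤ) := Int.natCast_nonneg _
  have hrcd0 : (0 : ℤ) ≤ (r : ℤ) * Cd := by positivity
  have hc10 : (0 : ℤ) ≤ (c₁ : ℤ) := Int.natCast_nonneg _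
  have hc40 : (0 : ℤ) ≤ (c₄ : ℤ) := Int.natCast_nonneg _
  have hpos : 0 < height κ X.x := by linarith
  -- the rows
  obtain ⟨R, hRx, hRΔ, hRR, hRU⟩ := exists_rowT_datV hK (toDatV X hc) O T hT'
  have hT0 : (0 : ℤ) ≤ T.card := Int.natCast_nonneg _
  rcases hch κ L hL (toDatV X hc) T R hRx hRU
    (by
      have h0 : (toDatV X hc).toDatC.R = ramDeg κ L K := hXR
      rw [h0]
      exact hRR) hT'
    (by
      have h0 : (toDatV X hc).toDatC.R = ramDeg κ L K := hXR
      rw [h0]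
      exact hTq)
    (by
      have h0 : (toDatV X hc).toDatC.R = ramDeg κ L K := hXR
      rw [h0]
      exact_mod_cast hTε) with h1 | ⟨j, h1, h2, h3⟩ | ⟨hsl, α, hα, hαs, hpl⟩
  · -- the height is small
    exfalso
    have h0 : height κ X.x ≤ ch * (X.toDatC.Δ + R.Δ') := h1
    have h2 : (ch : ℤ) * (X.toDatC.Δ + R.Δ') ≤ c₁ := by
      rw [hc₁]
      push_cast
      refine mul_le_mul_of_nonneg_left ?_ (Int.natCast_nonneg _)
      have hRΔ' : R.Δ' ≤ 2 * O.Δ * finrank K L := hRΔ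
      have h3 : R.Δ' ≤ 2 * Cd * r := hRΔ'.trans (mul_le_mul (by linarith) hrL'
        (Int.natCast_nonneg _) (by linarith))
      push_cast at hΔC
      linarith
    linarith
  · -- the curves of small degree
    left
    rw [← htd] at h1 h2 h3
    have ht0 : 1 ≤ t := by omega
    have hj46 : 46 * finrank K L ≤ t ^ 2 := by
      have h6 : t ≤ t ^ 2 := by
        rw [pow_two]
        exact Nat.le_mul_of_pos_left _ ht0
      have h7 : 46 * finrank K L ≤ 46 * r := Nat.mul_le_mul_left _ hrL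
      omega
    have hne : n + 2 ≤ (4 * p + 1) * t := by
      have h4 : (4 * p + 1) * t = p * t + 3 * (p * t) + t := by ring
      have h5 : p * (t + 1) = p * t + p := by ring
      have h6 : p * 1 ≤ p * t := Nat.mul_le_mul_left _ ht0
      omega
    have hbe : 100 * (b * (4 * p + 1) * (2 * k + 3)) ≤ t := by
      have h4 : p * (400 * (b * (4 * p + 1)) * (k + 3)) ≤ n := by
        refine le_trans (le_of_eq ?_) hbn
        ring
      have h5 : 400 * (b * (4 * p + 1)) * (k + 3) ≤ t := by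
        rw [htd, Nat.le_div_iff_mul_le (by omega), mul_comm]
        exact h4
      refine le_trans ?_ h5
      calc 100 * (b * (4 * p + 1) * (2 * k + 3)) = 100 * (b * (4 * p + 1)) * (2 * k + 3) := by ring
        _ ≤ 100 * (b * (4 * p + 1)) * (4 * (k + 3)) := Nat.mul_le_mul_left _ (by omega)
        _ = _ := by ring
    have hbig : (27 * (t : ℤ) ^ 2 + 2 * (9 * (b : ℤ) + 6 * (n + 1))) * X.toDatC.Δ <
        height κ X.x := by
      have h4 : (27 * (t : ℤ) ^ 2 + 2 * (9 * (b : ℤ) + 6 * (n + 1))) * X.toDatC.Δ ≤ c₅ := by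
        rw [hc₅]
        refine (mul_le_mul_of_nonneg_left hΔC (by positivity)).trans (le_of_eq ?_)
        push_cast
        ring
      linarith
    have h4 : CertV κ b 1 (3 * X.toDatC.Δ) X.x :=
      certV_of_smallIU_K hK (toDatV X hc) hXa O hXδ T hT' h1 h2 hb6 hne hbe
        (by
          show X.toDatC.R ≤ k * height κ X.x
          rw [hXR]
          exact hTq) hj46 h3 hbig
    rw [← hb]
    refine CertV.mono le_rfl ?_ h4
    push_cast
    push_cast at hΔC
    linarith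
  · -- the moving curve
    right
    obtain ⟨X', b', A, hX', hb', hcrv, hgh⟩ := exists_crvN hL X ⟨0, hp⟩ hpl hαs
    obtain ⟨s', hs0', hs'⟩ := hX'.x
    have hX'x : X'.x = s' • X.x := hs'
    have hh' : height κ X'.x = height κ X.x := by
      rw [hs']
      exact hL.height_smul hs0'
    have hΔ' : X'.toDatC.Δ = X.toDatC.Δ := by
      show ∑ᶠ w, (X'.δ w : ℤ) = ∑ᶠ w, (X.δ w : ℤ)
      rw [hX'.δ]
    have hR' : X'.toDatC.R = X.toDatC.R := by
      show ∑ᶠ w, (X'.ρ w : ℤ) = ∑ᶠ w, (X.ρ w : ℤ)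
      rw [hX'.ρ]
    have hsl' : ∀ Q : Submodule L (Fin (n + 1) → L), X'.x ∈ Q →
        n * ((height κ X'.x : ℝ) - ht κ Q) ≤ C₀ * height κ X'.x * ((finrank L Q : ℝ) - 1) := by
      intro Q hQ
      rw [hh']
      refine hsl Q ?_
      rw [hX'x] at hQ
      exact (Q.smul_mem_iff hs0').1 hQ
    have hc' : ColC X'.toDatC (fun j => s' ^ d j * vl j) (fun j i => s' ^ (d j - 1) * g j i) :=
      hc.smul hd1 hs' hX'.D
    have hS' : ∀ w ∉ T, ∀ j, (toDatV X' hc').val j ≠ 0 →
        w.1 ((toDatV X' hc').val j) = vmax w.1 (toDatV X' hc').x ^ d j := by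
      intro w hw j hj
      have hv : (toDatV X' hc').val j = s' ^ d j * vl j := rfl
      have hx : (toDatV X' hc').x = fun i => s' * X.x i := hs'
      rw [hv] at hj ⊢
      rw [hx, map_mul, map_pow, hT' w hw j (right_ne_zero_of_mul hj), vmax_smul, mul_pow]
    have hHp : (0 : ℝ) < height κ X.x := by exact_mod_cast hpos
    have hSc : (T.card : ℤ) ≤ (((∑ j, d j : ℕ) : ℤ) - n - 1) * height κ X'.x := by
      rw [hh']
      have h1 : (0 : ℝ) ≤ ε * height κ X.x := mul_nonneg hε.le hHp.le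
      have h4 : (0 : ℝ) ≤ (ramDeg κ L K : ℝ) := Nat.cast_nonneg _
      have h2 : (T.card : ℝ) ≤ ((∑ j, d j : ℕ) - (n : ℝ) - 1) * height κ X.x := by linarith
      exact_mod_cast h2
    have hOΔ' : (O.same hX').Δ = O.Δ := O.same_Δ hX'
    have hcgD : cg * (O.Δ + genus κ K + 1) ≤ (G : ℤ) := by
      rw [hG', hD₀]
      push_cast
      refine mul_le_mul_of_nonneg_left ?_ (Int.natCast_nonneg _)
      linarith
    have b3 : cg * ((O.same hX').Δ + genus κ K + 1) < height κ X'.x := by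
      rw [hOΔ', hh']
      linarith
    obtain ⟨j₁, htj, hN⟩ := exists_blockU (toDatV X' hc') T hp (e := t) (by omega)
      (by
        show 0 < height κ X'.x
        rw [hh']
        exact hpos) hSc
    obtain ⟨DK, D', τ', hDD, hPBK, hPB, hτ', hτs', hl⟩ :=
      exists_defU_K hL (toDatV X' hc') (O.same hX') T hS' j₁ htj hN
    have hgA := (hcg κ K L hK hrL p d X' (O.same hX') ⟨0, hp⟩ b' A hcrv hb' hsl'
      (by
        rw [hh']
        exact (mul_le_mul_of_nonneg_right hgh (by positivity)).trans hα) DK D' hDD hPBK hPB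
      τ' hτ' hτs' hl (by rw [hΔ', hOΔ']; exact hΔr)
      (by
        rw [hR', hXR, hh']
        exact hTq) b3).1
    have hgA' : gh κ A ≤ (G : ℤ) := by
      rw [hOΔ'] at hgA
      exact hgA.trans hcgD
    have hsl2 : ∀ Q : Submodule L (Fin (n + 1) → L), X'.x ∈ Q → 2 * ht κ Q ≤ height κ X'.x →
        n / (4000 * q) + 1 ≤ finrank L Q := by
      intro Q hQ hQ2
      have hhp : (0 : ℝ) < height κ X'.x := by
        rw [hh']
        exact hHp
      have h1 := hsl' Q hQ
      have h2 : (2 : ℝ) * ht κ Q ≤ height κ X'.x := by exact_mod_cast hQ2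
      have h3 : (n : ℝ) * height κ X'.x ≤ 2 * C₀ * ((finrank L Q : ℝ) - 1) * height κ X'.x := by
        have h4 : (n : ℝ) * height κ X'.x ≤ 2 * (n * ((height κ X'.x : ℝ) - ht κ Q)) := by
          have h5 : (n : ℝ) * (2 * ht κ Q) ≤ n * height κ X'.x :=
            mul_le_mul_of_nonneg_left h2 (by positivity)
          linarith
        linarith
      have h6 : (n : ℝ) ≤ 2 * C₀ * ((finrank L Q : ℝ) - 1) := le_of_mul_le_mul_right h3 hhp
      have h7 : 1 ≤ finrank L Q := by
        have h0 : X'.x ≠ 0 := by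
          intro h0
          have h8 := X'.h0
          rw [h0] at h8
          simp at h8
        exact one_le_finrank_aux h0 hQ
      have h8 : n ≤ 4000 * q * (finrank L Q - 1) := by
        have h9 : ((n : ℕ) : ℝ) ≤ ((4000 * q * (finrank L Q - 1) : ℕ) : ℝ) := by
          push_cast [Nat.cast_sub h7]
          have h10 : (C₀ : ℝ) = 2000 * q := by
            rw [hC₀]
            push_cast
            ring
          rw [h10] at h6
          linarith
        exact_mod_cast h9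
      have h9 : n / (4000 * q) ≤ finrank L Q - 1 := Nat.div_le_of_le_mul h8
      omega
    have b4 : (9 * ((Cb * n : ℕ) : ℤ) + 6 * (n + 1)) * ((G : ℤ) + X'.toDatC.Δ) <
        height κ X'.x := by
      rw [hΔ', hh']
      have h2 : (9 * ((Cb * n : ℕ) : ℤ) + 6 * (n + 1)) * ((G : ℤ) + X.toDatC.Δ) ≤ (c₄ : ℤ) := by
        rw [hc₄]
        push_cast
        push_cast at hΔC
        exact mul_le_mul_of_nonneg_left (by linarith) (by positivity)
      linarith
    have h2 := certV_of_curve hL X' hsl2 hcrv.toCrvG hb' hgA' b4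
    rw [hΔ', hs'] at h2
    have h3 := CertV.of_smul hs0' h2
    refine CertV.mono le_rfl ?_ h3
    push_cast
    push_cast at hΔC
    linarith


/-- **The output over the field of the point**, on an arbitrary variety, for points of degree at
most `r` over `K` and any number of contact places, the ramification and the contact places counted
once: either the height is bounded, or there is a certificate whose degree and height are
bounded. -/
theorem level_colK (p q r : ℕ) (ε : ℝ) (hε : 0 < ε) : ∃ n₀ : ℕ,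
    ∀ (n : ℕ) (d : Fin p → ℕ), n₀ ≤ n → (∀ j, 1 ≤ d j) → n + 2 ≤ ∑ j, d j →
    ∃ B : ℕ,
    ∀ (κ : Type u) (K : Type v) [Field κ] [IsAlgClosed κ] [CharZero κ] [Field K] [CharZero K]
      [Algebra κ K] (_ : IsFF κ K) (Cd : ℕ) (a : Fin p → (Fin (n + 1) →₀ ℕ) → K),
    ∃ C : ℕ, ∀ (L : Type w) [Field L] [Algebra K L] [FiniteDimensional K L]
      [Algebra κ L] [IsScalarTower κ K L], finrank K L ≤ r →
      ∀ (X : DatSC κ (L := L) n d) (O : OverK κ K X),
      X.a = (fun j I => algebraMap K L (a j I)) → O.Δ ≤ Cd →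
      (∀ w : Place κ L, X.δ w = ramIdx K w.1 * O.δ (below K w)) →
      X.toDatC.Δ = finrank K L * O.Δ → X.toDatC.R = ramDeg κ L K →
      ∀ (vl : Fin p → L) (g : Fin p → Fin (n + 1) → L), ColC X.toDatC vl g →
      ∀ T : Finset (Place κ L),
      (∀ w ∉ T, ∀ j, vl j ≠ 0 → w.1 (vl j) = vmax w.1 X.x ^ d j) →
      (ramDeg κ L K : ℤ) ≤ q * height κ X.x →
      (ramDeg κ L K : ℝ) + T.card + ε * height κ X.x ≤
        ((∑ j, d j : ℕ) - (n : ℝ) - 1) * height κ X.x →
      height κ X.x ≤ C ∨ CertV κ B 1 C X.x := by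
  rcases Nat.eq_zero_or_pos p with hp | hp
  · refine ⟨0, fun n d _ _ hd => ?_⟩
    exfalso
    subst hp
    simp at hd
  obtain ⟨n₀, Cb, h⟩ := level_colK'.{u, v, w} p q _ (max r 1) (min ε 1) hp (le_max_right _ _) rfl
    (lt_min hε one_pos) (min_le_right _ _)
  refine ⟨n₀, fun n d hn hd1 hd => ⟨n / (400 * (p * (4 * p + 1) * (q + 3))) + Cb * n,
    fun κ K _ _ _ _ _ _ hK Cd a => ?_⟩⟩
  obtain ⟨C, hC⟩ := h n d hn hd1 hd κ K hK Cd a
  refine ⟨C, ?_⟩
  intro L _ _ _ _ _ hrL X O hXa hOΔ hXδ hXΔ hXR vl g hc T hT hTq hTε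
  have hL : IsFF κ L := hK.of_finite
  have hX0 : X.x ≠ 0 := by
    intro h4
    have h5 := X.h0
    rw [h4] at h5
    simp at h5
  have h0 : (0 : ℝ) ≤ height κ X.x := by exact_mod_cast hL.height_nonneg hX0
  rcases hC L (hrL.trans (le_max_left _ _)) X O hXa hOΔ hXδ hXΔ hXR vl g hc T hT hTq (by
    have h1 : min ε 1 * height κ X.x ≤ ε * height κ X.x :=
      mul_le_mul_of_nonneg_right (min_le_left _ _) h0
    linarith) with h1 | h1 | h1
  · exact Or.inl h1
  · exact Or.inr (CertV.mono (Nat.le_add_right _ _) le_rfl h1)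
  · exact Or.inr (CertV.anti (Nat.le_add_left 1 _) (CertV.mono (Nat.le_add_left _ _) le_rfl h1))

end Pool.Agent.Lib.MP_44a246_ntTV
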