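import Mathlib
import Pool.Agent.Lib.MP_44a246_ntTV.TV00
import Pool.Agent.Lib.MP_44a246_ntTV.TV2a
import Pool.Agent.Lib.MP_44a246_ntTV.TV30
import Pool.Agent.Lib.MP_44a246_ntUV.UV06e

/-!
# Arbitrary varieties, points of bounded degree: the alternative at the points of the locus

The ramification and the number of contact places have the coefficient one.
-/

namespace Pool.Agent.Lib.MP_44a246_ntTV

open Pool.Agent.Lib.MP_44a246_nt
open Pool.Agent.Lib.MP_44a246_ntL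
open Pool.Agent.Lib.MP_44a246_ntS
open Pool.Agent.Lib.MP_44a246_ntX
open Pool.Agent.Lib.MP_44a246_ntG
open Pool.Agent.Lib.MP_44a246_ntK hiding prj
open Pool.Agent.Lib.MP_44a246_ntSH
open Pool.Agent.Lib.MP_44a246_ntSP
open Pool.Agent.Lib.MP_44a246_ntUV
open Pool.Agent.Lib.MP_44a246_ntTK
open Pool.Agent.Lib.MP_44a246_ntR (genus)
open Pool.Agent.Lib.MP_e52354_nt
open WithZero Module

universe u v w x y

/-- **The alternative at the points of the locus of degree at most `g` over `K`**: `θ` times the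
height is bounded by the ramification and the number of contact places (each with coefficient one)
and a constant, or there is a curve of small degree with coefficients of bounded height through the
projected point. -/
theorem level_KUVt (p q g : ℕ) (ε : ℝ) (hε : 0 < ε) : ∃ r₀ : ℕ,
    ∀ (r : ℕ) (d : Fin p → ℕ), r₀ ≤ r → (∀ j, 1 ≤ d j) → r + 2 ≤ ∑ j, d j → ∃ B : ℕ,
    ∀ {κ : Type u} {K : Type v} [Field κ] [IsAlgClosed κ] [CharZero κ] [Field K] [CharZero K]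
      [Algebra κ K] (_ : IsFF κ K) (_ : Cardinal.aleph0 ≤ Algebra.trdeg ℚ κ)
      {k : Type x} [Field k] [CharZero k] [Algebra k K] (_ : Algebra.trdeg ℚ k < Cardinal.aleph0)
      {n : ℕ} (hr : r ≤ n) {ι : Type y} {e : ι → ℕ}
      {f : ι → MvPolynomial (Fin p ⊕ Fin (n + 1)) k}
      (_ : ∀ i, (f i).IsWeightedHomogeneous (Sum.elim d fun _ => 1) (e i)) {A : Finset (Fin p)}
      (_ : ∀ i, ∀ j ∉ A, Sum.inl j ∉ (f i).vars) {η : Fin (r + 1) → Fin (n + 1) → ℤ}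
      (_ : ProjV hr ((Ideal.span (Set.range f)).comap
        (MvPolynomial.rename (Sum.inr : Fin (n + 1) → Fin p ⊕ Fin (n + 1)))) η)
      {H : Fin p → MvPolynomial (Fin (n + 1)) K} (_ : ∀ j, (H j).IsHomogeneous (d j))
      (_ : AlgebraicIndependent k
        (fun I : {I : Fin p × (Fin (n + 1) →₀ ℕ) // I.2.degree = d I.1} =>
          (H I.1.1).coeff I.1.2)),
    ∃ C : ℕ, ∀ (θ : ℝ) (_ : 0 ≤ θ) (_ : θ ≤ q) (_ : θ + ε ≤ ((∑ j, d j : ℕ) - (r + 1) : ℝ))
      (L : Type w) [Field L] [Algebra K L] [FiniteDimensional K L]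
      [Algebra κ L] [IsScalarTower κ K L] [Algebra k L] [IsScalarTower k K L]
      (_ : finrank K L ≤ g) (x : Fin (n + 1) → L), x ≠ 0 →
      (∀ i, MvPolynomial.aeval (Sum.elim (fun j => MvPolynomial.aeval x (H j)) x :
        Fin p ⊕ Fin (n + 1) → L) (f i) = 0) →
      (∃ i : A → ι, (Matrix.of fun a b : A =>
        MvPolynomial.aeval (Sum.elim (fun j => MvPolynomial.aeval x (H j)) x :
          Fin p ⊕ Fin (n + 1) → L)
          (MvPolynomial.pderiv (Sum.inl (b : Fin p)) (f (i a)))).det ≠ 0) →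
      ∀ S : Finset (Place κ L),
      (∀ w ∉ S, ∀ j ∉ A, w.1 (MvPolynomial.aeval x (H j)) = vmax w.1 x ^ d j) →
      θ * height κ x ≤ (C : ℝ) + ramDeg κ L K + S.card ∨
      CertV κ B 1 (C : ℤ) (prj η x) := by
  obtain ⟨n₀, hmain⟩ := level_colK.{u, v, w} p q g ε hε
  refine ⟨n₀, fun r d hr₀ hd1 hd => ?_⟩
  obtain ⟨B, hB⟩ := hmain r d hr₀ hd1 hd
  refine ⟨B, fun {κ K} _ _ _ _ _ _ hK htr k _ _ _ hk n hr ι e f hf A hfA η hη H hH ha => ?_⟩
  obtain ⟨a₀, C₂, hC₂⟩ := exists_datV_K.{u, v, w} hK htr hk hr hf hfA hη hH ha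
  obtain ⟨C₁, hC₁⟩ := hB κ K hK C₂ a₀
  obtain ⟨C, hC⟩ : ∃ C, C = C₁ + q * (C₁ + C₂ * g) + C₂ * g := ⟨_, rfl⟩
  refine ⟨C, ?_⟩
  intro θ hθ0 hθq hθk L _ _ _ _ _ _ _ hLg x hx hfx hrk S hS
  classical
  have hL : IsFF κ L := hK.of_finite
  have hchar : CharZero L := charZero_of_injective_algebraMap (algebraMap K L).injective
  obtain ⟨hx', -, hh, ⟨T, hT1, hT2⟩, X, O, vl, gr, c, hXa, hOΔ, hXδ, hXO, hc0, hXx, hcol, hvl, hXh,
    -, hXR, -⟩ := hC₂ L x hx hfx hrk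
  rcases le_or_gt (θ * height κ x) ((C : ℝ) + ramDeg κ L K + S.card) with hle | hgt
  · exact Or.inl hle
  right
  have hfg : (finrank K L : ℤ) ≤ g := by exact_mod_cast hLg
  have hC20 : (0 : ℤ) ≤ C₂ := Int.natCast_nonneg _
  have hCg : (C₂ : ℤ) * finrank K L ≤ C₂ * g := mul_le_mul_of_nonneg_left hfg hC20
  have hUc : ((S ∪ T).card : ℤ) ≤ S.card + C₂ * g := by
    have h1 : ((S ∪ T).card : ℤ) ≤ S.card + T.card := by exact_mod_cast Finset.card_union_le _ _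
    linarith
  obtain ⟨h, hh'⟩ : ∃ h : ℤ, h = height κ X.x := ⟨_, rfl⟩
  have hxh : height κ x ≤ h + C₂ * g := by
    rw [hh', hXh]
    linarith
  have hh0 : (0 : ℤ) ≤ h := by
    rw [hh', hXh]
    exact hL.height_nonneg hx'
  have hh0r : (0 : ℝ) ≤ h := by exact_mod_cast hh0
  have hxhr : (height κ x : ℝ) ≤ h + C₂ * g := by exact_mod_cast hxh
  have hq0 : (0 : ℝ) ≤ q := Nat.cast_nonneg _
  have hCg0 : (0 : ℝ) ≤ (C₂ : ℝ) * g := by positivity
  have hθx : θ * height κ x ≤ θ * h + q * (C₂ * g) := by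
    have h1 : θ * height κ x ≤ θ * (h + C₂ * g) := mul_le_mul_of_nonneg_left hxhr hθ0
    have h2 : θ * ((C₂ : ℝ) * g) ≤ q * (C₂ * g) := mul_le_mul_of_nonneg_right hθq hCg0
    linarith
  have hCr : (C : ℝ) = C₁ + q * C₁ + q * (C₂ * g) + C₂ * g := by
    rw [hC]
    push_cast
    ring
  have p1 : (0 : ℝ) ≤ (C₁ : ℝ) := Nat.cast_nonneg _
  have p2 : (0 : ℝ) ≤ (q : ℝ) * C₁ := by positivity
  have hUr : (((S ∪ T).card : ℕ) : ℝ) ≤ S.card + C₂ * g := by exact_mod_cast hUc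
  have hR0 : (0 : ℝ) ≤ (ramDeg κ L K : ℝ) := Nat.cast_nonneg _
  have hS0 : (0 : ℝ) ≤ (S.card : ℝ) := Nat.cast_nonneg _
  have hU0 : (0 : ℝ) ≤ (((S ∪ T).card : ℕ) : ℝ) := Nat.cast_nonneg _
  have hUθ : (ramDeg κ L K : ℝ) + (((S ∪ T).card : ℕ) : ℝ) ≤ θ * h := by
    rw [hCr] at hgt
    linarith
  have hθh : θ * h ≤ q * h := mul_le_mul_of_nonneg_right hθq hh0r
  have hR1 : (ramDeg κ L K : ℤ) ≤ q * height κ X.x := by
    have h1 : (ramDeg κ L K : ℝ) ≤ q * h := by linarith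
    rw [← hh']
    exact_mod_cast h1
  have hU2 : (ramDeg κ L K : ℝ) + (((S ∪ T).card : ℕ) : ℝ) + ε * height κ X.x ≤
      ((∑ j, d j : ℕ) - (r : ℝ) - 1) * height κ X.x := by
    have h3 := mul_le_mul_of_nonneg_right hθk hh0r
    have h4 : (((∑ j, d j : ℕ) : ℝ) - (r : ℝ) - 1) * h =
        (((∑ j, d j : ℕ) : ℝ) - ((r : ℝ) + 1)) * h := by ring
    rw [← hh', h4]
    linarith
  have hoff : ∀ w ∉ S ∪ T, ∀ j, vl j ≠ 0 → w.1 (vl j) = vmax w.1 X.x ^ d j := by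
    intro w hw j hj
    rw [Finset.mem_union, not_or] at hw
    have hjA : j ∉ A := by
      intro hjA
      rw [hvl, if_pos hjA] at hj
      exact hj rfl
    rw [hvl, if_neg hjA, map_mul, map_pow, hS w hw.1 j hjA, hXx, vmax_smul, mul_pow,
      (hT2 w hw.2).1]
  rcases hC₁ L hLg X O hXa hOΔ hXδ hXO hXR vl gr hcol (S ∪ T) hoff hR1 hU2 with h1 | h1
  · -- the height is small
    exfalso
    have h2 : (h : ℝ) ≤ C₁ := by
      rw [← hh'] at h1
      exact_mod_cast h1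
    have h3 : θ * h ≤ q * C₁ := hθh.trans (mul_le_mul_of_nonneg_left h2 hq0)
    rw [hCr] at hgt
    linarith
  · rw [hXx] at h1
    refine CertV.mono le_rfl ?_ (CertV.of_smul hc0 h1)
    have h2 : C₁ ≤ C := by
      rw [hC]
      omega
    exact_mod_cast h2

/-- **The alternative at the points of the locus of degree at most `g` over `K`** for which the
inequality with the coefficient one at the ramification and at the number of contact places fails:
the height is bounded, or there is a curve of bounded degree and height through the projected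
point. -/
theorem level_KUV (p q g : ℕ) (ε : ℝ) (hε : 0 < ε) : ∃ r₀ : ℕ,
    ∀ (r : ℕ) (d : Fin p → ℕ), r₀ ≤ r → (∀ j, 1 ≤ d j) → r + 2 ≤ ∑ j, d j →
    ∀ {κ : Type u} {K : Type v} [Field κ] [IsAlgClosed κ] [CharZero κ] [Field K] [CharZero K]
      [Algebra κ K] (_ : IsFF κ K) (_ : Cardinal.aleph0 ≤ Algebra.trdeg ℚ κ)
      {k : Type x} [Field k] [CharZero k] [Algebra k K] (_ : Algebra.trdeg ℚ k < Cardinal.aleph0)
      {n : ℕ} (hr : r ≤ n) {ι : Type y} {e : ι → ℕ}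
      {f : ι → MvPolynomial (Fin p ⊕ Fin (n + 1)) k}
      (_ : ∀ i, (f i).IsWeightedHomogeneous (Sum.elim d fun _ => 1) (e i)) {A : Finset (Fin p)}
      (_ : ∀ i, ∀ j ∉ A, Sum.inl j ∉ (f i).vars) {η : Fin (r + 1) → Fin (n + 1) → ℤ}
      (_ : ProjV hr ((Ideal.span (Set.range f)).comap
        (MvPolynomial.rename (Sum.inr : Fin (n + 1) → Fin p ⊕ Fin (n + 1)))) η)
      {H : Fin p → MvPolynomial (Fin (n + 1)) K} (_ : ∀ j, (H j).IsHomogeneous (d j))
      (_ : AlgebraicIndependent k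
        (fun I : {I : Fin p × (Fin (n + 1) →₀ ℕ) // I.2.degree = d I.1} =>
          (H I.1.1).coeff I.1.2)),
    LevelV.{u, v, w, x, y} κ f d A η H q g ε := by
  obtain ⟨n₀, hmain⟩ := level_colK.{u, v, w} p (q + 1) g (ε / 2) (by positivity)
  refine ⟨n₀, fun r d hr₀ hd1 hd => ?_⟩
  obtain ⟨B, hB⟩ := hmain r d hr₀ hd1 hd
  intro κ K _ _ _ _ _ _ hK htr k _ _ _ hk n hr ι e f hf A hfA η hη H hH ha
  obtain ⟨a₀, C₂, hC₂⟩ := exists_datV_K.{u, v, w} hK htr hk hr hf hfA hη hH ha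
  obtain ⟨C₁, hC₁⟩ := hB κ K hK C₂ a₀
  obtain ⟨M, hM⟩ : ∃ M : ℕ, M = ⌈2 * (((∑ j, d j : ℕ) : ℝ) * (C₂ * g)) / ε⌉₊ := ⟨_, rfl⟩
  refine ⟨B, C₁ + C₂ * g + M + (q + 1) * (C₂ * g), ?_⟩
  intro L _ _ _ _ _ _ _ hLg x hx hfx hrk S hS hRq hSε
  classical
  have hL : IsFF κ L := hK.of_finite
  have hchar : CharZero L := charZero_of_injective_algebraMap (algebraMap K L).injective
  obtain ⟨hx', hh1, hh, ⟨T, hT1, hT2⟩, X, O, vl, gr, c, hXa, hOΔ, hXδ, hXO, hc0, hXx, hcol, hvl, hXh,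
    -, hXR, -⟩ := hC₂ L x hx hfx hrk
  rcases le_or_gt (height κ x) ((C₁ + C₂ * g + M + (q + 1) * (C₂ * g) : ℕ) : ℤ) with hle | hgt
  · exact Or.inl hle
  right
  have hfg : (finrank K L : ℤ) ≤ g := by exact_mod_cast hLg
  have hC20 : (0 : ℤ) ≤ C₂ := Int.natCast_nonneg _
  have hCg : (C₂ : ℤ) * finrank K L ≤ C₂ * g := mul_le_mul_of_nonneg_left hfg hC20
  have hUc : ((S ∪ T).card : ℤ) ≤ S.card + C₂ * g := by
    have h1 : ((S ∪ T).card : ℤ) ≤ S.card + T.card := by exact_mod_cast Finset.card_union_le _ _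
    linarith
  obtain ⟨h, hh'⟩ : ∃ h : ℤ, h = height κ X.x := ⟨_, rfl⟩
  have hxh : height κ x ≤ h + C₂ * g := by
    rw [hh', hXh]
    linarith
  have hh0 : (0 : ℤ) ≤ h := by
    rw [hh', hXh]
    exact hL.height_nonneg hx'
  have hq0 : (0 : ℤ) ≤ q := Int.natCast_nonneg _
  have hg0 : (0 : ℤ) ≤ (C₂ : ℤ) * g := by positivity
  have hC10 : (0 : ℤ) ≤ C₁ := Int.natCast_nonneg _
  have hM0 : (0 : ℤ) ≤ M := Int.natCast_nonneg _
  have hqg0 : (0 : ℤ) ≤ (q : ℤ) * (C₂ * g) := mul_nonneg hq0 hg0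
  have hgt' : (C₁ : ℤ) + C₂ * g + M + (q * (C₂ * g) + C₂ * g) < height κ x := by
    have h1 := hgt
    push_cast at h1
    linarith
  have hR1 : (ramDeg κ L K : ℤ) ≤ ((q + 1 : ℕ) : ℤ) * height κ X.x := by
    have h1 : (q : ℤ) * height κ x ≤ q * (h + C₂ * g) := mul_le_mul_of_nonneg_left hxh hq0
    rw [← hh']
    push_cast
    linarith
  have hh0r : (0 : ℝ) ≤ h := by exact_mod_cast hh0
  have hxhr : (height κ x : ℝ) ≤ h + C₂ * g := by exact_mod_cast hxh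
  have hhxr : (h : ℝ) ≤ height κ x := by
    have h1 : h ≤ height κ x := by
      rw [hh', hXh]
      exact hh1
    exact_mod_cast h1
  have hU2 : (ramDeg κ L K : ℝ) + (((S ∪ T).card : ℕ) : ℝ) + ε / 2 * height κ X.x ≤
      ((∑ j, d j : ℕ) - (r : ℝ) - 1) * height κ X.x := by
    obtain ⟨D, hD⟩ : ∃ D : ℝ, D = ((∑ j, d j : ℕ) : ℝ) := ⟨_, rfl⟩
    obtain ⟨W, hW⟩ : ∃ W : ℝ, W = (C₂ : ℝ) * g := ⟨_, rfl⟩
    have hW0 : 0 ≤ W := by rw [hW]; positivity
    have hD1 : (0 : ℝ) ≤ D - r - 1 := by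
      have h1 : ((r + 2 : ℕ) : ℝ) ≤ ((∑ j, d j : ℕ) : ℝ) := by exact_mod_cast hd
      rw [← hD] at h1
      push_cast at h1
      linarith
    rw [← hh', ← hD]
    rw [← hD] at hSε hM
    rw [← hW] at hM hxhr
    have hUr : (((S ∪ T).card : ℕ) : ℝ) ≤ S.card + W := by
      rw [hW]
      exact_mod_cast hUc
    have h2 : (D - r - 1) * height κ x ≤ (D - r - 1) * (h + W) :=
      mul_le_mul_of_nonneg_left hxhr hD1
    have h3 : (D - r - 1) * (h + W) = (D - r - 1) * h + D * W - r * W - W := by ring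
    have h4 : 0 ≤ (r : ℝ) * W := mul_nonneg (Nat.cast_nonneg _) hW0
    have h5 : D * W ≤ ε / 2 * height κ x := by
      have h6 : 2 * (D * W) / ε ≤ height κ x := by
        have h7 : 2 * (D * W) / ε ≤ M := by
          rw [hM]
          exact Nat.le_ceil _
        have h8 : (M : ℤ) ≤ height κ x := by linarith
        have h9 : (M : ℝ) ≤ height κ x := by exact_mod_cast h8
        linarith
      rw [div_le_iff₀ hε] at h6
      linarith
    have h6 : ε / 2 * h ≤ ε / 2 * height κ x := mul_le_mul_of_nonneg_left hhxr (by positivity)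
    linarith
  have hoff : ∀ w ∉ S ∪ T, ∀ j, vl j ≠ 0 → w.1 (vl j) = vmax w.1 X.x ^ d j := by
    intro w hw j hj
    rw [Finset.mem_union, not_or] at hw
    have hjA : j ∉ A := by
      intro hjA
      rw [hvl, if_pos hjA] at hj
      exact hj rfl
    rw [hvl, if_neg hjA] at hj ⊢
    rw [map_mul, map_pow, hS w hw.1 j hjA (right_ne_zero_of_mul hj), hXx, vmax_smul, mul_pow,
      (hT2 w hw.2).1]
  rcases hC₁ L hLg X O hXa hOΔ hXδ hXO hXR vl gr hcol (S ∪ T) hoff hR1 hU2 with h1 | h1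
  · -- the height is small
    exfalso
    rw [← hh'] at h1
    linarith
  · rw [hXx] at h1
    refine CertV.mono le_rfl ?_ (CertV.of_smul hc0 h1)
    have h2 : C₁ ≤ C₁ + C₂ * g + M + (q + 1) * (C₂ * g) := by
      rw [add_assoc, add_assoc]
      exact Nat.le_add_right _ _
    exact_mod_cast h2

end Pool.Agent.Lib.MP_44a246_ntTV
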