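import Mathlib
import Pool.Agent.Lib.MP_44a246_ntTV.TV00
import Pool.Agent.Lib.MP_44a246_ntTV.TV31

/-!
# T5V: the alternative at the points of the locus, for all coefficients of the height

The same as `level_KUV`, with a bound for the ramification instead of the bound for the
coefficient of the height.
-/

namespace Pool.Agent.Lib.MP_44a246_ntTV

open Pool.Agent.Lib.MP_44a246_nt
open Pool.Agent.Lib.MP_44a246_ntL
open Pool.Agent.Lib.MP_44a246_ntS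
open Pool.Agent.Lib.MP_44a246_ntX
open Pool.Agent.Lib.MP_44a246_ntG
open Pool.Agent.Lib.MP_44a246_ntK hiding prj
open Pool.Agent.Lib.MP_44a246_ntSH
open Pool.Agent.Lib.MP_44a246_ntSP
open Pool.Agent.Lib.MP_44a246_ntUV
open Pool.Agent.Lib.MP_44a246_ntTK
open Pool.Agent.Lib.MP_e52354_nt
open WithZero Module

universe u v w x

/-- **The alternative at the points of the locus of degree at most `g`.** -/
theorem levelV (p q g : ℕ) (ε : ℝ) (hε : 0 < ε) : ∃ r₀ : ℕ,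
    ∀ (r : ℕ) (d : Fin p → ℕ), r₀ ≤ r → (∀ j, 1 ≤ d j) → r + 2 ≤ ∑ j, d j →
    ∀ {κ : Type u} {K : Type v} [Field κ] [IsAlgClosed κ] [CharZero κ] [Field K] [CharZero K]
      [Algebra κ K] (_ : IsFF κ K) (_ : Cardinal.aleph0 ≤ Algebra.trdeg ℚ κ)
      {k : Type x} [Field k] [CharZero k] [Algebra k K] (_ : Algebra.trdeg ℚ k < Cardinal.aleph0)
      {n : ℕ} (_ : r ≤ n) {ι : Type} {e : ι → ℕ}
      {f : ι → MvPolynomial (Fin p ⊕ Fin (n + 1)) k}
      (_ : ∀ i, (f i).IsWeightedHomogeneous (Sum.elim d fun _ => 1) (e i)) {A : Finset (Fin p)}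
      (_ : ∀ i, ∀ j ∉ A, Sum.inl j ∉ (f i).vars) {η : Fin (r + 1) → Fin (n + 1) → ℤ}
      (_ : ProjV (by assumption) ((Ideal.span (Set.range f)).comap
        (MvPolynomial.rename (Sum.inr : Fin (n + 1) → Fin p ⊕ Fin (n + 1)))) η)
      {H : Fin p → MvPolynomial (Fin (n + 1)) K} (_ : ∀ j, (H j).IsHomogeneous (d j))
      (_ : AlgebraicIndependent k
        (fun I : {I : Fin p × (Fin (n + 1) →₀ ℕ) // I.2.degree = d I.1} =>
          (H I.1.1).coeff I.1.2)),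
    LevelV.{u, v, w, x} κ f d A η H q g ε := by
  obtain ⟨n₀, hmain⟩ := level_colK.{u, v, w} p (q + 1) g (ε / 2) (by linarith)
  refine ⟨n₀, fun r d hr₀ hd1 hd => ?_⟩
  obtain ⟨B, hB⟩ := hmain r d hr₀ hd1 hd
  intro κ K _ _ _ _ _ _ hK htr k _ _ _ hk n hr ι e f hf A hfA η hη H hH ha
  obtain ⟨a₀, C₂, hC₂⟩ := exists_datV_K.{u, v, w} hK htr hk hr hf hfA hη hH ha
  obtain ⟨C₁, hC₁⟩ := hB κ K hK C₂ a₀
  obtain ⟨M, hM⟩ : ∃ M, M = ∑ j, d j := ⟨_, rfl⟩
  obtain ⟨E, hE⟩ : ∃ E : ℕ, ((M : ℝ) + 1) * (C₂ * g) / (ε / 2) ≤ E := exists_nat_ge _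
  have hE' : ((M : ℝ) + 1) * (C₂ * g) ≤ ε / 2 * E := by
    rw [div_le_iff₀ (by linarith)] at hE
    linarith
  obtain ⟨C, hC⟩ : ∃ C, C = C₁ + q * (C₂ * g) + C₂ * g + E := ⟨_, rfl⟩
  refine ⟨B, C, ?_⟩
  intro L _ _ _ _ _ _ _ hLg x hx hfx hrk S hS hRq hRε
  classical
  have hL : IsFF κ L := hK.of_finite
  have hchar : CharZero L := charZero_of_injective_algebraMap (algebraMap K L).injective
  obtain ⟨hx', hle0, hh, ⟨T, hT1, hT2⟩, X, O, vl, gr, c, hXa, hOΔ, hXδ, hXO, hc0, hXx, hcol, hvl,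
    hXh, -, hXR, -⟩ := hC₂ L x hx hfx hrk
  rcases le_or_gt (height κ x) (C : ℤ) with hle | hgt
  · exact Or.inl hle
  right
  have hfg : (finrank K L : ℤ) ≤ g := by exact_mod_cast hLg
  have hC20 : (0 : ℤ) ≤ C₂ := Int.natCast_nonneg _
  have hCg : (C₂ : ℤ) * finrank K L ≤ C₂ * g := mul_le_mul_of_nonneg_left hfg hC20
  have hUc : ((S ∪ T).card : ℤ) ≤ S.card + C₂ * g := by
    have h1 : ((S ∪ T).card : ℤ) ≤ S.card + T.card := by exact_mod_cast Finset.card_union_le _ _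
    linarith
  obtain ⟨h, hh'⟩ : ∃ h : ℤ, h = height κ X.x := ⟨_, rfl⟩
  have hxh : height κ x ≤ h + C₂ * g := by
    rw [hh', hXh]
    linarith
  have hhx : h ≤ height κ x := by
    rw [hh', hXh]
    exact hle0
  have hgt' : (C₁ : ℤ) + q * (C₂ * g) + E < h := by
    rw [hC] at hgt
    push_cast at hgt
    linarith
  have hC10 : (0 : ℤ) ≤ (C₁ : ℤ) := Int.natCast_nonneg _
  have hqC0 : (0 : ℤ) ≤ (q : ℤ) * (C₂ * g) := by positivity
  have hE0 : (0 : ℤ) ≤ (E : ℤ) := Int.natCast_nonneg _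
  have hq0 : (0 : ℤ) ≤ (q : ℤ) := Int.natCast_nonneg _
  have hh0 : 0 ≤ h := by linarith
  have hR1 : (ramDeg κ L K : ℤ) ≤ ((q + 1 : ℕ) : ℤ) * height κ X.x := by
    rw [← hh']
    have h1 : (q : ℤ) * height κ x ≤ q * (h + C₂ * g) := mul_le_mul_of_nonneg_left hxh hq0
    push_cast
    linarith
  have hh0r : (0 : ℝ) ≤ h := by exact_mod_cast hh0
  have hxhr : (height κ x : ℝ) ≤ h + C₂ * g := by exact_mod_cast hxh
  have hCg0 : (0 : ℝ) ≤ (C₂ : ℝ) * g := by positivity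
  have hUr : (((S ∪ T).card : ℕ) : ℝ) ≤ S.card + C₂ * g := by exact_mod_cast hUc
  have hR0 : (0 : ℝ) ≤ (ramDeg κ L K : ℝ) := Nat.cast_nonneg _
  have hS0 : (0 : ℝ) ≤ (S.card : ℝ) := Nat.cast_nonneg _
  have hEh : (E : ℝ) ≤ h := by exact_mod_cast (by linarith : (E : ℤ) ≤ h)
  have hhpos : (0 : ℝ) < height κ x := by
    have h1 : (0 : ℤ) < height κ x := by linarith
    exact_mod_cast h1
  rw [← hM] at hRε
  obtain ⟨a, ha'⟩ : ∃ a : ℝ, a = (M : ℝ) - (r : ℝ) - 1 := ⟨_, rfl⟩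
  have hr0 : (0 : ℝ) ≤ r := Nat.cast_nonneg _
  have haM : a ≤ M := by linarith
  rw [← ha'] at hRε
  have haε : 0 ≤ a - ε := by
    by_contra hcon
    push Not at hcon
    have h1 : (a - ε) * height κ x < 0 := mul_neg_of_neg_of_pos hcon hhpos
    linarith
  have hU2 : (ramDeg κ L K : ℝ) + (((S ∪ T).card : ℕ) : ℝ) + ε / 2 * height κ X.x ≤
      ((∑ j, d j : ℕ) - (r : ℝ) - 1) * height κ X.x := by
    rw [← hh', ← hM, ← ha']
    have h1 : (a - ε) * height κ x ≤ (a - ε) * (h + C₂ * g) :=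
      mul_le_mul_of_nonneg_left hxhr haε
    have h2 : (a - ε) * (C₂ * g) ≤ M * ((C₂ : ℝ) * g) :=
      mul_le_mul_of_nonneg_right (by linarith) hCg0
    have h3 : ε / 2 * (E : ℝ) ≤ ε / 2 * h := mul_le_mul_of_nonneg_left hEh (by linarith)
    linarith
  have hoff : ∀ w ∉ S ∪ T, ∀ j, vl j ≠ 0 → w.1 (vl j) = vmax w.1 X.x ^ d j := by
    intro w hw j hj
    rw [Finset.mem_union, not_or] at hw
    have hjA : j ∉ A := by
      intro hjA
      rw [hvl, if_pos hjA] at hj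
      exact hj rfl
    rw [hvl, if_neg hjA] at hj
    rw [hvl, if_neg hjA, map_mul, map_pow, hS w hw.1 j hjA (right_ne_zero_of_mul hj), hXx,
      vmax_smul, mul_pow, (hT2 w hw.2).1]
  rcases hC₁ L hLg X O hXa hOΔ hXδ hXO hXR vl gr hcol (S ∪ T) hoff hR1 hU2 with h1 | h1
  · exfalso
    rw [← hh'] at h1
    linarith
  · rw [hXx] at h1
    refine CertV.mono le_rfl ?_ (CertV.of_smul hc0 h1)
    have h2 : C₁ ≤ C := by
      rw [hC]
      omega
    exact_mod_cast h2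

end Pool.Agent.Lib.MP_44a246_ntTV
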