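import Mathlib
import Pool.Agent.Lib.MP_44a246_ntTV.TV46

/-!
# T5V: two inequalities outside of the same exceptional set
-/

namespace Pool.Agent.Lib.MP_44a246_ntTV

open Pool.Agent.Lib.MP_e52354_nt
open Pool.Agent.Lib.MP_44a246_nt
open Pool.Agent.Lib.MP_44a246_ntL
open Pool.Agent.Lib.MP_44a246_ntUV
open Pool.Agent.Lib.MP_44a246_ntMY
open Pool.Agent.Lib.MP_e52354_ntSD (GenK)
open MvPolynomial Module

universe u v w x

theorem krull_le_of_ge {R : Type*} [CommRing R] {I K : Ideal R} {D : WithBot ℕ∞}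
    (hI : ringKrullDim (R ⧸ I) ≤ D) (l : LTSeries (PrimeSpectrum.zeroLocus (K : Set R)))
    (h : I ≤ ((l.head : PrimeSpectrum R)).asIdeal) : ((l.length : ℕ∞) : WithBot ℕ∞) ≤ D := by
  refine le_trans ?_ hI
  rw [ringKrullDim_quotient]
  have hmem : ∀ i, ((l i : PrimeSpectrum.zeroLocus (K : Set R)) : PrimeSpectrum R) ∈
      PrimeSpectrum.zeroLocus (I : Set R) := by
    intro i
    rw [PrimeSpectrum.mem_zeroLocus, SetLike.coe_subset_coe]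
    exact h.trans (l.monotone (Fin.zero_le i))
  obtain ⟨s, hs⟩ : ∃ s : LTSeries (PrimeSpectrum.zeroLocus (I : Set R)), s.length = l.length :=
    ⟨⟨l.length, fun i => ⟨(l i : PrimeSpectrum R), hmem i⟩, fun i => l.step i⟩, rfl⟩
  rw [← hs]
  exact le_iSup (fun t : LTSeries _ => ((t.length : ℕ∞) : WithBot ℕ∞)) s

/-- the dimension of a union -/
theorem krull_union {R : Type*} [CommRing R] {I J K : Ideal R} (h : I * J ≤ K) {D : WithBot ℕ∞}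
    (hI : ringKrullDim (R ⧸ I) ≤ D) (hJ : ringKrullDim (R ⧸ J) ≤ D) :
    ringKrullDim (R ⧸ K) ≤ D := by
  rw [ringKrullDim_quotient]
  refine iSup_le fun l => ?_
  have h1 : (K : Set R) ⊆ ((l.head : PrimeSpectrum R)).asIdeal := l.head.2
  have h2 : I * J ≤ ((l.head : PrimeSpectrum R)).asIdeal := h.trans h1
  rcases ((l.head : PrimeSpectrum R)).isPrime.mul_le.1 h2 with h3 | h3
  · exact krull_le_of_ge hI l h3
  · exact krull_le_of_ge hJ l h3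

/-- **Two inequalities outside of the same exceptional set.** -/
theorem htQ_and {κ : Type u} {K : Type v} {k : Type x} [Field κ] [IsAlgClosed κ] [CharZero κ]
    [Field K] [Algebra κ K] [Field k] [Algebra k K] {n p : ℕ} {ι : Type}
    {f : ι → MvPolynomial (Fin p ⊕ Fin (n + 1)) k} {d : Fin p → ℕ} {A : Finset (Fin p)}
    {H : Fin p → MvPolynomial (Fin (n + 1)) K} {S : Set (Place κ K)} {m : ℕ}
    {Q₁ Q₂ Q₃ : ℕ → ℤ → ℕ → ℤ → ℕ → Prop}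
    (hQ : ∀ C₁ C₂ : ℕ, ∃ C : ℕ, ∀ (h : ℤ) (F : ℕ) (R : ℤ) (N : ℕ), 0 ≤ R →
      Q₁ C₁ h F R N → Q₂ C₂ h F R N → Q₃ C h F R N)
    (h1 : HtQ.{u, v, w, x} κ f d A H S m Q₁) (h2 : HtQ.{u, v, w, x} κ f d A H S m Q₂) :
    HtQ.{u, v, w, x} κ f d A H S m Q₃ := by
  obtain ⟨t₁, G₁, hG₁, hdim₁, C₁, hC₁⟩ := h1
  obtain ⟨t₂, G₂, hG₂, hdim₂, C₂, hC₂⟩ := h2
  obtain ⟨C, hC⟩ := hQ C₁ C₂
  let φ := finProdFinEquiv (m := t₁) (n := t₂)
  refine ⟨t₁ * t₂, fun i => G₁ (φ.symm i).1 * G₂ (φ.symm i).2, fun i => ?_, ?_, C, ?_⟩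
  · obtain ⟨e₁, he₁⟩ := hG₁ (φ.symm i).1
    obtain ⟨e₂, he₂⟩ := hG₂ (φ.symm i).2
    exact ⟨e₁ + e₂, he₁.mul he₂⟩
  · refine krull_union ?_ hdim₁ hdim₂
    rw [Ideal.span_mul_span', Ideal.span_le]
    rintro _ ⟨_, ⟨i, rfl⟩, _, ⟨j, rfl⟩, rfl⟩
    refine Ideal.subset_span ⟨φ (i, j), ?_⟩
    show G₁ (φ.symm (φ (i, j))).1 * G₂ (φ.symm (φ (i, j))).2 = G₁ i * G₂ j
    rw [Equiv.symm_apply_apply]
  · intro L _ _ _ _ _ _ _ x hx hfx hrk hne
    rcases hC₁ L x hx hfx hrk hne with h1 | h1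
    · rcases hC₂ L x hx hfx hrk hne with h2 | h2
      · exact Or.inl (hC _ _ _ _ (Int.natCast_nonneg _) h1 h2)
      · right
        intro i
        rw [map_mul, h2, mul_zero]
    · right
      intro i
      rw [map_mul, h1, zero_mul]

/-- the two inequalities -/
def QB (g : ℕ) (θ : ℝ) (C : ℕ) (h : ℤ) (F : ℕ) (R : ℤ) (N : ℕ) : Prop :=
  θ * h ≤ (C : ℝ) * ((F : ℝ) + R) + N ∧ (F ≤ g → θ * h ≤ (C : ℝ) + R + N)

/-- **The theorem for the points of all degrees, and for the points of degree at most `g` with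
coefficient one at the ramification**, outside of the same exceptional set. -/
theorem final_VB (p g : ℕ) (hp : 1 ≤ p) (ε : ℝ) (hε : 0 < ε) : ∃ r₀ : ℕ,
    ∀ (r c s : ℕ) (d : Fin p → ℕ), min c ((c + p) / 2) ≤ s → r₀ ≤ r + s → (∀ j, 1 ≤ d j) →
    ∀ {κ : Type u} {K : Type v} [Field κ] [IsAlgClosed κ] [CharZero κ] [Field K] [CharZero K]
      [Algebra κ K] (_ : MYP.{u, v} κ) (_ : Cardinal.aleph0 ≤ Algebra.trdeg ℚ κ) (_ : IsFF κ K)
      {k : Type x} [Field k] [CharZero k] [Algebra k K] (_ : Algebra.trdeg ℚ k < Cardinal.aleph0)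
      {n m : ℕ} (_ : r ≤ n) {ι : Type} {e : ι → ℕ}
      {f : ι → MvPolynomial (Fin p ⊕ Fin (n + 1)) k}
      (_ : ∀ i, (f i).IsWeightedHomogeneous (Sum.elim d fun _ => 1) (e i)) {A : Finset (Fin p)}
      (_ : ∀ i, ∀ j ∉ A, Sum.inl j ∉ (f i).vars)
      (_ : ringKrullDim (MvPolynomial (Fin (n + 1)) k ⧸ (Ideal.span (Set.range f)).comap
        (rename (Sum.inr : Fin (n + 1) → Fin p ⊕ Fin (n + 1)))) ≤ ((r + 1 : ℕ) : WithBot ℕ∞))
      {H : Fin p → MvPolynomial (Fin (n + 1)) K} (_ : ∀ j, (H j).IsHomogeneous (d j))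
      (_ : GenK k d H c) {S : Set (Place κ K)} (_ : S.Finite) {θ : ℝ} (_ : 0 ≤ θ)
      (_ : θ + ε ≤ ((∑ j, d j : ℕ) : ℝ) - ((r + s : ℕ) + 1))
      (_ : θ < ((A.card + ∑ j, d j + max m 1 : ℕ) : ℝ) - (2 * (r + s : ℕ) + 1)),
      HtQ.{u, v, w, x} κ f d A H S m (QB g θ) := by
  obtain ⟨r₁, h₁⟩ := final_VKW.{u, v, w, x} p g hp ε hε
  obtain ⟨r₂, h₂⟩ := final_VRMYW.{u, v, w, x} p hp ε hε
  refine ⟨max r₁ r₂, fun r c s d hcs hr₀ hd1 κ K _ _ _ _ _ _ hMY htr hK k _ _ _ hk n m hr ι ee f hf A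
    hfA hdim H hH hgen S hS θ hθ0 hθk hnum => ?_⟩
  have h3 : HtQ.{u, v, w, x} κ f d A H S m (QR θ) := h₂ r c s d hcs
    ((le_max_right _ _).trans hr₀) hd1 hMY htr hK hk hr hf hfA hdim hH hgen hS hθ0 hθk hnum
  have h4 := h₁ r c s d hcs ((le_max_left _ _).trans hr₀) hd1 hMY htr hK hk hr hf hfA hdim hH hgen
    hS hθ0 hθk hnum
  refine htQ_and (fun C₁ C₂ => ⟨max C₁ C₂, fun h F R N hR h1 h2 => ⟨?_, fun hF => ?_⟩⟩) h3 h4
  · refine h1.trans ?_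
    have hR' : (0 : ℝ) ≤ (F : ℝ) + R := by
      have : (0 : ℝ) ≤ (R : ℝ) := by exact_mod_cast hR
      positivity
    have h5 : (C₁ : ℝ) ≤ ((max C₁ C₂ : ℕ) : ℝ) := by exact_mod_cast le_max_left _ _
    have h6 := mul_le_mul_of_nonneg_right h5 hR'
    linarith
  · have h5 : (C₂ : ℝ) ≤ ((max C₁ C₂ : ℕ) : ℝ) := by exact_mod_cast le_max_right _ _
    have h6 := h2 hF
    linarith

end Pool.Agent.Lib.MP_44a246_ntTV
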