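import Mathlib
import Pool.Agent.Lib.MP_44a246_ntCE.CE50
import Pool.Agent.Lib.MP_44a246_ntCE.CEb
import Pool.Agent.Lib.MP_44a246_ntMB.MB70
import Pool.Agent.Lib.MP_44a246_ntTV.TV47

/-!
# T5V: arbitrary constant fields
-/

namespace Pool.Agent.Lib.MP_44a246_ntTV

open Pool.Agent.Lib.MP_e52354_nt
open Pool.Agent.Lib.MP_44a246_nt
open Pool.Agent.Lib.MP_44a246_ntL
open Pool.Agent.Lib.MP_44a246_ntUV
open Pool.Agent.Lib.MP_44a246_ntMY
open Pool.Agent.Lib.MP_44a246_ntMB
open Pool.Agent.Lib.MP_44a246_ntCE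
open Pool.Agent.Lib.MP_e52354_ntSD (GenK)
open MvPolynomial Module

universe u₁ u₂ u₃ u₄ w x

/-- **Descent**: the conclusion over an extension of the constants implies the conclusion. -/
theorem htQ_descend {κ : Type u₁} {κ' : Type u₂} {K : Type u₃} {K' : Type u₄} [Field κ]
    [IsAlgClosed κ] [CharZero κ] [Field κ'] [IsAlgClosed κ'] [CharZero κ'] [Field K] [Field K']
    [Algebra κ κ'] [Algebra κ K] [Algebra κ' K'] [Algebra K K'] [Algebra κ K']
    [IsScalarTower κ κ' K'] [IsScalarTower κ K K'] (hK : IsCE κ κ' K K') {k : Type x} [Field k]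
    [Algebra k K] [Algebra k K'] [IsScalarTower k K K'] {n p : ℕ} {ι : Type}
    {f : ι → MvPolynomial (Fin p ⊕ Fin (n + 1)) k} {d : Fin p → ℕ} {A : Finset (Fin p)}
    {H : Fin p → MvPolynomial (Fin (n + 1)) K} {S : Set (Place κ K)} {m : ℕ}
    {Q : ℕ → ℤ → ℕ → ℤ → ℕ → Prop}
    (hQ : ∀ {C h F} {R R' : ℤ} {N N' : ℕ}, R' ≤ R → N' ≤ N → Q C h F R' N' → Q C h F R N)
    (h : HtQ.{u₂, u₄, u₄, x} κ' f d A (fun j => map (algebraMap K K') (H j)) (extSet S) m Q) :
    HtQ.{u₁, u₃, w, x} κ f d A H S m Q := by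
  obtain ⟨t, G, hG, hdim, C, hC⟩ := h
  obtain ⟨b, G₀, hG₀, hdim₀, hdesc⟩ := exists_descent (κ := κ) hK.closure_top G hG hdim
  refine ⟨b, G₀, hG₀, hdim₀, C, ?_⟩
  intro L _ _ _ _ _ _ _ x hx hfx hrk hne
  obtain ⟨L', _, _, _, _, _, _, _, _, _, _, _, _, hL, hspan⟩ := exists_top hK (L := L)
  let _ : Algebra k L' := ((algebraMap K' L').comp (algebraMap k K')).toAlgebra
  have s1 : IsScalarTower k K' L' := IsScalarTower.of_algebraMap_eq fun _ => rfl
  have hkL : ∀ c : k, algebraMap k L' c = algebraMap L L' (algebraMap k L c) := by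
    intro c
    rw [IsScalarTower.algebraMap_apply k K L, ← IsScalarTower.algebraMap_apply K L L',
      IsScalarTower.algebraMap_apply K K' L', ← IsScalarTower.algebraMap_apply k K K']
    rfl
  have s2 : IsScalarTower k L L' := IsScalarTower.of_algebraMap_eq hkL
  have hx' : (fun i => algebraMap L L' (x i)) ≠ 0 := by
    obtain ⟨i, hi⟩ := Function.ne_iff.1 hx
    intro h
    have h6 := congrFun h i
    exact hi ((map_eq_zero _).1 h6)
  have hev : ∀ f : MvPolynomial (Fin (n + 1)) K,
      aeval (fun i => algebraMap L L' (x i)) (map (algebraMap K K') f) =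
        algebraMap L L' (aeval x f) := by
    intro f
    rw [aeval_map_algebraMap, ← aeval_algebraMap_apply]
    rfl
  have hev2 : ∀ F : MvPolynomial (Fin p ⊕ Fin (n + 1)) k,
      aeval (Sum.elim (fun j => aeval (fun i => algebraMap L L' (x i))
        (map (algebraMap K K') (H j))) (fun i => algebraMap L L' (x i)) :
          Fin p ⊕ Fin (n + 1) → L') F =
        algebraMap L L' (aeval (Sum.elim (fun j => aeval x (H j)) x :
          Fin p ⊕ Fin (n + 1) → L) F) := by
    intro F
    rw [← aeval_algebraMap_apply]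
    congr 2
    funext s
    rcases s with j | i
    · exact hev (H j)
    · rfl
  have hN := ncard_le (S := S) hK hL (P := fun j => j ∉ A)
    (y := fun j => aeval x (H j)) hne (x := x) d (contact_finite hL.ff hne hx d S)
  have hR := ramDeg_le hK hL
  rcases hC L' (fun i => algebraMap L L' (x i)) hx' (fun i => by rw [hev2, hfx i, map_zero]) (by
    obtain ⟨i, hi⟩ := hrk
    refine ⟨i, fun h0 => hi ?_⟩
    have h1 : (Matrix.of fun a b : A =>
        aeval (Sum.elim (fun j => aeval (fun i => algebraMap L L' (x i))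
          (map (algebraMap K K') (H j))) (fun i => algebraMap L L' (x i)) :
            Fin p ⊕ Fin (n + 1) → L') (pderiv (Sum.inl (b : Fin p)) (f (i a)))) =
        (algebraMap L L').mapMatrix (Matrix.of fun a b : A =>
          aeval (Sum.elim (fun j => aeval x (H j)) x : Fin p ⊕ Fin (n + 1) → L)
            (pderiv (Sum.inl (b : Fin p)) (f (i a)))) := by
      refine Matrix.ext fun a b => ?_
      rw [RingHom.mapMatrix_apply, Matrix.map_apply, Matrix.of_apply, Matrix.of_apply]
      exact hev2 _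
    rw [h1, ← RingHom.map_det] at h0
    exact (map_eq_zero _).1 h0) (fun j hj => by
    rw [hev]
    exact fun h0 => hne j hj ((map_eq_zero _).1 h0)) with h | h
  · left
    rw [hL.height_eq hx, finrank_eq hK hL] at h
    simp only [hev] at h
    exact hQ (by exact_mod_cast hR) hN h
  · right
    exact hdesc (fun I a ha s f h0 => IsCE_disj hL ha s f h0) x h

end Pool.Agent.Lib.MP_44a246_ntTV
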