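import Mathlib
import Pool.Agent.Lib.MP_44a246_ntCE.CEa
import Pool.Agent.Lib.MP_e52354_ntK.KBasis

/-!
# T5V: arbitrary fields of definition: elimination commutes with the extension of the field
-/

namespace Pool.Agent.Lib.MP_44a246_ntTV

open Pool.Agent.Lib.MP_44a246_ntCE
open MvPolynomial Module

section

variable {k₀ k : Type*} [Field k₀] [Field k] [Algebra k₀ k] {σ τ : Type*}

/-- a linear functional applied to the coefficients -/
noncomputable def co (φ : k →ₗ[k₀] k₀) (F : MvPolynomial σ k) : MvPolynomial σ k₀ :=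
  ∑ m ∈ F.support, monomial m (φ (coeff m F))

theorem coeff_co (φ : k →ₗ[k₀] k₀) (F : MvPolynomial σ k) (m : σ →₀ ℕ) :
    coeff m (co φ F) = φ (coeff m F) := by
  classical
  unfold co
  rw [coeff_sum]
  simp only [coeff_monomial]
  rw [Finset.sum_ite_eq']
  split_ifs with h
  · rfl
  · rw [notMem_support_iff.1 h, map_zero]

theorem co_add (φ : k →ₗ[k₀] k₀) (F G : MvPolynomial σ k) : co φ (F + G) = co φ F + co φ G := by
  ext m
  rw [coeff_add, coeff_co, coeff_co, coeff_co, coeff_add, map_add]

theorem co_zero (φ : k →ₗ[k₀] k₀) : co φ (0 : MvPolynomial σ k) = 0 := by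
  ext m
  rw [coeff_co, coeff_zero, map_zero, coeff_zero]

theorem co_mul_map (φ : k →ₗ[k₀] k₀) (F : MvPolynomial σ k) (G : MvPolynomial σ k₀) :
    co φ (F * map (algebraMap k₀ k) G) = co φ F * G := by
  classical
  ext m
  rw [coeff_co, coeff_mul, coeff_mul, map_sum]
  refine Finset.sum_congr rfl fun ab _ => ?_
  rw [coeff_co, coeff_map, mul_comm, ← Algebra.smul_def, map_smul, smul_eq_mul, mul_comm]

theorem co_rename (φ : k →ₗ[k₀] k₀) {e : τ → σ} (he : Function.Injective e)
    (F : MvPolynomial τ k) : co φ (rename e F) = rename e (co φ F) := by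
  classical
  ext m
  rw [coeff_co]
  by_cases hm : ∃ m', Finsupp.mapDomain e m' = m
  · obtain ⟨m', rfl⟩ := hm
    rw [coeff_rename_mapDomain e he, coeff_rename_mapDomain e he, coeff_co]
  · push Not at hm
    rw [coeff_rename_eq_zero e F m fun u hu => absurd hu (hm u),
      coeff_rename_eq_zero e _ m fun u hu => absurd hu (hm u), map_zero]

theorem co_sum (φ : k →ₗ[k₀] k₀) {ι : Type*} (s : Finset ι) (F : ι → MvPolynomial σ k) :
    co φ (∑ i ∈ s, F i) = ∑ i ∈ s, co φ (F i) := by
  ext m
  rw [coeff_co, coeff_sum, coeff_sum, map_sum]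
  exact Finset.sum_congr rfl fun i _ => (coeff_co φ (F i) m).symm

/-- the components of the elements of an extended ideal -/
theorem co_mem (φ : k →ₗ[k₀] k₀) {ι : Type*} (f₀ : ι → MvPolynomial σ k₀) {W : MvPolynomial σ k}
    (hW : W ∈ Ideal.span (Set.range fun i => map (algebraMap k₀ k) (f₀ i))) :
    co φ W ∈ Ideal.span (Set.range f₀) := by
  obtain ⟨c, rfl⟩ := Finsupp.mem_ideal_span_range_iff_exists_finsupp.1 hW
  rw [Finsupp.sum, co_sum]
  refine Ideal.sum_mem _ fun i _ => ?_
  rw [co_mul_map]
  exact Ideal.mul_mem_left _ _ (Ideal.subset_span ⟨i, rfl⟩)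

/-- a polynomial as a combination of its components -/
theorem eq_sum_co (F : MvPolynomial τ k) :
    ∃ s : Finset (Module.Basis.ofVectorSpaceIndex k₀ k),
      F = ∑ j ∈ s, C (Module.Basis.ofVectorSpace k₀ k j) *
        map (algebraMap k₀ k) (co ((Module.Basis.ofVectorSpace k₀ k).coord j) F) := by
  classical
  refine ⟨F.support.biUnion fun m => ((Module.Basis.ofVectorSpace k₀ k).repr (coeff m F)).support,
    ?_⟩
  ext m
  rw [coeff_sum]
  simp only [coeff_C_mul, coeff_map, coeff_co, Module.Basis.coord_apply]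
  by_cases hm : m ∈ F.support
  · have h1 := (Module.Basis.ofVectorSpace k₀ k).linearCombination_repr (coeff m F)
    rw [Finsupp.linearCombination_apply, Finsupp.sum] at h1
    conv_lhs => rw [← h1]
    refine (Finset.sum_subset (Finset.subset_biUnion_of_mem
      (fun m => ((Module.Basis.ofVectorSpace k₀ k).repr (coeff m F)).support) hm)
      fun j _ hj => ?_).trans (Finset.sum_congr rfl fun j _ => ?_)
    · rw [Finsupp.notMem_support_iff.1 hj, zero_smul]
    · rw [Algebra.smul_def, mul_comm]
  · have h0 := notMem_support_iff.1 hm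
    rw [h0]
    refine (Finset.sum_eq_zero fun j _ => ?_).symm
    rw [map_zero, Finsupp.zero_apply, map_zero, mul_zero]

/-- **Elimination commutes with the extension of the field**: the dimension of the closure of the
image of a closed subset does not get smaller. -/
theorem imDim_le {e : τ → σ} (he : Function.Injective e) {ι : Type*}
    (f₀ : ι → MvPolynomial σ k₀) :
    ringKrullDim (MvPolynomial τ k₀ ⧸ (Ideal.span (Set.range f₀)).comap (rename e)) ≤
      ringKrullDim (MvPolynomial τ k ⧸ (Ideal.span (Set.range fun i =>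
        map (algebraMap k₀ k) (f₀ i))).comap (rename e)) := by
  obtain ⟨J, hJ⟩ : ∃ J : Ideal (MvPolynomial τ k₀),
      J = (Ideal.span (Set.range f₀)).comap (rename e) := ⟨_, rfl⟩
  rw [← hJ]
  have h1 := ringKrullDim_le_baseChange (K' := k) (fun F : J => (F : MvPolynomial τ k₀))
  have h2 : Ideal.span (Set.range fun F : J => (F : MvPolynomial τ k₀)) = J := by
    rw [Subtype.range_coe_subtype]
    exact Ideal.span_eq J
  rw [h2] at h1
  refine h1.trans ?_
  have hle : (Ideal.span (Set.range fun i => map (algebraMap k₀ k) (f₀ i))).comap (rename e) ≤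
      Ideal.span (Set.range fun F : J => map (algebraMap k₀ k) (F : MvPolynomial τ k₀)) := by
    intro F hF
    rw [Ideal.mem_comap] at hF
    obtain ⟨s, hs⟩ := eq_sum_co (k₀ := k₀) F
    rw [hs]
    refine Ideal.sum_mem _ fun j _ => Ideal.mul_mem_left _ _ ?_
    have h3 : co ((Module.Basis.ofVectorSpace k₀ k).coord j) F ∈ J := by
      rw [hJ, Ideal.mem_comap, ← co_rename _ he]
      exact co_mem _ f₀ hF
    exact Ideal.subset_span ⟨⟨_, h3⟩, rfl⟩
  exact ringKrullDim_le_of_surjective (Ideal.Quotient.factor hle)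
    (Ideal.Quotient.factor_surjective hle)

end

/-- The transcendence degree of a generated field does not get larger over a larger field. -/
theorem trdeg_adjoin_le {k₀ k K : Type*} [Field k₀] [Field k] [Field K] [Algebra k₀ k]
    [Algebra k K] [Algebra k₀ K] [IsScalarTower k₀ k K] {ι : Type*} [Finite ι] (f : ι → K) :
    Algebra.trdeg k (IntermediateField.adjoin k (Set.range f)) ≤
      Algebra.trdeg k₀ (IntermediateField.adjoin k₀ (Set.range f)) := by
  obtain ⟨J, hJ, -, hJc⟩ := Pool.Agent.Lib.MP_e52354_ntK.exists_basis_family (k₀ := k) f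
  rw [← hJc]
  have h1 : AlgebraicIndepOn k₀ f J :=
    AlgebraicIndependent.restrictScalars (K := k) (algebraMap k₀ k).injective hJ
  have h2 : AlgebraicIndependent k₀ (fun i : J => (⟨f i, IntermediateField.subset_adjoin k₀ _
      ⟨i, rfl⟩⟩ : IntermediateField.adjoin k₀ (Set.range f))) :=
    AlgebraicIndependent.of_comp (IntermediateField.adjoin k₀ (Set.range f)).val h1
  have h3 := h2.lift_cardinalMk_le_trdeg
  rw [← Cardinal.lift_le, Cardinal.lift_natCast]
  refine le_trans (le_of_eq ?_) h3
  rw [← Nat.cast_card, Cardinal.lift_natCast]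

end Pool.Agent.Lib.MP_44a246_ntTV
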