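import Mathlib
import Pool.Agent.Lib.MP_44a246_ntTV.TV48
import Pool.Agent.Lib.MP_44a246_ntTV.TV49

/-!
# T5V: the theorem for all constant fields and all fields of definition
-/

namespace Pool.Agent.Lib.MP_44a246_ntTV

open Pool.Agent.Lib.MP_e52354_nt
open Pool.Agent.Lib.MP_44a246_nt
open Pool.Agent.Lib.MP_44a246_ntL
open Pool.Agent.Lib.MP_44a246_ntUV
open Pool.Agent.Lib.MP_44a246_ntMY
open Pool.Agent.Lib.MP_44a246_ntMB
open Pool.Agent.Lib.MP_44a246_ntCE
open Pool.Agent.Lib.MP_44a246_ntD (trdeg_adjoin_lt)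
open Pool.Agent.Lib.MP_44a246_ntK (jexpo mem_jexpo)
open Pool.Agent.Lib.MP_e52354_ntSD (GenK)
open MvPolynomial Module Algebra

universe u v w x

/-- finitely many polynomials are defined over a field of finite transcendence degree -/
theorem exists_base_field {k : Type x} [Field k] [CharZero k] {σ ι : Type*} [Finite ι]
    (f : ι → MvPolynomial σ k) :
    ∃ (k₀ : Type x) (_ : Field k₀) (_ : CharZero k₀) (_ : Algebra k₀ k),
      Algebra.trdeg ℚ k₀ < Cardinal.aleph0 ∧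
      ∃ f₀ : ι → MvPolynomial σ k₀, ∀ i, map (algebraMap k₀ k) (f₀ i) = f i := by
  classical
  obtain ⟨g, hg⟩ : ∃ g : (Σ i, {m // m ∈ (f i).support}) → k, ∀ s, g s = (f s.1).coeff s.2.1 :=
    ⟨_, fun _ => rfl⟩
  have h0 : Algebra.trdeg ℚ ℚ < Cardinal.aleph0 := by
    rw [trdeg_eq_zero]
    exact Cardinal.aleph0_pos
  have h1 := trdeg_adjoin_lt (F := ℚ) (K := k) h0 g
  obtain ⟨F, hF⟩ : ∃ F : IntermediateField ℚ k, F = IntermediateField.adjoin ℚ (Set.range g) :=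
    ⟨_, rfl⟩
  rw [← hF] at h1
  have hmem : ∀ i m, (f i).coeff m ∈ F := by
    intro i m
    by_cases hm : m ∈ (f i).support
    · rw [hF, ← hg ⟨i, m, hm⟩]
      exact IntermediateField.subset_adjoin _ _ ⟨_, rfl⟩
    · rw [notMem_support_iff.1 hm]
      exact F.zero_mem
  refine ⟨F, inferInstance, inferInstance, inferInstance, ?_, fun i =>
    ∑ m ∈ (f i).support, monomial m ⟨(f i).coeff m, hmem i m⟩, fun i => ?_⟩
  · convert h1
  · rw [map_sum]
    conv_rhs => rw [(f i).as_sum]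
    exact Finset.sum_congr rfl fun m _ => by rw [map_monomial]; rfl

/-- the field of definition -/
theorem htQ_base {κ : Type u} {K : Type v} {k₀ k : Type x} [Field κ] [Field K] [Algebra κ K]
    [Field k₀] [Field k] [Algebra k₀ k] [Algebra k K] [Algebra k₀ K] [IsScalarTower k₀ k K]
    {n p : ℕ} {ι : Type} {f₀ : ι → MvPolynomial (Fin p ⊕ Fin (n + 1)) k₀} {d : Fin p → ℕ}
    {A : Finset (Fin p)} {H : Fin p → MvPolynomial (Fin (n + 1)) K} {S : Set (Place κ K)} {m : ℕ}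
    {Q : ℕ → ℤ → ℕ → ℤ → ℕ → Prop} (h : HtQ.{u, v, w, x} κ f₀ d A H S m Q) :
    HtQ.{u, v, w, x} κ (fun i => map (algebraMap k₀ k) (f₀ i)) d A H S m Q := by
  obtain ⟨t, G, hG, hdim, C, hC⟩ := h
  refine ⟨t, G, hG, hdim, C, ?_⟩
  intro L _ _ _ _ _ _ _ x hx hfx hrk hne
  let _ : Algebra k₀ L := ((algebraMap k L).comp (algebraMap k₀ k)).toAlgebra
  have s1 : IsScalarTower k₀ k L := IsScalarTower.of_algebraMap_eq fun _ => rfl
  have s2 : IsScalarTower k₀ K L := IsScalarTower.of_algebraMap_eq fun c => by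
    rw [IsScalarTower.algebraMap_apply k₀ k L, IsScalarTower.algebraMap_apply k K L,
      IsScalarTower.algebraMap_apply k₀ k K]
  refine hC L x hx (fun i => ?_) ?_ hne
  · rw [← hfx i, aeval_map_algebraMap]
  · obtain ⟨i, hi⟩ := hrk
    refine ⟨i, fun h0 => hi ?_⟩
    rw [← h0]
    congr 1
    refine Matrix.ext fun a b => ?_
    rw [Matrix.of_apply, Matrix.of_apply, pderiv_map, aeval_map_algebraMap]

/-- **The theorem for all constant fields and all fields of definition.** -/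
theorem final_all (p g : ℕ) (hp : 1 ≤ p) (ε : ℝ) (hε : 0 < ε) : ∃ r₀ : ℕ,
    ∀ (r c s : ℕ) (d : Fin p → ℕ), min c ((c + p) / 2) ≤ s → r₀ ≤ r + s → (∀ j, 1 ≤ d j) →
    ∀ {κ : Type u} {K : Type v} [Field κ] [IsAlgClosed κ] [CharZero κ] [Field K] [CharZero K]
      [Algebra κ K] (_ : IsFF κ K) {k : Type x} [Field k] [CharZero k] [Algebra k K]
      {n m : ℕ} (_ : r ≤ n) {ι : Type} [Finite ι] {e : ι → ℕ}
      {f : ι → MvPolynomial (Fin p ⊕ Fin (n + 1)) k}
      (_ : ∀ i, (f i).IsWeightedHomogeneous (Sum.elim d fun _ => 1) (e i)) {A : Finset (Fin p)}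
      (_ : ∀ i, ∀ j ∉ A, Sum.inl j ∉ (f i).vars)
      (_ : ringKrullDim (MvPolynomial (Fin (n + 1)) k ⧸ (Ideal.span (Set.range f)).comap
        (rename (Sum.inr : Fin (n + 1) → Fin p ⊕ Fin (n + 1)))) ≤ ((r + 1 : ℕ) : WithBot ℕ∞))
      {H : Fin p → MvPolynomial (Fin (n + 1)) K} (_ : ∀ j, (H j).IsHomogeneous (d j))
      (_ : GenK k d H c) {S : Set (Place κ K)} (_ : S.Finite) {θ : ℝ} (_ : 0 ≤ θ)
      (_ : θ + ε ≤ ((∑ j, d j : ℕ) : ℝ) - ((r + s : ℕ) + 1))
      (_ : θ < ((A.card + ∑ j, d j + max m 1 : ℕ) : ℝ) - (2 * (r + s : ℕ) + 1)),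
      HtQ.{u, v, w, x} κ f d A H S m (QB g θ) := by
  obtain ⟨r₀, h⟩ := final_VB.{u, u, u, x} p g hp ε hε
  refine ⟨r₀, fun r c s d hcs hr₀ hd1 κ K _ _ _ _ _ _ hK k _ _ _ n m hr ι _ e f hf A hfA hdim H
    hH hgen S hS θ hθ0 hθk hnum => ?_⟩
  obtain ⟨k₀, _, _, _, htk, f₀, hf₀⟩ := exists_base_field f
  let _ : Algebra k₀ K := ((algebraMap k K).comp (algebraMap k₀ k)).toAlgebra
  have s0 : IsScalarTower k₀ k K := IsScalarTower.of_algebraMap_eq fun _ => rfl
  obtain rfl : (fun i => map (algebraMap k₀ k) (f₀ i)) = f := funext hf₀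
  have hinj := (algebraMap k₀ k).injective
  refine htQ_base ?_
  have hf' : ∀ i, (f₀ i).IsWeightedHomogeneous (Sum.elim d fun _ => 1) (e i) := by
    intro i m hm
    refine hf i ?_
    rw [coeff_map]
    exact fun h0 => hm ((map_eq_zero _).1 h0)
  have hfA' : ∀ i, ∀ j ∉ A, Sum.inl j ∉ (f₀ i).vars := by
    intro i j hj
    have h1 := hfA i j hj
    rwa [vars_map_of_injective _ hinj] at h1
  have hdim' := (imDim_le (k₀ := k₀) (k := k)
    (e := (Sum.inr : Fin (n + 1) → Fin p ⊕ Fin (n + 1))) Sum.inr_injective f₀).trans hdim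
  have hfin : Finite {I : Fin p × (Fin (n + 1) →₀ ℕ) // I.2.degree = d I.1} := by
    refine Finite.of_injective (fun I => (⟨I.1, mem_jexpo.2 (mem_expo.2 I.2)⟩ :
      ↥(jexpo n d))) fun I J h => Subtype.ext (congrArg (fun s => s.1) h)
  have hgen' : GenK k₀ d H c := by
    unfold GenK at hgen ⊢
    refine hgen.trans ?_
    gcongr
    exact trdeg_adjoin_le (k₀ := k₀) (k := k) _
  obtain ⟨κ', _, _, _, _, htr⟩ := exists_ext_const κ
  obtain ⟨K', _, _, _, _, _, _, _, hCE⟩ := exists_base hK (κ' := κ')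
  let _ : Algebra k₀ K' := ((algebraMap K K').comp (algebraMap k₀ K)).toAlgebra
  have s1 : IsScalarTower k₀ K K' := IsScalarTower.of_algebraMap_eq fun _ => rfl
  refine htQ_descend hCE ?_ (h r c s d hcs hr₀ hd1 (myp κ') htr hCE.isFF htk hr hf' hfA' hdim'
    (fun j => (hH j).map _) ?_ (extSet_finite hCE hS) hθ0 hθk hnum)
  · intro C h F R R' N N' hR hN ⟨h1, h2⟩
    have hR' : (R' : ℝ) ≤ R := by exact_mod_cast hR
    have hN' : (N' : ℝ) ≤ N := by exact_mod_cast hN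
    have hC0 : (0 : ℝ) ≤ C := Nat.cast_nonneg _
    refine ⟨h1.trans ?_, fun hF => (h2 hF).trans (by linarith)⟩
    have h3 : (C : ℝ) * ((F : ℝ) + R') ≤ C * ((F : ℝ) + R) :=
      mul_le_mul_of_nonneg_left (by linarith) hC0
    linarith
  · unfold GenK at hgen' ⊢
    exact gen_map hgen'

end Pool.Agent.Lib.MP_44a246_ntTV
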