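import Mathlib
import Pool.Agent.Lib.MP_44a246_ntUV.UV06e

/-!
# A finite family of projections: finiteness from the monomials of one degree
-/

namespace Pool.Agent.Lib.MP_44a246_ntTV

open Pool.Agent.Lib.MP_44a246_ntUV
open MvPolynomial

section

variable {k σ τ : Type*} [Field k] {I : Ideal (MvPolynomial σ k)} {y : τ → MvPolynomial σ k}

/-- homogeneous representations -/
theorem exists_homog_rep [Fintype τ] (hI : HomI I) (hy : ∀ i, (y i).IsHomogeneous 1)
    {p : MvPolynomial σ k} {e : ℕ} (hp : p.IsHomogeneous (e + 1))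
    (h : p ∈ I ⊔ Ideal.span (Set.range y)) :
    ∃ (a : MvPolynomial σ k) (b : τ → MvPolynomial σ k), a ∈ I ∧ a.IsHomogeneous (e + 1) ∧
      (∀ i, (b i).IsHomogeneous e) ∧ p = a + ∑ i, b i * y i := by
  obtain ⟨a, ha, c, hc, hac⟩ := Submodule.mem_sup.1 h
  obtain ⟨b, hb⟩ := (Ideal.mem_span_range_iff_exists_fun).1 hc
  refine ⟨homogeneousComponent (e + 1) a, fun i => homogeneousComponent e (b i), hI _ ha _,
    homogeneousComponent_isHomogeneous _ _, fun i => homogeneousComponent_isHomogeneous _ _, ?_⟩
  have h1 : homogeneousComponent (e + 1) p = p := by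
    rw [homogeneousComponent_of_mem hp, if_pos rfl]
  conv_lhs => rw [← h1, ← hac, ← hb, map_add, map_sum]
  congr 1
  refine Finset.sum_congr rfl fun i _ => ?_
  rw [mul_comm, mul_comm _ (y i), add_comm e 1, component_mul (hy i)]

/-- monomials of larger degree -/
theorem monomial_mem {J₀ : Ideal (MvPolynomial σ k)} {N : ℕ}
    (h : ∀ J : σ →₀ ℕ, J.degree = N → monomial J (1 : k) ∈ J₀) (m : ℕ) :
    ∀ J : σ →₀ ℕ, J.degree = N + m → monomial J (1 : k) ∈ J₀ := by
  classical
  induction m with
  | zero => exact fun J hJ => h J hJ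
  | succ m ih =>
    intro J hJ
    have hJ0 : J ≠ 0 := by
      rintro rfl
      simp at hJ
    obtain ⟨l, hl⟩ := Finsupp.ne_iff.1 hJ0
    rw [Finsupp.coe_zero, Pi.zero_apply] at hl
    have h1 : J = (J - Finsupp.single l 1) + Finsupp.single l 1 := by
      rw [tsub_add_cancel_of_le]
      rw [Finsupp.single_le_iff]
      omega
    have h2 : (J - Finsupp.single l 1).degree = N + m := by
      have h3 := congrArg Finsupp.degree h1
      rw [map_add, Finsupp.degree_single, hJ] at h3
      omega
    have h3 : monomial J (1 : k) = monomial (Finsupp.single l 1) (1 : k) *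
        monomial (J - Finsupp.single l 1) (1 : k) := by
      rw [monomial_mul, one_mul, add_comm, ← h1]
    rw [h3]
    exact Ideal.mul_mem_left _ _ (ih _ h2)

/-- forms of large degree -/
theorem form_mem {J₀ : Ideal (MvPolynomial σ k)} {N : ℕ}
    (h : ∀ J : σ →₀ ℕ, J.degree = N → monomial J (1 : k) ∈ J₀) {e : ℕ} (he : N ≤ e)
    {p : MvPolynomial σ k} (hp : p.IsHomogeneous e) : p ∈ J₀ := by
  rw [p.as_sum]
  refine Ideal.sum_mem _ fun J hJ => ?_
  have h1 : monomial J (p.coeff J) = C (p.coeff J) * monomial J 1 := by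
    rw [C_mul_monomial, mul_one]
  rw [h1]
  refine Ideal.mul_mem_left _ _ (monomial_mem h (e - N) J ?_)
  have h2 : J.degree = e := by
    have h3 := hp (mem_support_iff.1 hJ)
    rw [Finsupp.degree_eq_weight_one]
    exact h3
  omega

/-- **Graded Nakayama lemma**: if all monomials of a degree are in the ideal generated by `I` and the
linear forms `y`, then the ring modulo `I` is integral over the ring generated by `y`. -/
theorem integral_of_monomials [Finite σ] [Finite τ] (hI : HomI I)
    (hy : ∀ i, (y i).IsHomogeneous 1) {N : ℕ}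
    (h : ∀ J : σ →₀ ℕ, J.degree = N + 1 → monomial J (1 : k) ∈ I ⊔ Ideal.span (Set.range y)) :
    ((Ideal.Quotient.mkₐ k I).comp (aeval y)).toRingHom.IsIntegral := by
  classical
  have := Fintype.ofFinite τ
  set φ : MvPolynomial τ k →ₐ[k] MvPolynomial σ k ⧸ I := (Ideal.Quotient.mkₐ k I).comp (aeval y)
    with hφ
  let alg : Algebra (MvPolynomial τ k) (MvPolynomial σ k ⧸ I) := φ.toRingHom.toAlgebra
  have hsmul : ∀ (a : MvPolynomial τ k) (z : MvPolynomial σ k ⧸ I), a • z = φ a * z :=
    fun a z => rfl
  have hφX : ∀ i, φ (X i) = Ideal.Quotient.mkₐ k I (y i) := fun i => by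
    rw [hφ, AlgHom.comp_apply, aeval_X]
  have hφC : ∀ c, φ (C c) = Ideal.Quotient.mkₐ k I (C c) := fun c => by
    rw [hφ, AlgHom.comp_apply, aeval_C]
    rfl
  have hfin : {J : σ →₀ ℕ | J.degree ≤ N}.Finite := Finsupp.finite_of_degree_le N
  set W : Submodule (MvPolynomial τ k) (MvPolynomial σ k ⧸ I) := Submodule.span _
    ((fun J : σ →₀ ℕ => Ideal.Quotient.mkₐ k I (monomial J 1)) '' {J | J.degree ≤ N}) with hW
  have hhom : ∀ (e : ℕ) (p : MvPolynomial σ k), p.IsHomogeneous e →
      Ideal.Quotient.mkₐ k I p ∈ W := by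
    intro e
    induction e with
    | zero =>
      intro p hp
      rw [p.as_sum, map_sum]
      refine Submodule.sum_mem _ fun J hJ => ?_
      have h1 : monomial J (p.coeff J) = C (p.coeff J) * monomial J 1 := by
        rw [C_mul_monomial, mul_one]
      rw [h1, map_mul, ← hφC, ← hsmul]
      refine Submodule.smul_mem _ _ (Submodule.subset_span ⟨J, ?_, rfl⟩)
      have h2 := hp (mem_support_iff.1 hJ)
      have h3 : J.degree = 0 := by
        rw [Finsupp.degree_eq_weight_one]
        exact h2
      show J.degree ≤ N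
      omega
    | succ e ih =>
      intro p hp
      rcases Nat.lt_or_ge N (e + 1) with he | he
      · obtain ⟨a, b, ha, -, hb, hpab⟩ := exists_homog_rep hI hy hp
          (form_mem h he hp)
        have h1 : Ideal.Quotient.mkₐ k I a = 0 := Ideal.Quotient.eq_zero_iff_mem.2 ha
        rw [hpab, map_add, h1, zero_add, map_sum]
        refine Submodule.sum_mem _ fun i _ => ?_
        rw [map_mul, mul_comm, ← hφX, ← hsmul]
        exact Submodule.smul_mem _ _ (ih _ (hb i))
      · rw [p.as_sum, map_sum]
        refine Submodule.sum_mem _ fun J hJ => ?_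
        have h1 : monomial J (p.coeff J) = C (p.coeff J) * monomial J 1 := by
          rw [C_mul_monomial, mul_one]
        rw [h1, map_mul, ← hφC, ← hsmul]
        refine Submodule.smul_mem _ _ (Submodule.subset_span ⟨J, ?_, rfl⟩)
        have h2 := hp (mem_support_iff.1 hJ)
        have h3 : J.degree = e + 1 := by
          rw [Finsupp.degree_eq_weight_one]
          exact h2
        show J.degree ≤ N
        omega
  have htop : W = ⊤ := by
    rw [eq_top_iff]
    intro z _
    obtain ⟨p, rfl⟩ := Ideal.Quotient.mk_surjective z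
    have h1 : Ideal.Quotient.mk I p = Ideal.Quotient.mkₐ k I p := rfl
    rw [h1, ← sum_homogeneousComponent p, map_sum]
    exact Submodule.sum_mem _ fun e _ => hhom e _ (homogeneousComponent_isHomogeneous e p)
  have hmf : Module.Finite (MvPolynomial τ k) (MvPolynomial σ k ⧸ I) := by
    refine ⟨⟨(hfin.image fun J : σ →₀ ℕ => Ideal.Quotient.mkₐ k I (monomial J 1)).toFinset, ?_⟩⟩
    rw [Set.Finite.coe_toFinset]
    exact htop
  have hint : Algebra.IsIntegral (MvPolynomial τ k) (MvPolynomial σ k ⧸ I) :=
    Algebra.IsIntegral.of_finite _ _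
  exact fun z => hint.isIntegral z

end

end Pool.Agent.Lib.MP_44a246_ntTV
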