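import Mathlib
import Pool.Agent.Lib.MP_44a246_ntTV.TV51

/-!
# A finite family of projections: finiteness of the projection is an open condition
-/

namespace Pool.Agent.Lib.MP_44a246_ntTV

open Pool.Agent.Lib.MP_44a246_ntUV
open MvPolynomial

/-- the matrices whose first `r + 1` columns are the identity matrix -/
def eta {R : Type*} [Zero R] [One R] {n r : ℕ} (m : Fin (r + 1) × Fin (n + 1) → R) :
    Fin (r + 1) → Fin (n + 1) → R :=
  fun i l => if l.1 ≤ r then (if i.1 = l.1 then 1 else 0) else m (i, l)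

theorem eta_id {R : Type*} [Zero R] [One R] {n r : ℕ} (hr : r ≤ n)
    (m : Fin (r + 1) × Fin (n + 1) → R) (i l : Fin (r + 1)) :
    eta m i (Fin.castLE (by omega) l) = if i = l then 1 else 0 := by
  unfold eta
  have h1 : (Fin.castLE (by omega : r + 1 ≤ n + 1) l).1 = l.1 := rfl
  rw [h1, if_pos (by have := l.2; omega)]
  simp only [Fin.ext_iff]

theorem eta_of_id {n r : ℕ} (hr : r ≤ n) {η : Fin (r + 1) → Fin (n + 1) → ℤ}
    (hη : ∀ i l, η i (Fin.castLE (by omega) l) = if i = l then 1 else 0) :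
    eta (fun q : Fin (r + 1) × Fin (n + 1) => η q.1 q.2) = η := by
  funext i l
  unfold eta
  by_cases hl : l.1 ≤ r
  · rw [if_pos hl]
    have h1 := hη i ⟨l.1, by omega⟩
    have h2 : Fin.castLE (by omega : r + 1 ≤ n + 1) ⟨l.1, by omega⟩ = l := Fin.ext rfl
    rw [h2] at h1
    rw [h1]
    simp only [Fin.ext_iff]
  · rw [if_neg hl]

/-- the value of a monic form with vanishing variables -/
theorem MonicForm_aeval_zero {k τ R : Type*} [Field k] [CommRing R] [Algebra k R] {e : ℕ}
    {P : MvPolynomial (Option τ) k} (hP : MonicForm e P) (z : R) :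
    aeval (fun o : Option τ => o.elim z fun _ => 0) P = z ^ e := by
  classical
  obtain ⟨he, hPh, hPc⟩ := hP
  rw [aeval_def, eval₂_eq]
  rw [Finset.sum_eq_single (Finsupp.single none e)]
  · rw [hPc, map_one, one_mul, Finsupp.support_single _ (by omega : e ≠ 0),
      Finset.prod_singleton, Finsupp.single_eq_same]
    rfl
  · intro d hd hne
    have h1 : d.degree = e := by
      have h2 := hPh (mem_support_iff.1 hd)
      rw [Finsupp.degree_eq_weight_one]
      exact h2
    have h2 : ∃ i : τ, some i ∈ d.support := by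
      by_contra hcon
      push Not at hcon
      apply hne
      have h3 : d = Finsupp.single none (d none) := by
        ext o
        rcases o with _ | i
        · rw [Finsupp.single_eq_same]
        · rw [Finsupp.single_eq_of_ne (by simp)]
          exact Finsupp.notMem_support_iff.1 (hcon i)
      rw [h3, Finsupp.degree_single] at h1
      rw [h3, h1]
    obtain ⟨i, hi⟩ := h2
    rw [Finset.prod_eq_zero hi, mul_zero]
    show (0 : R) ^ d (some i) = 0
    exact zero_pow (Finsupp.mem_support_iff.1 hi)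
  · intro h
    rw [mem_support_iff, hPc] at h
    exact absurd one_ne_zero h

theorem pow_mem_of_projV {k : Type*} [Field k] {n r : ℕ} {hr : r ≤ n}
    {I : Ideal (MvPolynomial (Fin (n + 1)) k)} {η : Fin (r + 1) → Fin (n + 1) → ℤ}
    (h : ProjV hr I η) (l : Fin (n + 1)) :
    ∃ e : ℕ, 1 ≤ e ∧ (X l : MvPolynomial (Fin (n + 1)) k) ^ e ∈
      I ⊔ Ideal.span (Set.range fun i => ∑ l', C (η i l' : k) * X l') := by
  obtain ⟨e, P, hP, hPI⟩ := h.2 l
  refine ⟨e, hP.1, ?_⟩
  set J₀ := I ⊔ Ideal.span (Set.range fun i => ∑ l', C (η i l' : k) * X l') with hJ₀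
  have h1 : Ideal.Quotient.mkₐ k J₀ (aeval (fun o : Option (Fin (r + 1)) =>
      o.elim (X l) fun i => ∑ l', C (η i l' : k) * X l') P) = 0 :=
    Ideal.Quotient.eq_zero_iff_mem.2 (Ideal.mem_sup_left hPI)
  rw [comp_aeval_apply] at h1
  have h2 : (fun o : Option (Fin (r + 1)) => Ideal.Quotient.mkₐ k J₀ (o.elim (X l : MvPolynomial _ k)
      fun i => ∑ l', C (η i l' : k) * X l')) =
      fun o : Option (Fin (r + 1)) => o.elim (Ideal.Quotient.mkₐ k J₀ (X l)) fun _ => 0 := by
    funext o
    rcases o with _ | i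
    · rfl
    · exact Ideal.Quotient.eq_zero_iff_mem.2 (Ideal.mem_sup_right (Ideal.subset_span ⟨i, rfl⟩))
  rw [h2, MonicForm_aeval_zero hP, ← map_pow] at h1
  exact Ideal.Quotient.eq_zero_iff_mem.1 h1

/-- all monomials of some degree -/
theorem exists_degree {k : Type*} [Field k] {n : ℕ} {J₀ : Ideal (MvPolynomial (Fin (n + 1)) k)}
    (h : ∀ l, ∃ e : ℕ, 1 ≤ e ∧ (X l : MvPolynomial (Fin (n + 1)) k) ^ e ∈ J₀) :
    ∃ N : ℕ, ∀ J : Fin (n + 1) →₀ ℕ, J.degree = N + 1 → monomial J (1 : k) ∈ J₀ := by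
  classical
  choose e he1 he using h
  have h0 : 1 ≤ ∑ l, e l := (he1 0).trans (Finset.single_le_sum (f := e) (fun _ _ => Nat.zero_le _)
    (Finset.mem_univ 0))
  refine ⟨∑ l, e l - 1, fun J hJ => ?_⟩
  have h1 : ∃ l, e l ≤ J l := by
    by_contra hcon
    push Not at hcon
    have h2 : ∑ l, J l < ∑ l, e l := Finset.sum_lt_sum_of_nonempty Finset.univ_nonempty
      fun l _ => hcon l
    rw [Finsupp.degree_eq_sum] at hJ
    omega
  obtain ⟨l, hl⟩ := h1
  have h3 : J = (J - Finsupp.single l (e l)) + Finsupp.single l (e l) := by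
    rw [tsub_add_cancel_of_le]
    rwa [Finsupp.single_le_iff]
  have h4 : monomial J (1 : k) = monomial (J - Finsupp.single l (e l)) 1 * X l ^ e l := by
    rw [X_pow_eq_monomial, monomial_mul, one_mul, ← h3]
  rw [h4]
  exact Ideal.mul_mem_left _ _ (he l)

/-- the linear forms -/
theorem isHomogeneous_lin {k : Type*} [Field k] {n r : ℕ} (η : Fin (r + 1) → Fin (n + 1) → ℤ)
    (i : Fin (r + 1)) : (∑ l', C (η i l' : k) * X l' : MvPolynomial (Fin (n + 1)) k).IsHomogeneous 1 :=
  IsHomogeneous.sum _ _ _ fun _ _ => isHomogeneous_C_mul_X _ _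

/-- the projection is finite if all monomials of a degree are in the ideal -/
theorem projV_of_monomials {k : Type*} [Field k] {n r : ℕ} (hr : r ≤ n)
    {I : Ideal (MvPolynomial (Fin (n + 1)) k)} (hI : HomI I)
    (m : Fin (r + 1) × Fin (n + 1) → ℤ) {N : ℕ}
    (h : ∀ J : Fin (n + 1) →₀ ℕ, J.degree = N + 1 → monomial J (1 : k) ∈
      I ⊔ Ideal.span (Set.range fun i => ∑ l', C ((eta m i l' : ℤ) : k) * X l')) :
    ProjV hr I (eta m) := by
  refine ⟨eta_id hr m, fun l => ?_⟩
  have hint := integral_of_monomials hI (isHomogeneous_lin (eta m)) h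
  exact exists_monicForm hI (isHomogeneous_lin (eta m)) hint (isHomogeneous_X k l)

/-- **The finiteness of the projection is an open condition.** -/
theorem open_proj {k : Type*} [Field k] {n r : ℕ} {hr : r ≤ n}
    {I : Ideal (MvPolynomial (Fin (n + 1)) k)} (hI : HomI I)
    {η₀ : Fin (r + 1) → Fin (n + 1) → ℤ} (h₀ : ProjV hr I η₀) :
    ∃ F : MvPolynomial (Fin (r + 1) × Fin (n + 1)) k, F ≠ 0 ∧
      ∀ m : Fin (r + 1) × Fin (n + 1) → ℤ, aeval (fun q => (m q : k)) F ≠ 0 →
        ProjV hr I (eta m) := by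
  classical
  obtain ⟨N, hN⟩ := exists_degree (pow_mem_of_projV h₀)
  let T := {J : Fin (n + 1) →₀ ℕ // J.degree = N + 1}
  have hT : Finite T := (Finsupp.finite_of_degree_eq (N + 1)).to_subtype
  have := Fintype.ofFinite T
  have hrep := fun J : T => exists_homog_rep (e := N) hI (isHomogeneous_lin η₀)
    (p := monomial J.1 (1 : k)) (isHomogeneous_monomial _ J.2) (hN J.1 J.2)
  choose a b ha hah hbh hab using hrep
  let 𝒜 : Matrix T T (MvPolynomial (Fin (r + 1) × Fin (n + 1)) k) := Matrix.of fun J J' =>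
    C (coeff J'.1 (a J)) + ∑ i, ∑ l, eta (fun q => X q) i l * C (coeff J'.1 (b J i * X l))
  let y : (Fin (r + 1) × Fin (n + 1) → ℤ) → Fin (r + 1) → MvPolynomial (Fin (n + 1)) k :=
    fun m i => ∑ l', C ((eta m i l' : ℤ) : k) * X l'
  let E : (Fin (r + 1) × Fin (n + 1) → ℤ) → T → MvPolynomial (Fin (n + 1)) k :=
    fun m J => a J + ∑ i, b J i * y m i
  have hval : ∀ (m : Fin (r + 1) × Fin (n + 1) → ℤ) (J J' : T),
      aeval (fun q => (m q : k)) (𝒜 J J') = coeff J'.1 (E m J) := by
    intro m J J'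
    have h1 : ∀ i l, aeval (fun q => (m q : k)) (eta (fun q => X q :
        Fin (r + 1) × Fin (n + 1) → MvPolynomial (Fin (r + 1) × Fin (n + 1)) k) i l) =
        ((eta m i l : ℤ) : k) := by
      intro i l
      unfold eta
      split_ifs
      · simp
      · simp
      · exact aeval_X _ _
    show aeval _ (C (coeff J'.1 (a J)) + ∑ i, ∑ l, eta (fun q => X q) i l *
      C (coeff J'.1 (b J i * X l))) = coeff J'.1 (a J + ∑ i, b J i * ∑ l', C ((eta m i l' : ℤ) : k) * X l')
    rw [map_add, aeval_C, map_sum, coeff_add, coeff_sum]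
    congr 1
    refine Finset.sum_congr rfl fun i _ => ?_
    rw [map_sum, Finset.mul_sum, coeff_sum]
    refine Finset.sum_congr rfl fun l _ => ?_
    rw [map_mul, h1, aeval_C, mul_left_comm, coeff_C_mul]
    rfl
  have hdet : ∀ m : Fin (r + 1) × Fin (n + 1) → ℤ, aeval (fun q => (m q : k)) 𝒜.det =
      (Matrix.of fun J J' : T => coeff J'.1 (E m J)).det := by
    intro m
    rw [AlgHom.map_det]
    congr 1
    ext J J'
    exact hval m J J'
  have hEh : ∀ m J, (E m J).IsHomogeneous (N + 1) := fun m J =>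
    (hah J).add (IsHomogeneous.sum _ _ _ fun i _ => (hbh J i).mul (isHomogeneous_lin _ _))
  have hEm : ∀ m J, E m J ∈ I ⊔ Ideal.span (Set.range (y m)) := fun m J =>
    Ideal.add_mem _ (Ideal.mem_sup_left (ha J)) (Ideal.sum_mem _ fun i _ =>
      Ideal.mul_mem_left _ _ (Ideal.mem_sup_right (Ideal.subset_span ⟨i, rfl⟩)))
  have hEexp : ∀ m J, E m J = ∑ J' : T, C (coeff J'.1 (E m J)) * monomial J'.1 1 := by
    intro m J
    ext J'
    rw [coeff_sum]
    simp only [coeff_C_mul, coeff_monomial]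
    by_cases h1 : J'.degree = N + 1
    · rw [Finset.sum_eq_single ⟨J', h1⟩]
      · simp
      · intro J'' _ hne
        rw [if_neg, mul_zero]
        intro h2
        exact hne (Subtype.ext h2)
      · intro h2
        exact absurd (Finset.mem_univ _) h2
    · rw [Finset.sum_eq_zero]
      · by_contra h2
        apply h1
        have h3 := hEh m J h2
        rw [Finsupp.degree_eq_weight_one]
        exact h3
      · intro J'' _
        rw [if_neg, mul_zero]
        intro h2
        exact h1 (h2 ▸ J''.2)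
  refine ⟨𝒜.det, ?_, ?_⟩
  · intro h0
    have h1 := hdet fun q => η₀ q.1 q.2
    have h2 : (Matrix.of fun J J' : T => coeff J'.1 (E (fun q => η₀ q.1 q.2) J)) = 1 := by
      ext J J'
      have h3 : E (fun q => η₀ q.1 q.2) J = monomial J.1 1 := by
        show a J + ∑ i, b J i * ∑ l', 
          C ((eta (fun q : Fin (r + 1) × Fin (n + 1) => η₀ q.1 q.2) i l' : ℤ) : k) * X l' = _
        rw [eta_of_id hr h₀.1]
        exact (hab J).symm
      rw [Matrix.of_apply, h3, coeff_monomial, Matrix.one_apply]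
      by_cases h4 : J = J'
      · rw [if_pos h4, if_pos (congrArg Subtype.val h4)]
      · rw [if_neg h4, if_neg fun h5 => h4 (Subtype.ext h5)]
    rw [h0, map_zero, h2, Matrix.det_one] at h1
    exact zero_ne_one h1
  · intro m hm
    rw [hdet] at hm
    refine projV_of_monomials hr hI m (N := N) fun J hJ => ?_
    set A : Matrix T T k := Matrix.of fun J J' : T => coeff J'.1 (E m J) with hA
    have hunit : IsUnit A.det := isUnit_iff_ne_zero.2 hm
    have h1 : monomial J (1 : k) = ∑ J₁ : T, C (A⁻¹ ⟨J, hJ⟩ J₁) * E m J₁ := by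
      have h2 : ∀ J₁ : T, C (A⁻¹ ⟨J, hJ⟩ J₁) * E m J₁ =
          ∑ J' : T, C (A⁻¹ ⟨J, hJ⟩ J₁ * A J₁ J') * monomial J'.1 1 := by
        intro J₁
        conv_lhs => rw [hEexp m J₁]
        rw [Finset.mul_sum]
        refine Finset.sum_congr rfl fun J' _ => ?_
        rw [C_mul, mul_assoc]
        rfl
      rw [Finset.sum_congr rfl fun J₁ _ => h2 J₁, Finset.sum_comm]
      have h3 : ∀ J' : T, ∑ J₁ : T, C (A⁻¹ ⟨J, hJ⟩ J₁ * A J₁ J') * monomial J'.1 (1 : k) =
          C ((1 : Matrix T T k) ⟨J, hJ⟩ J') * monomial J'.1 1 := by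
        intro J'
        rw [← Finset.sum_mul, ← map_sum]
        congr 2
        rw [← Matrix.mul_apply, Matrix.nonsing_inv_mul A hunit]
      rw [Finset.sum_congr rfl fun J' _ => h3 J', Finset.sum_eq_single ⟨J, hJ⟩]
      · rw [Matrix.one_apply_eq, C_1, one_mul]
      · intro J' _ hne
        rw [Matrix.one_apply_ne hne.symm, C_0, zero_mul]
      · intro h
        exact absurd (Finset.mem_univ _) h
    rw [h1]
    exact Ideal.sum_mem _ fun J₁ _ => Ideal.mul_mem_left _ _ (hEm m J₁)

end Pool.Agent.Lib.MP_44a246_ntTV
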